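import Pool.Agent.HP3.Lov

/-!
# Crossing arcs and crossing triangles (module ArcTri)

PROOF. `cr_triX`: `s Y b + t Y c = u Y i + v Y j` (`Y` seen from `r`). `s + t ≠ u + v`, because
otherwise `b, c, i, j` are in a plane (the four points are different and all different from `r`).
If `s + t > u + v` divide by `s + t`: a point of the segment `b c` is a point of the triangle
`r i j` with the weights `1 - (u + v)/(s + t)`, `u/(s + t)`, `v/(s + t)`. Otherwise exchange the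
roles. `sum_crN`: by `cr_triX` and symmetry `crN (yr x r) (Ar x r)` is at most twice the number of
`(b, c, i, j)` (all different from `r`) with `NH x r i j`, `b ≠ c`, `b, c ∉ {i, j}`,
`TriX b c r i j`; sum over `r` and use `lovasz` for every pair `(b, c)`.
-/

set_option autoImplicit false

namespace Pool.Agent.HP3

variable {n : ℕ} {x : Fin n × Fin 3 → ℝ}

private theorem tri_aux {r b c i j : Fin n} {s t u v : ℝ} (hs : 0 < s) (ht : 0 < t) (hu : 0 < u)
    (hv : 0 < v) (hC : s • (pt x b - pt x r) + t • (pt x c - pt x r) =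
      u • (pt x i - pt x r) + v • (pt x j - pt x r)) (hlt : u + v < s + t) :
    TriX (pt x b) (pt x c) (pt x r) (pt x i) (pt x j) := by
  have hS : 0 < s + t := by linarith
  refine ⟨s / (s + t), t / (s + t), 1 - (u + v) / (s + t), u / (s + t), v / (s + t),
    div_pos hs hS, div_pos ht hS, ?_, ?_, div_pos hu hS, div_pos hv hS, ?_, ?_⟩
  · field_simp
  · have : (u + v) / (s + t) < 1 := by rwa [div_lt_one hS]
    linarith
  · field_simp
    ring
  · funext k
    have h1 := congrFun hC k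
    simp only [Pi.add_apply, Pi.smul_apply, Pi.sub_apply, smul_eq_mul] at h1 ⊢
    field_simp
    linear_combination h1

private theorem four_aux (h : GP x) {b c i j : Fin n} (hbc : b ≠ c) (hij : i ≠ j) (hbi : b ≠ i)
    (hbj : b ≠ j) (hci : c ≠ i) (hcj : c ≠ j) {r : Fin n} {s t u v : ℝ} (hv : 0 < v)
    (hC : s • (pt x b - pt x r) + t • (pt x c - pt x r) =
      u • (pt x i - pt x r) + v • (pt x j - pt x r)) (heq : s + t = u + v) : False := by
  have h1 := h i b c j hbi.symm hci.symm hij hbc hbj hcj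
  have hk : ∀ k : Fin 3, v * (x (j, k) - x (i, k)) =
      s * (x (b, k) - x (i, k)) + t * (x (c, k) - x (i, k)) := by
    intro k
    have h2 := congrFun hC k
    simp only [Pi.add_apply, Pi.smul_apply, Pi.sub_apply, smul_eq_mul, pt] at h2
    linear_combination (-1 : ℝ) * h2 + (x (i, k) - x (r, k)) * heq
  have h3 : v * ori x i b c j = 0 := by
    unfold ori dt
    simp only [Pi.sub_apply, pt]
    linear_combination
      ((x (b, 1) - x (i, 1)) * (x (c, 2) - x (i, 2)) - (x (b, 2) - x (i, 2)) * (x (c, 1) - x (i, 1))) * hk 0 +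
      ((x (b, 2) - x (i, 2)) * (x (c, 0) - x (i, 0)) - (x (b, 0) - x (i, 0)) * (x (c, 2) - x (i, 2))) * hk 1 +
      ((x (b, 0) - x (i, 0)) * (x (c, 1) - x (i, 1)) - (x (b, 1) - x (i, 1)) * (x (c, 0) - x (i, 0))) * hk 2
  rcases mul_eq_zero.mp h3 with h4 | h4
  · exact hv.ne' h4
  · exact h1 h4

theorem cr_triX (h : GP x) {r b c i j : Fin n} (hb : b ≠ r) (hc : c ≠ r) (hi : i ≠ r) (hj : j ≠ r)
    (hbc : b ≠ c) (hij : i ≠ j) (hbi : b ≠ i) (hbj : b ≠ j) (hci : c ≠ i) (hcj : c ≠ j)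
    (hC : Cr (pt x b - pt x r) (pt x c - pt x r) (pt x i - pt x r) (pt x j - pt x r)) :
    TriX (pt x b) (pt x c) (pt x r) (pt x i) (pt x j) ∨
      TriX (pt x i) (pt x j) (pt x r) (pt x b) (pt x c) := by
  obtain ⟨s, t, u, v, hs, ht, hu, hv, hE⟩ := hC
  rcases lt_trichotomy (u + v) (s + t) with h1 | h1 | h1
  · exact Or.inl (tri_aux hs ht hu hv hE h1)
  · exact (four_aux h hbc hij hbi hbj hci hcj hv hE h1.symm).elim
  · exact Or.inr (tri_aux hu hv hs ht hE.symm h1)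

open Classical in
private theorem crN_eq {ι : Type} [Fintype ι] (y : ι → V3) (A : ι → ι → Prop) :
    crN y A = (Finset.univ.filter fun z : (ι × ι) × (ι × ι) => A z.1.1 z.1.2 ∧ A z.2.1 z.2.2 ∧
      z.2.1 ≠ z.1.1 ∧ z.2.1 ≠ z.1.2 ∧ z.2.2 ≠ z.1.1 ∧ z.2.2 ≠ z.1.2 ∧
      Cr (y z.1.1) (y z.1.2) (y z.2.1) (y z.2.2)).card := by
  rw [Finset.card_filter, Fintype.sum_prod_type]
  unfold crN arcN
  refine Finset.sum_congr rfl fun q _ => ?_
  by_cases h : A q.1 q.2
  · rw [if_pos h, Finset.card_filter]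
    refine Finset.sum_congr rfl fun p _ => ?_
    simp only [h, true_and]
  · rw [if_neg h]
    simp [h]

/-- the condition for five points -/
private def Cd (x : Fin n × Fin 3 → ℝ) (r : Fin n) (p z : Fin n × Fin n) : Prop :=
  p.1 ≠ p.2 ∧ NH x r z.1 z.2 ∧ r ≠ p.1 ∧ r ≠ p.2 ∧ z.1 ≠ p.1 ∧ z.1 ≠ p.2 ∧ z.2 ≠ p.1 ∧ z.2 ≠ p.2 ∧
    TriX (pt x p.1) (pt x p.2) (pt x r) (pt x z.1) (pt x z.2)

open Classical in
private theorem crN_le (h : GP x) (r : Fin n) : crN (yr x r) (Ar x r) ≤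
    2 * (Finset.univ.filter fun z : (Fin n × Fin n) × (Fin n × Fin n) => Cd x r z.1 z.2).card := by
  rw [crN_eq]
  set ι := {j : Fin n // j ≠ r}
  let f : (ι × ι) × (ι × ι) → (Fin n × Fin n) × (Fin n × Fin n) :=
    fun z => ((z.1.1, z.1.2), (z.2.1, z.2.2))
  have hf : Function.Injective f := by
    rintro ⟨⟨a, b⟩, ⟨c, d⟩⟩ ⟨⟨a', b'⟩, ⟨c', d'⟩⟩ he
    simp only [f, Prod.mk.injEq, Subtype.val_inj] at he
    obtain ⟨⟨rfl, rfl⟩, rfl, rfl⟩ := he
    rfl
  rw [← Finset.card_image_of_injective _ hf, two_mul]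
  set T := Finset.univ.filter fun z : (Fin n × Fin n) × (Fin n × Fin n) => Cd x r z.1 z.2 with hT
  refine (Finset.card_le_card (t := T ∪ T.image Prod.swap) ?_).trans
    ((Finset.card_union_le _ _).trans (Nat.add_le_add_left Finset.card_image_le _))
  · -- the inclusion
    intro w hw
    obtain ⟨⟨⟨b, c⟩, ⟨i, j⟩⟩, hz, rfl⟩ := Finset.mem_image.mp hw
    simp only [Finset.mem_filter, Finset.mem_univ, true_and] at hz
    obtain ⟨h1, h2, h3, h4, h5, h6, h7⟩ := hz
    have n1 : NH x r b c := h1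
    have n2 : NH x r i j := h2
    have hbc : (b : Fin n) ≠ c := n1.2.1
    have hij : (i : Fin n) ≠ j := n2.2.1
    have e3 : (i : Fin n) ≠ b := fun e => h3 (Subtype.ext e)
    have e4 : (i : Fin n) ≠ c := fun e => h4 (Subtype.ext e)
    have e5 : (j : Fin n) ≠ b := fun e => h5 (Subtype.ext e)
    have e6 : (j : Fin n) ≠ c := fun e => h6 (Subtype.ext e)
    rw [Finset.mem_union]
    rcases cr_triX h b.2 c.2 i.2 j.2 hbc hij e3.symm e5.symm e4.symm e6.symm h7 with h8 | h8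
    · left
      rw [hT, Finset.mem_filter]
      exact ⟨Finset.mem_univ _, hbc, n2, b.2.symm, c.2.symm, e3, e4, e5, e6, h8⟩
    · right
      rw [Finset.mem_image]
      refine ⟨((i, j), (b, c)), ?_, rfl⟩
      rw [hT, Finset.mem_filter]
      exact ⟨Finset.mem_univ _, hij, n1, i.2.symm, j.2.symm, e3.symm, e5.symm, e4.symm, e6.symm, h8⟩

open Classical in
private theorem pair_le (h : GP x) (p : Fin n × Fin n) :
    ∑ r : Fin n, ∑ z : Fin n × Fin n, (if Cd x r p z then 1 else 0) ≤ 24 * n ^ 2 := by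
  by_cases hp : p.1 = p.2
  · have h0 : ∀ r z, ¬ Cd x r p z := fun r z hc => hc.1 hp
    simp [h0]
  · have h1 := lovasz h hp
    refine le_trans (le_of_eq ?_) h1
    rw [Finset.card_filter, Fintype.sum_prod_type]
    refine Finset.sum_congr rfl fun r _ => Finset.sum_congr rfl fun z _ => ?_
    have h2 : Cd x r p z ↔ (NH x r z.1 z.2 ∧ r ≠ p.1 ∧ r ≠ p.2 ∧ z.1 ≠ p.1 ∧ z.1 ≠ p.2 ∧ z.2 ≠ p.1 ∧
        z.2 ≠ p.2 ∧ TriX (pt x p.1) (pt x p.2) (pt x r) (pt x z.1) (pt x z.2)) := by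
      unfold Cd
      exact ⟨fun hc => hc.2, fun hc => ⟨hp, hc⟩⟩
    by_cases h3 : Cd x r p z
    · rw [if_pos h3, if_pos (h2.mp h3)]
    · rw [if_neg h3, if_neg fun hc => h3 (h2.mpr hc)]

theorem sum_crN (h : GP x) : ∑ r : Fin n, crN (yr x r) (Ar x r) ≤ 48 * n ^ 4 := by
  classical
  have h1 : ∑ r : Fin n, crN (yr x r) (Ar x r) ≤
      ∑ r : Fin n, 2 * ∑ p : Fin n × Fin n, ∑ z : Fin n × Fin n, (if Cd x r p z then 1 else 0) := by
    refine Finset.sum_le_sum fun r _ => (crN_le h r).trans (le_of_eq ?_)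
    rw [Finset.card_filter, Fintype.sum_prod_type]
  refine h1.trans ?_
  rw [← Finset.mul_sum, Finset.sum_comm]
  have h2 : ∑ p : Fin n × Fin n, ∑ r : Fin n, ∑ z : Fin n × Fin n, (if Cd x r p z then 1 else 0) ≤
      ∑ _p : Fin n × Fin n, 24 * n ^ 2 := Finset.sum_le_sum fun p _ => pair_le h p
  rw [Finset.sum_const, Finset.card_univ, Fintype.card_prod, Fintype.card_fin, smul_eq_mul] at h2
  calc 2 * ∑ p : Fin n × Fin n, ∑ r : Fin n, ∑ z : Fin n × Fin n, (if Cd x r p z then 1 else 0) ≤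
      2 * (n * n * (24 * n ^ 2)) := Nat.mul_le_mul_left 2 h2
    _ = 48 * n ^ 4 := by ring

end Pool.Agent.HP3
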