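import Pool.Agent.HP3.Defs

/-!
# Symmetries of the near halving triples (module Sym)

The determinant identities are `ring` (unfold `ori`, `dt`, `Pi.sub_apply`); `nab_swap`: by `GP` every
`l` different from `i, j, k` is counted exactly once, `ori = 0` for `l ∈ {i, j, k}`.
`sg_*`: sign function.
-/

set_option autoImplicit false

namespace Pool.Agent.HP3

theorem sg_pos {t : ℝ} (h : 0 < t) : sg t = 1 := by
  simp [sg, h]

theorem sg_neg {t : ℝ} (h : t < 0) : sg t = -1 := by
  simp [sg, h, not_lt.mpr h.le]

theorem sg_zero : sg 0 = 0 := by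
  simp [sg]

/-- odd -/
theorem sg_neg_eq (t : ℝ) : sg (-t) = -sg t := by
  rcases lt_trichotomy t 0 with h | h | h
  · rw [sg_neg h, sg_pos (neg_pos.mpr h)]; rfl
  · subst h; rw [neg_zero, sg_zero]; rfl
  · rw [sg_pos h, sg_neg (neg_neg_iff_pos.mpr h)]

theorem sg_mul (a b : ℝ) : sg (a * b) = sg a * sg b := by
  rcases lt_trichotomy a 0 with h | h | h <;> rcases lt_trichotomy b 0 with h' | h' | h'
  · rw [sg_neg h, sg_neg h', sg_pos (mul_pos_of_neg_of_neg h h')]; rfl
  · subst h'; simp [sg_zero]
  · rw [sg_neg h, sg_pos h', sg_neg (mul_neg_of_neg_of_pos h h')]; rfl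
  · subst h; simp [sg_zero]
  · subst h; simp [sg_zero]
  · subst h; simp [sg_zero]
  · rw [sg_pos h, sg_neg h', sg_neg (mul_neg_of_pos_of_neg h h')]; rfl
  · subst h'; simp [sg_zero]
  · rw [sg_pos h, sg_pos h', sg_pos (mul_pos h h')]; rfl

theorem abs_sg_le (t : ℝ) : |sg t| ≤ 1 := by
  rcases lt_trichotomy t 0 with h | h | h
  · rw [sg_neg h]; decide
  · subst h; rw [sg_zero]; decide
  · rw [sg_pos h]; decide

theorem dt_swap12 (a b c : V3) : dt b a c = -dt a b c := by
  unfold dt; ring

theorem dt_swap23 (a b c : V3) : dt a c b = -dt a b c := by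
  unfold dt; ring

theorem dt_cyc (a b c : V3) : dt b c a = dt a b c := by
  unfold dt; ring

variable {n : ℕ} (x : Fin n × Fin 3 → ℝ)

theorem ori_swap23 (i j k l : Fin n) : ori x i k j l = -ori x i j k l := by
  unfold ori dt; ring

theorem ori_cyc (i j k l : Fin n) : ori x j k i l = ori x i j k l := by
  unfold ori dt; simp only [Pi.sub_apply]; ring

/-- all four points -/
theorem ori_swap34 (i j k l : Fin n) : ori x i j l k = -ori x i j k l := by
  unfold ori dt; ring

theorem nab_cyc (i j k : Fin n) : nab x j k i = nab x i j k := by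
  unfold nab
  simp only [ori_cyc]

private theorem sym_ori_one (i j k : Fin n) : ori x i j k i = 0 := by
  unfold ori dt; simp only [Pi.sub_apply]; ring

private theorem sym_ori_two (i j k : Fin n) : ori x i j k j = 0 := by
  unfold ori dt; simp only [Pi.sub_apply]; ring

private theorem sym_ori_three (i j k : Fin n) : ori x i j k k = 0 := by
  unfold ori dt; simp only [Pi.sub_apply]; ring

variable {x}

theorem nab_swap (h : GP x) {i j k : Fin n} (hij : i ≠ j) (hjk : j ≠ k) (hik : i ≠ k) :
    nab x i j k + nab x i k j + 3 = n := by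
  classical
  have h1 : ({i, j, k} : Finset (Fin n)).card = 3 := by
    rw [Finset.card_insert_of_notMem (by simp [hij, hik]), Finset.card_insert_of_notMem (by simp [hjk]),
      Finset.card_singleton]
  have hd1 : Disjoint (Finset.univ.filter fun l => 0 < ori x i j k l)
      (Finset.univ.filter fun l => 0 < ori x i k j l) := by
    rw [Finset.disjoint_left]
    intro l hl hl'
    rw [Finset.mem_filter] at hl hl'
    rw [ori_swap23 x i j k l] at hl'
    linarith [hl.2, hl'.2]
  have hd2 : Disjoint ((Finset.univ.filter fun l => 0 < ori x i j k l) ∪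
      (Finset.univ.filter fun l => 0 < ori x i k j l)) ({i, j, k} : Finset (Fin n)) := by
    rw [Finset.disjoint_left]
    intro l hl hl'
    rw [Finset.mem_union, Finset.mem_filter, Finset.mem_filter, ori_swap23 x i j k l] at hl
    have h0 : ori x i j k l = 0 := by
      simp only [Finset.mem_insert, Finset.mem_singleton] at hl'
      rcases hl' with rfl | rfl | rfl
      · exact sym_ori_one x _ _ _
      · exact sym_ori_two x _ _ _
      · exact sym_ori_three x _ _ _
    rw [h0] at hl
    simp at hl
  have hu : ((Finset.univ.filter fun l => 0 < ori x i j k l) ∪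
      (Finset.univ.filter fun l => 0 < ori x i k j l)) ∪ ({i, j, k} : Finset (Fin n)) =
        Finset.univ := by
    refine Finset.eq_univ_of_forall fun l => ?_
    rw [Finset.mem_union, Finset.mem_union, Finset.mem_filter, Finset.mem_filter,
      ori_swap23 x i j k l]
    by_cases hl : l ∈ ({i, j, k} : Finset (Fin n))
    · exact Or.inr hl
    · left
      simp only [Finset.mem_insert, Finset.mem_singleton, not_or] at hl
      have h0 := h i j k l hij hik (Ne.symm hl.1) hjk (Ne.symm hl.2.1) (Ne.symm hl.2.2)
      rcases lt_or_gt_of_ne h0 with h' | h'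
      · right; exact ⟨Finset.mem_univ _, by linarith⟩
      · left; exact ⟨Finset.mem_univ _, h'⟩
  have hc := congrArg Finset.card hu
  rw [Finset.card_union_of_disjoint hd2, Finset.card_union_of_disjoint hd1, h1,
    Finset.card_univ, Fintype.card_fin] at hc
  unfold nab
  convert hc

theorem NH.cyc {i j k : Fin n} (h : NH x i j k) : NH x j k i := by
  obtain ⟨h1, h2, h3, h4, h5⟩ := h
  exact ⟨h2, h3.symm, h1.symm, by rw [nab_cyc]; exact h4, by rw [nab_cyc]; exact h5⟩

theorem NH.swap (hg : GP x) {i j k : Fin n} (h : NH x i j k) : NH x i k j := by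
  obtain ⟨h1, h2, h3, h4, h5⟩ := h
  have h6 := nab_swap hg h1 h2 h3
  exact ⟨h3, h2.symm, h1, by omega, by omega⟩

end Pool.Agent.HP3
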