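import Pool.Agent.HP3.Walk
import Pool.Agent.HP3.Sym

/-!
# Antipodality (module Bal)

PROOF of `bal_yr` (the other clauses of `Link` are in `Sym`; `gp` is `GP` after unfolding). Fix
`r`, a vertex `i` and `o`; write `y j = p_j - p_r` (all `j ≠ r`). If `o` and `y i` are dependent,
all `dt o (y i) (y j)` vanish. Otherwise take `τ` with `κ := dt o τ (y i) ≠ 0` (for instance
`τ = crs o (y i)`; replace `τ` by `-τ` to get the sign you like) and put `a j = dt o (y i) (y j)`,
`t j = dt τ (y i) (y j)`. IDENTITY (ring): `a j * t l - t j * a l = ± κ * dt (y i) (y j) (y l)`.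
`J = {j ≠ i : a j ≠ 0}`, `ε j = sg (a j)`, `s j = t j / a j` (injective on `J` by general
position), `c = #{l : a l = 0, t l > 0}`. For `j ∈ J`: `#{l : ε j * (a j t l - t j a l) > 0} =
GG J s ε j + c`, and this is `nab x r i j` or `n - 3 - nab x r i j` (`nab_swap`), so that
`NH x r i j ↔ n ≤ 2 (GG j + c) + 6 ∧ 2 (GG j + c) ≤ n`. The sum is the sum in `walk_window`.
-/

set_option autoImplicit false

namespace Pool.Agent.HP3

variable {n : ℕ} {x : Fin n × Fin 3 → ℝ}

private lemma plu (o τ Y u v : V3) :
    dt o Y u * dt τ Y v - dt τ Y u * dt o Y v = dt o τ Y * dt Y u v := by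
  unfold dt
  ring

private lemma dt_self_right (o Y : V3) : dt o Y Y = 0 := by
  unfold dt
  ring

private lemma dt_zero_right (o Y : V3) : dt o Y (0 : V3) = 0 := by
  unfold dt
  simp

/-- the count for one `j` -/
private lemma count_aux (a t : Fin n → ℝ) (j : Fin n) (ha : a j ≠ 0) :
    open Classical in
    (Finset.univ.filter fun l => 0 < (sg (a j) : ℝ) * (a j * t l - t j * a l)).card =
      GG (Finset.univ.filter fun l => a l ≠ 0) (fun l => t l / a l) (fun l => sg (a l)) j +
        (Finset.univ.filter fun l => a l = 0 ∧ 0 < t l).card := by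
  classical
  have hd : Disjoint ((Finset.univ.filter fun l => a l ≠ 0).filter fun l =>
        0 < ((sg (a l) : ℤ) : ℝ) * (t l / a l - t j / a j))
      (Finset.univ.filter fun l => a l = 0 ∧ 0 < t l) := by
    rw [Finset.disjoint_left]
    intro l h1 h2
    rw [Finset.mem_filter, Finset.mem_filter] at h1
    rw [Finset.mem_filter] at h2
    exact h1.1.2 h2.2.1
  unfold GG
  have h := Finset.card_union_of_disjoint hd
  refine Eq.trans ?_ (Eq.trans h ?_)
  · refine congrArg Finset.card (Finset.ext fun l => ?_)
    rw [Finset.mem_union, Finset.mem_filter, Finset.mem_filter, Finset.mem_filter,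
      Finset.mem_filter]
    simp only [Finset.mem_univ, true_and]
    have hsj : 0 < (sg (a j) : ℝ) * a j := by
      rcases lt_or_gt_of_ne ha with h1 | h1
      · rw [sg_neg h1]
        push_cast
        linarith
      · rw [sg_pos h1]
        push_cast
        linarith
    have e1 : (sg (a j) : ℝ) * (a j * t l - t j * a l) =
        ((sg (a j) : ℝ) * a j) * (t l - t j / a j * a l) := by
      field_simp
    rw [e1, mul_pos_iff_of_pos_left hsj]
    by_cases hl : a l = 0
    · rw [hl, mul_zero, sub_zero]
      constructor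
      · intro h1
        exact Or.inr ⟨rfl, h1⟩
      · rintro (⟨h1, -⟩ | ⟨-, h1⟩)
        · exact absurd rfl h1
        · exact h1
    · have hsl : 0 < (sg (a l) : ℝ) * a l := by
        rcases lt_or_gt_of_ne hl with h1 | h1
        · rw [sg_neg h1]
          push_cast
          linarith
        · rw [sg_pos h1]
          push_cast
          linarith
      have hsq : (sg (a l) : ℝ) * (sg (a l) : ℝ) = 1 := by
        rcases lt_or_gt_of_ne hl with h1 | h1
        · rw [sg_neg h1]
          push_cast
          norm_num
        · rw [sg_pos h1]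
          push_cast
          norm_num
      have e2 : t l - t j / a j * a l =
          ((sg (a l) : ℝ) * a l) * ((sg (a l) : ℝ) * (t l / a l - t j / a j)) := by
        have e3 : ((sg (a l) : ℝ) * a l) * ((sg (a l) : ℝ) * (t l / a l - t j / a j)) =
            ((sg (a l) : ℝ) * (sg (a l) : ℝ)) * (t l - t j / a j * a l) := by
          field_simp
        rw [e3, hsq, one_mul]
      rw [e2, mul_pos_iff_of_pos_left hsl]
      constructor
      · intro h1
        exact Or.inl ⟨hl, h1⟩
      · rintro (⟨-, h1⟩ | ⟨h1, -⟩)
        · exact h1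
        · exact absurd h1 hl
  · congr 1

open Classical in
private lemma bal_aux (h : GP x) (r : Fin n) (o τ : V3) (i : Fin n) (hi : i ≠ r)
    (hκ : 0 < dt o τ (pt x i - pt x r)) :
    |∑ j, if NH x r i j then sg (dt o (pt x i - pt x r) (pt x j - pt x r)) else 0| ≤ 4 := by
  set Y : V3 := pt x i - pt x r with hY
  set a : Fin n → ℝ := fun l => dt o Y (pt x l - pt x r) with ha
  set t : Fin n → ℝ := fun l => dt τ Y (pt x l - pt x r) with ht
  have har : a r = 0 := by
    simp only [ha, sub_self]
    exact dt_zero_right _ _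
  have hai : a i = 0 := dt_self_right _ _
  have hori : ∀ j l, a j * t l - t j * a l = dt o τ Y * ori x r i j l := by
    intro j l
    exact plu o τ Y _ _
  set J : Finset (Fin n) := Finset.univ.filter fun l => a l ≠ 0 with hJ
  have hJne : ∀ l, a l ≠ 0 → l ≠ r ∧ l ≠ i := by
    intro l hl
    constructor
    · rintro rfl
      exact hl har
    · rintro rfl
      exact hl hai
  have hs : Set.InjOn (fun l => t l / a l) (J : Set (Fin n)) := by
    intro j hj l hl hjl
    rw [Finset.mem_coe, hJ, Finset.mem_filter] at hj hl
    by_contra hne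
    have e1 : t j / a j = t l / a l := hjl
    rw [div_eq_div_iff hj.2 hl.2] at e1
    have e2 := hori j l
    have e3 : dt o τ Y * ori x r i j l = 0 := by
      rw [← e2]
      linarith
    rcases mul_eq_zero.1 e3 with e4 | e4
    · exact hκ.ne' e4
    · exact h r i j l (Ne.symm hi) (Ne.symm (hJne j hj.2).1) (Ne.symm (hJne l hl.2).1)
        (Ne.symm (hJne j hj.2).2) (Ne.symm (hJne l hl.2).2) hne e4
  have hε : ∀ j ∈ J, (fun l => sg (a l)) j = 1 ∨ (fun l => sg (a l)) j = -1 := by
    intro j hj
    rw [hJ, Finset.mem_filter] at hj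
    rcases lt_or_gt_of_ne hj.2 with h1 | h1
    · exact Or.inr (sg_neg h1)
    · exact Or.inl (sg_pos h1)
  set c : ℕ := (Finset.univ.filter fun l => a l = 0 ∧ 0 < t l).card with hc
  have hw := walk_window J (fun l => t l / a l) hs (fun l => sg (a l)) hε n c
  have hNH : ∀ j, a j ≠ 0 → (NH x r i j ↔
      (n ≤ 2 * (GG J (fun l => t l / a l) (fun l => sg (a l)) j + c) + 6 ∧
        2 * (GG J (fun l => t l / a l) (fun l => sg (a l)) j + c) ≤ n)) := by
    intro j hj
    have hjr := (hJne j hj).1
    have hji := (hJne j hj).2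
    have hcount := count_aux a t j hj
    have hsum := nab_swap h (Ne.symm hi) (Ne.symm hji) (Ne.symm hjr)
    have hNHiff : NH x r i j ↔ (n ≤ 2 * nab x r i j + 6 ∧ 2 * nab x r i j ≤ n) :=
      ⟨fun h1 => h1.2.2.2, fun h1 => ⟨Ne.symm hi, Ne.symm hji, Ne.symm hjr, h1⟩⟩
    rw [hNHiff]
    rcases lt_or_gt_of_ne hj with h1 | h1
    · -- negative
      have e1 : nab x r j i = GG J (fun l => t l / a l) (fun l => sg (a l)) j + c := by
        rw [hJ, hc, ← hcount]
        unfold nab
        refine congrArg Finset.card (Finset.ext fun l => ?_)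
        rw [Finset.mem_filter, Finset.mem_filter]
        refine and_congr_right fun _ => ?_
        rw [sg_neg h1, hori, ori_swap23]
        push_cast
        constructor
        · intro h2
          nlinarith
        · intro h2
          by_contra h3
          nlinarith
      omega
    · have e1 : nab x r i j = GG J (fun l => t l / a l) (fun l => sg (a l)) j + c := by
        rw [hJ, hc, ← hcount]
        unfold nab
        refine congrArg Finset.card (Finset.ext fun l => ?_)
        rw [Finset.mem_filter, Finset.mem_filter]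
        refine and_congr_right fun _ => ?_
        rw [sg_pos h1, hori]
        push_cast
        constructor
        · intro h2
          nlinarith
        · intro h2
          by_contra h3
          nlinarith
      omega
  have hfin : (∑ j, if NH x r i j then sg (dt o Y (pt x j - pt x r)) else 0) =
      ∑ j ∈ J.filter (fun j =>
        n ≤ 2 * (GG J (fun l => t l / a l) (fun l => sg (a l)) j + c) + 6 ∧
        2 * (GG J (fun l => t l / a l) (fun l => sg (a l)) j + c) ≤ n), sg (a j) := by
    rw [Finset.sum_filter, hJ, Finset.sum_filter, ← hJ]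
    refine Finset.sum_congr rfl fun j _ => ?_
    by_cases hj : a j = 0
    · have hj' : dt o Y (pt x j - pt x r) = 0 := hj
      rw [if_neg (not_not.2 hj), hj', sg_zero, ite_self]
    · rw [if_pos hj]
      exact if_congr (hNH j hj) rfl rfl
  rw [hfin]
  exact hw

open Classical in
theorem bal_yr (h : GP x) (r : Fin n) (o : V3) (i : {j : Fin n // j ≠ r}) :
    |∑ j, if Ar x r i j then sg (dt o (yr x r i) (yr x r j)) else 0| ≤ 4 := by
  have h1 : (∑ j : {j : Fin n // j ≠ r},
      if Ar x r i j then sg (dt o (yr x r i) (yr x r j)) else 0) =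
      ∑ j : Fin n, if NH x r i j then
        sg (dt o (pt x (i : Fin n) - pt x r) (pt x j - pt x r)) else 0 := by
    have h2 := Finset.sum_subtype (Finset.univ.filter fun j : Fin n => j ≠ r)
      (F := inferInstance) (p := fun j => j ≠ r) (fun j => by simp)
      (fun j : Fin n => if NH x r i j then
        sg (dt o (pt x (i : Fin n) - pt x r) (pt x j - pt x r)) else 0)
    refine Eq.trans (Eq.trans ?_ h2.symm) ?_
    · rfl
    · rw [Finset.sum_filter]
      refine Finset.sum_congr rfl fun j _ => ?_
      by_cases hj : j = r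
      · rw [if_neg (not_not.2 hj), if_neg]
        rintro ⟨-, -, h3, -⟩
        exact h3 hj.symm
      · rw [if_pos hj]
  rw [h1]
  by_cases hN : crs o (pt x (i : Fin n) - pt x r) = 0
  · have h3 : ∀ j : Fin n, dt o (pt x (i : Fin n) - pt x r) (pt x j - pt x r) = 0 := by
      intro j
      have e0 := congrFun hN 0
      have e1 := congrFun hN 1
      have e2 := congrFun hN 2
      simp only [crs, Matrix.cons_val_zero, Matrix.cons_val_one, Matrix.cons_val,
        Pi.zero_apply] at e0 e1 e2
      unfold dt
      linear_combination (pt x j - pt x r) 0 * e0 + (pt x j - pt x r) 1 * e1 +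
        (pt x j - pt x r) 2 * e2
    rw [Finset.sum_eq_zero]
    · norm_num
    · intro j _
      rw [h3, sg_zero, ite_self]
  · refine bal_aux h r o (-(crs o (pt x (i : Fin n) - pt x r))) i i.2 ?_
    have h4 : dt o (-(crs o (pt x (i : Fin n) - pt x r))) (pt x (i : Fin n) - pt x r) =
        (crs o (pt x (i : Fin n) - pt x r) 0) ^ 2 + (crs o (pt x (i : Fin n) - pt x r) 1) ^ 2 +
          (crs o (pt x (i : Fin n) - pt x r) 2) ^ 2 := by
      simp only [dt, crs, Pi.neg_apply, Matrix.cons_val_zero, Matrix.cons_val_one,
        Matrix.cons_val]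
      ring
    rw [h4]
    by_contra h5
    apply hN
    have s0 := sq_nonneg (crs o (pt x (i : Fin n) - pt x r) 0)
    have s1 := sq_nonneg (crs o (pt x (i : Fin n) - pt x r) 1)
    have s2 := sq_nonneg (crs o (pt x (i : Fin n) - pt x r) 2)
    have z0 : crs o (pt x (i : Fin n) - pt x r) 0 = 0 :=
      pow_eq_zero_iff two_ne_zero |>.1 (by linarith)
    have z1 : crs o (pt x (i : Fin n) - pt x r) 1 = 0 :=
      pow_eq_zero_iff two_ne_zero |>.1 (by linarith)
    have z2 : crs o (pt x (i : Fin n) - pt x r) 2 = 0 :=
      pow_eq_zero_iff two_ne_zero |>.1 (by linarith)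
    funext c
    fin_cases c
    · exact z0
    · exact z1
    · exact z2

theorem link_yr (h : GP x) (r : Fin n) : Link (yr x r) (Ar x r) := by
  refine ⟨?_, ?_, ?_, ?_⟩
  · intro i j hij
    exact NH.swap h hij
  · intro i hi
    exact hi.2.1 rfl
  · intro i j k hij hjk hik
    exact h r i j k (Ne.symm i.2) (Ne.symm j.2) (Ne.symm k.2)
      (fun e => hij (Subtype.ext e)) (fun e => hik (Subtype.ext e)) (fun e => hjk (Subtype.ext e))
  · intro o i
    exact bal_yr h r o i

end Pool.Agent.HP3
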