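import Mathlib

/-!
# Project HP3: halving planes and Tukey depth (MP_f6af21_co)

THEOREM (Main.lean). `X` a set of `n` points of `ℝ³` in general position, `n` even, `N` any subset
of `X`. Then the number of halving partitions is
`h(X) ≤ 32 n ∑_{p ∈ X \ N} depth(p) + 500 n² √|N|`, `depth(p)` the Tukey depth of `p` in `X`.
(`N = ∅`: `32 n ∑ depth`, for instance `O(n²)` for points in convex position; `N = X`:
`O(n^(5/2))`.)

PROOF. Near halving triples `NH` (the plane of the triple has `m` points on one side,
`n - 6 ≤ 2 m ≤ n`). Fix a point `r`; the other points are vectors `y i` (seen from `r`), the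
triples `r, i, j` are arcs `A i j` on the sphere of directions. ANTIPODALITY (`Bal`): for every
great circle through a vertex the numbers of arcs at this vertex on its two sides differ by at
most `4`. Hence (`Depth`) the number `cutN` of arcs which cross a great circle is at most
`4 n depth(r)`. The near halving triples are counted by their middle vertex in a fixed direction
(`Hlv`): their number is `∑_r cutN_r`. ISOPERIMETRIC INEQUALITY (`Iso`): the number of pairs of
crossing arcs at `r` is at least `c cutN_r² - C n³`. LOVASZ (`Lov`): a line meets at most `n²`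
triangles, so the sum over `r` of the numbers of crossing pairs is `O(n⁴)` (`ArcTri`), and
`∑_{r ∈ N} cutN_r ≤ C n² √|N|` by Cauchy-Schwarz.
-/

set_option autoImplicit false

namespace Pool.Agent.HP3

/-- vectors of `ℝ³` -/
abbrev V3 := Fin 3 → ℝ

/-- scalar product -/
def dot (a b : V3) : ℝ := a 0 * b 0 + a 1 * b 1 + a 2 * b 2

/-- determinant -/
def dt (a b c : V3) : ℝ :=
  a 0 * (b 1 * c 2 - b 2 * c 1) + a 1 * (b 2 * c 0 - b 0 * c 2) + a 2 * (b 0 * c 1 - b 1 * c 0)

/-- vector product -/
def crs (a b : V3) : V3 := ![a 1 * b 2 - a 2 * b 1, a 2 * b 0 - a 0 * b 2, a 0 * b 1 - a 1 * b 0]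

/-- sign -/
noncomputable def sg (t : ℝ) : ℤ := if 0 < t then 1 else if t < 0 then -1 else 0

/-- the arcs (cones) `a b` and `c d` cross -/
def Cr (a b c d : V3) : Prop :=
  ∃ s t u v : ℝ, 0 < s ∧ 0 < t ∧ 0 < u ∧ 0 < v ∧ s • a + t • b = u • c + v • d

/-- `v` is in the open cone over `p, q` -/
def InCone (p q v : V3) : Prop := ∃ s t : ℝ, 0 < s ∧ 0 < t ∧ v = s • p + t • q

/-- the open segment `p q` meets the open triangle `a b c` -/
def TriX (p q a b c : V3) : Prop :=
  ∃ s t u v w : ℝ, 0 < s ∧ 0 < t ∧ s + t = 1 ∧ 0 < u ∧ 0 < v ∧ 0 < w ∧ u + v + w = 1 ∧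
    s • p + t • q = u • a + v • b + w • c

open Classical in
/-- a balanced graph of arcs on the sphere -/
structure Link {ι : Type} [Fintype ι] (y : ι → V3) (A : ι → ι → Prop) : Prop where
  symm : ∀ i j, A i j → A j i
  irr : ∀ i, ¬ A i i
  gp : ∀ i j k, i ≠ j → j ≠ k → i ≠ k → dt (y i) (y j) (y k) ≠ 0
  bal : ∀ (o : V3) (i : ι), |∑ j, if A i j then sg (dt o (y i) (y j)) else 0| ≤ 4

section

variable {ι : Type} [Fintype ι] (y : ι → V3) (A : ι → ι → Prop)

open Classical in
/-- number of arcs which cross the great circle `N^⊥` -/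
noncomputable def cutN (N : V3) : ℕ :=
  (Finset.univ.filter fun p : ι × ι => A p.1 p.2 ∧ dot N (y p.1) < 0 ∧ 0 < dot N (y p.2)).card

open Classical in
/-- number of (ordered) arcs which cross the arc `p q` -/
noncomputable def segN (p q : V3) : ℕ :=
  (Finset.univ.filter fun r : ι × ι => A r.1 r.2 ∧ Cr p q (y r.1) (y r.2)).card

open Classical in
/-- number of (ordered) arcs disjoint from `b, c` which cross the arc `b c` -/
noncomputable def arcN (b c : ι) : ℕ :=
  (Finset.univ.filter fun r : ι × ι => A r.1 r.2 ∧ r.1 ≠ b ∧ r.1 ≠ c ∧ r.2 ≠ b ∧ r.2 ≠ c ∧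
    Cr (y b) (y c) (y r.1) (y r.2)).card

open Classical in
/-- number of (ordered) pairs of crossing (ordered) arcs -/
noncomputable def crN : ℕ :=
  ∑ q : ι × ι, if A q.1 q.2 then arcN y A q.1 q.2 else 0

end

section

variable {n : ℕ} (x : Fin n × Fin 3 → ℝ)

/-- the point `i` -/
def pt (i : Fin n) : V3 := fun c => x (i, c)

/-- orientation of four points -/
def ori (i j k l : Fin n) : ℝ := dt (pt x j - pt x i) (pt x k - pt x i) (pt x l - pt x i)

open Classical in
/-- number of points on one side of the plane through `i, j, k` -/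
noncomputable def nab (i j k : Fin n) : ℕ := (Finset.univ.filter fun l => 0 < ori x i j k l).card

/-- near halving triples -/
def NH (i j k : Fin n) : Prop :=
  i ≠ j ∧ j ≠ k ∧ i ≠ k ∧ n ≤ 2 * nab x i j k + 6 ∧ 2 * nab x i j k ≤ n

/-- no four points in a plane -/
def GP : Prop := ∀ i j k l : Fin n, i ≠ j → i ≠ k → i ≠ l → j ≠ k → j ≠ l → k ≠ l →
  ori x i j k l ≠ 0

/-- the vectors seen from `r` -/
def yr (r : Fin n) (j : {j : Fin n // j ≠ r}) : V3 := pt x j - pt x r

/-- the arcs seen from `r` -/
def Ar (r : Fin n) (j k : {j : Fin n // j ≠ r}) : Prop := NH x r j k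

open Classical in
/-- Tukey depth of the point `r`: the least number of points (`r` included) in a closed half
space which contains `r` -/
noncomputable def depth (r : Fin n) : ℕ :=
  sInf {k | ∃ u : V3, u ≠ 0 ∧
    k = (Finset.univ.filter fun j => dot u (pt x r) ≤ dot u (pt x j)).card}

end

end Pool.Agent.HP3
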