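import Pool.Agent.HP3.Bal

/-!
# Few arcs cross a great circle at a point of small depth (module Depth)

PROOF of `cut_le`. `a i = dot ν (y i) ≠ 0`, `b i = dot ν' (y i)`, `S = {i : a i * b i < 0}`. With
`o = crs ν ν'` one has `dt o (y i) (y j) = a i * b j - b i * a j` (ring). For `i ∈ S`, `j ∉ S` its
sign is `sg (a i) * sg (a j)`. Sum `Link.bal o i` over `i ∈ S`: the pairs inside `S` cancel, so
`|∑_{i ∈ S, j ∉ S, A i j} sg (a i) sg (a j)| ≤ 4 card S`. Let `σ i = sg (a i)` and
`σ' i = -σ i` on `S`, `σ' = σ` off `S`. The number of (unordered) arcs with `σ i σ j = -1` minus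
the number with `σ' i σ' j = -1` is `-∑_{i ∈ S, j ∉ S, A i j} σ i σ j ≤ 4 card ι`. An arc with
`σ' i σ' j = -1` has exactly one end `j` with `σ' j = 1`, and then `0 ≤ b j`; so there are at most
`card ι * #{j : 0 ≤ b j}` of them. (`cutN` counts every arc once, the first vertex is the negative
one.)
`cut_depth`: the infimum in `depth` is attained (`Nat.sInf_mem`) by some `u`; use `ν' = u` in the
link of `r` (`link_yr`): `#{j ≠ r : 0 ≤ dot u (y j)} = depth - 1`, `card ι = n - 1`, `depth ≥ 1`.
-/

set_option autoImplicit false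

namespace Pool.Agent.HP3

private lemma dt_crs (ν ν' u v : V3) :
    dt (crs ν ν') u v = dot ν u * dot ν' v - dot ν' u * dot ν v := by
  simp only [dt, crs, dot, Matrix.cons_val_zero, Matrix.cons_val_one, Matrix.cons_val]
  ring

open Classical in
private lemma sum_swap {ι : Type} [Fintype ι] {A : ι → ι → Prop} (hA : ∀ i j, A i j → A j i)
    (f : ι → ι → ℤ) :
    (∑ p : ι × ι, if A p.1 p.2 then f p.2 p.1 else 0) = ∑ p : ι × ι, if A p.1 p.2 then f p.1 p.2 else 0 := by
  rw [← (Equiv.prodComm ι ι).sum_comp]
  refine Finset.sum_congr rfl fun r _ => ?_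
  have : A r.2 r.1 ↔ A r.1 r.2 := ⟨hA _ _, hA _ _⟩
  simp only [Equiv.prodComm_apply, Prod.fst_swap, Prod.snd_swap, this]

open Classical in
private lemma count_four {ι : Type} [Fintype ι] {A : ι → ι → Prop} (hA : ∀ i j, A i j → A j i)
    {s : ι → ℤ} (hs : ∀ i, s i = 1 ∨ s i = -1) :
    4 * ((Finset.univ.filter fun p : ι × ι => A p.1 p.2 ∧ s p.1 = -1 ∧ s p.2 = 1).card : ℤ) =
      ∑ p : ι × ι, if A p.1 p.2 then 1 - s p.1 * s p.2 else 0 := by
  have e1 : ((Finset.univ.filter fun p : ι × ι => A p.1 p.2 ∧ s p.1 = -1 ∧ s p.2 = 1).card : ℤ) =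
      ∑ p : ι × ι, if A p.1 p.2 then (if s p.1 = -1 ∧ s p.2 = 1 then (1 : ℤ) else 0) else 0 := by
    rw [Finset.card_filter, Nat.cast_sum]
    refine Finset.sum_congr rfl fun p _ => ?_
    by_cases h1 : A p.1 p.2 <;> by_cases h2 : s p.1 = -1 ∧ s p.2 = 1 <;> simp [h1, h2]
  have e2 := sum_swap hA (fun i j => if s i = -1 ∧ s j = 1 then (1 : ℤ) else 0)
  have e3 : (∑ p : ι × ι, if A p.1 p.2 then 1 - s p.1 * s p.2 else 0) =
      2 * (∑ p : ι × ι, if A p.1 p.2 then (if s p.1 = -1 ∧ s p.2 = 1 then (1 : ℤ) else 0) else 0) +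
      2 * (∑ p : ι × ι, if A p.1 p.2 then (if s p.2 = -1 ∧ s p.1 = 1 then (1 : ℤ) else 0) else 0) := by
    rw [Finset.mul_sum, Finset.mul_sum, ← Finset.sum_add_distrib]
    refine Finset.sum_congr rfl fun p _ => ?_
    by_cases h1 : A p.1 p.2
    · rcases hs p.1 with h2 | h2 <;> rcases hs p.2 with h3 | h3 <;> simp [h1, h2, h3]
    · simp [h1]
  rw [e3, e2, e1]
  ring

open Classical in
theorem cut_le {ι : Type} [Fintype ι] {y : ι → V3} {A : ι → ι → Prop} (h : Link y A) {ν ν' : V3}
    (hν : ∀ i, dot ν (y i) ≠ 0) :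
    cutN y A ν ≤ 4 * Fintype.card ι +
      Fintype.card ι * (Finset.univ.filter fun i => 0 ≤ dot ν' (y i)).card := by
  set S : ι → Prop := fun i => dot ν (y i) * dot ν' (y i) < 0 with hS
  set s : ι → ℤ := fun i => sg (dot ν (y i)) with hsdef
  set s' : ι → ℤ := fun i => if S i then -s i else s i with hs'def
  have hs : ∀ i, s i = 1 ∨ s i = -1 := by
    intro i
    rcases lt_or_gt_of_ne (hν i) with h1 | h1
    · exact Or.inr (sg_neg h1)
    · exact Or.inl (sg_pos h1)
  have hs' : ∀ i, s' i = 1 ∨ s' i = -1 := by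
    intro i
    simp only [hs'def]
    by_cases h1 : S i
    · rw [if_pos h1]
      rcases hs i with h2 | h2 <;> rw [h2]
      · exact Or.inr rfl
      · exact Or.inl (by norm_num)
    · rw [if_neg h1]
      exact hs i
  have hcut : cutN y A ν =
      (Finset.univ.filter fun p : ι × ι => A p.1 p.2 ∧ s p.1 = -1 ∧ s p.2 = 1).card := by
    unfold cutN
    refine congrArg Finset.card (Finset.ext fun p => ?_)
    rw [Finset.mem_filter, Finset.mem_filter]
    refine and_congr_right fun _ => and_congr_right fun _ => ?_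
    simp only [hsdef]
    constructor
    · rintro ⟨h1, h2⟩
      exact ⟨sg_neg h1, sg_pos h2⟩
    · rintro ⟨h1, h2⟩
      constructor
      · rcases lt_or_gt_of_ne (hν p.1) with h3 | h3
        · exact h3
        · rw [sg_pos h3] at h1
          norm_num at h1
      · rcases lt_or_gt_of_ne (hν p.2) with h3 | h3
        · rw [sg_neg h3] at h2
          norm_num at h2
        · exact h3
  set N' : ℕ := (Finset.univ.filter fun p : ι × ι => A p.1 p.2 ∧ s' p.1 = -1 ∧ s' p.2 = 1).card
    with hN'
  have hN'le : N' ≤ Fintype.card ι * (Finset.univ.filter fun i => 0 ≤ dot ν' (y i)).card := by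
    rw [hN', ← Finset.card_univ, ← Finset.card_product]
    refine Finset.card_le_card fun p hp => ?_
    rw [Finset.mem_filter] at hp
    obtain ⟨-, -, -, hp2⟩ := hp
    rw [Finset.mem_product, Finset.mem_filter]
    refine ⟨Finset.mem_univ _, Finset.mem_univ _, ?_⟩
    simp only [hs'def] at hp2
    by_contra hb
    push Not at hb
    rcases lt_or_gt_of_ne (hν p.2) with h3 | h3
    · have h4 : ¬ S p.2 := by
        simp only [hS]
        exact not_lt.mpr (mul_nonneg_of_nonpos_of_nonpos h3.le hb.le)
      rw [if_neg h4] at hp2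
      simp only [hsdef] at hp2
      rw [sg_neg h3] at hp2
      norm_num at hp2
    · have h4 : S p.2 := by
        simp only [hS]
        exact mul_neg_of_pos_of_neg h3 hb
      rw [if_pos h4] at hp2
      simp only [hsdef] at hp2
      rw [sg_pos h3] at hp2
      norm_num at hp2
  -- the mixed sum
  set X : ℤ := ∑ p : ι × ι, if A p.1 p.2 then (if S p.1 ∧ ¬ S p.2 then s p.1 * s p.2 else 0) else 0
    with hX
  have e1 := count_four h.symm hs
  have e2 := count_four h.symm hs'
  rw [← hcut] at e1
  rw [← hN'] at e2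
  have e3 : (∑ p : ι × ι, if A p.1 p.2 then 1 - s p.1 * s p.2 else 0) -
      (∑ p : ι × ι, if A p.1 p.2 then 1 - s' p.1 * s' p.2 else 0) = -4 * X := by
    have e4 := sum_swap h.symm (fun i j => if S i ∧ ¬ S j then s i * s j else 0)
    have e5 : (∑ p : ι × ι, if A p.1 p.2 then 1 - s p.1 * s p.2 else 0) -
        (∑ p : ι × ι, if A p.1 p.2 then 1 - s' p.1 * s' p.2 else 0) =
        -2 * (∑ p : ι × ι, if A p.1 p.2 then
          (if S p.1 ∧ ¬ S p.2 then s p.1 * s p.2 else 0) else 0) +
        -2 * (∑ p : ι × ι, if A p.1 p.2 then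
          (if S p.2 ∧ ¬ S p.1 then s p.2 * s p.1 else 0) else 0) := by
      rw [Finset.mul_sum, Finset.mul_sum, ← Finset.sum_add_distrib, ← Finset.sum_sub_distrib]
      refine Finset.sum_congr rfl fun p _ => ?_
      simp only [hs'def]
      by_cases h1 : A p.1 p.2
      · by_cases h2 : S p.1 <;> by_cases h3 : S p.2 <;> simp [h1, h2, h3] <;> ring
      · simp [h1]
    rw [e5, e4, hX]
    ring
  have hXeq : X = ∑ i : ι, if S i then
      (∑ j : ι, if A i j then sg (dt (crs ν ν') (y i) (y j)) else 0) else 0 := by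
    have f1 : (∑ i : ι, if S i then
        (∑ j : ι, if A i j then sg (dt (crs ν ν') (y i) (y j)) else 0) else 0) =
        ∑ p : ι × ι, if A p.1 p.2 then
          (if S p.1 then sg (dt (crs ν ν') (y p.1) (y p.2)) else 0) else 0 := by
      rw [Fintype.sum_prod_type]
      refine Finset.sum_congr rfl fun i _ => ?_
      by_cases h1 : S i <;> simp [h1]
    have f2 : (∑ p : ι × ι, if A p.1 p.2 then
          (if S p.1 ∧ S p.2 then sg (dt (crs ν ν') (y p.1) (y p.2)) else 0) else 0) = 0 := by
      have f3 := sum_swap h.symm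
        (fun i j => if S i ∧ S j then sg (dt (crs ν ν') (y i) (y j)) else 0)
      have f4 : (∑ p : ι × ι, if A p.1 p.2 then
          (if S p.2 ∧ S p.1 then sg (dt (crs ν ν') (y p.2) (y p.1)) else 0) else 0) =
          -∑ p : ι × ι, if A p.1 p.2 then
          (if S p.1 ∧ S p.2 then sg (dt (crs ν ν') (y p.1) (y p.2)) else 0) else 0 := by
        rw [← Finset.sum_neg_distrib]
        refine Finset.sum_congr rfl fun p _ => ?_
        rw [dt_swap23, sg_neg_eq]
        by_cases h1 : A p.1 p.2 <;> by_cases h2 : S p.1 <;> by_cases h3 : S p.2 <;> simp [h1, h2, h3]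
      linarith
    have f6 : ∀ p : ι × ι, (if A p.1 p.2 then (if S p.1 ∧ ¬ S p.2 then s p.1 * s p.2 else 0) else 0) +
        (if A p.1 p.2 then (if S p.1 ∧ S p.2 then sg (dt (crs ν ν') (y p.1) (y p.2)) else 0) else 0) =
        if A p.1 p.2 then (if S p.1 then sg (dt (crs ν ν') (y p.1) (y p.2)) else 0) else 0 := by
      intro p
      by_cases h1 : A p.1 p.2
      · by_cases h2 : S p.1
        · by_cases h3 : S p.2
          · simp [h1, h2, h3]
          · have key : sg (dt (crs ν ν') (y p.1) (y p.2)) = s p.1 * s p.2 := by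
              rw [dt_crs]
              simp only [hsdef]
              have hi : dot ν (y p.1) * dot ν' (y p.1) < 0 := h2
              have hj : 0 ≤ dot ν (y p.2) * dot ν' (y p.2) := not_lt.mp h3
              rcases lt_or_gt_of_ne (hν p.1) with a1 | a1 <;> rcases lt_or_gt_of_ne (hν p.2) with a2 | a2
              · have b1 : 0 < dot ν' (y p.1) := by
                  by_contra hc
                  push Not at hc
                  exact absurd hi (not_lt.mpr (mul_nonneg_of_nonpos_of_nonpos a1.le hc))
                have b2 : dot ν' (y p.2) ≤ 0 := by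
                  by_contra hc
                  push Not at hc
                  exact absurd hj (not_le.mpr (mul_neg_of_neg_of_pos a2 hc))
                rw [sg_neg a1, sg_neg a2, sg_pos]
                · norm_num
                · nlinarith [mul_nonneg_of_nonpos_of_nonpos a1.le b2, mul_pos b1 (neg_pos.mpr a2)]
              · have b1 : 0 < dot ν' (y p.1) := by
                  by_contra hc
                  push Not at hc
                  exact absurd hi (not_lt.mpr (mul_nonneg_of_nonpos_of_nonpos a1.le hc))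
                have b2 : 0 ≤ dot ν' (y p.2) := by
                  by_contra hc
                  push Not at hc
                  exact absurd hj (not_le.mpr (mul_neg_of_pos_of_neg a2 hc))
                rw [sg_neg a1, sg_pos a2, sg_neg]
                · norm_num
                · nlinarith [mul_nonneg (neg_pos.mpr a1).le b2, mul_pos b1 a2]
              · have b1 : dot ν' (y p.1) < 0 := by
                  by_contra hc
                  push Not at hc
                  exact absurd hi (not_lt.mpr (mul_nonneg a1.le hc))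
                have b2 : dot ν' (y p.2) ≤ 0 := by
                  by_contra hc
                  push Not at hc
                  exact absurd hj (not_le.mpr (mul_neg_of_neg_of_pos a2 hc))
                rw [sg_pos a1, sg_neg a2, sg_neg]
                · norm_num
                · nlinarith [mul_nonneg a1.le (neg_nonneg.mpr b2), mul_pos (neg_pos.mpr b1) (neg_pos.mpr a2)]
              · have b1 : dot ν' (y p.1) < 0 := by
                  by_contra hc
                  push Not at hc
                  exact absurd hi (not_lt.mpr (mul_nonneg a1.le hc))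
                have b2 : 0 ≤ dot ν' (y p.2) := by
                  by_contra hc
                  push Not at hc
                  exact absurd hj (not_le.mpr (mul_neg_of_pos_of_neg a2 hc))
                rw [sg_pos a1, sg_pos a2, sg_pos]
                · norm_num
                · nlinarith [mul_nonneg a1.le b2, mul_pos (neg_pos.mpr b1) a2]
            simp [h1, h2, h3, key]
        · simp [h1, h2]
      · simp [h1]
    rw [f1]
    have f5 : X + (∑ p : ι × ι, if A p.1 p.2 then
          (if S p.1 ∧ S p.2 then sg (dt (crs ν ν') (y p.1) (y p.2)) else 0) else 0) =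
        ∑ p : ι × ι, if A p.1 p.2 then
          (if S p.1 then sg (dt (crs ν ν') (y p.1) (y p.2)) else 0) else 0 := by
      rw [hX, ← Finset.sum_add_distrib]
      exact Finset.sum_congr rfl fun p _ => f6 p
    linarith
  have hXabs : |X| ≤ 4 * Fintype.card ι := by
    rw [hXeq]
    refine (Finset.abs_sum_le_sum_abs _ _).trans ?_
    calc (∑ i : ι, |if S i then
          (∑ j : ι, if A i j then sg (dt (crs ν ν') (y i) (y j)) else 0) else 0|)
        ≤ ∑ i : ι, (4 : ℤ) := by
          refine Finset.sum_le_sum fun i _ => ?_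
          by_cases h1 : S i
          · rw [if_pos h1]
            exact h.bal _ i
          · rw [if_neg h1]
            norm_num
      _ = 4 * Fintype.card ι := by
          rw [Finset.sum_const, Finset.card_univ, nsmul_eq_mul, mul_comm]
  have hfin : (cutN y A ν : ℤ) ≤ 4 * Fintype.card ι + N' := by
    have := neg_le_of_abs_le hXabs
    linarith
  have hfin' : cutN y A ν ≤ 4 * Fintype.card ι + N' := by exact_mod_cast hfin
  exact hfin'.trans (Nat.add_le_add_left hN'le _)

variable {n : ℕ} {x : Fin n × Fin 3 → ℝ}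

open Classical in
private lemma depth_mem (r : Fin n) : ∃ u : V3, u ≠ 0 ∧
    depth x r = (Finset.univ.filter fun j => dot u (pt x r) ≤ dot u (pt x j)).card := by
  have hne : {k | ∃ u : V3, u ≠ 0 ∧
      k = (Finset.univ.filter fun j => dot u (pt x r) ≤ dot u (pt x j)).card}.Nonempty := by
    refine ⟨_, fun _ => 1, ?_, rfl⟩
    intro h
    have := congrFun h 0
    simp at this
  exact Nat.sInf_mem hne

theorem one_le_depth (r : Fin n) : 1 ≤ depth x r := by
  classical
  obtain ⟨u, -, hu⟩ := depth_mem (x := x) r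
  rw [hu, Nat.one_le_iff_ne_zero, Finset.card_ne_zero]
  exact ⟨r, Finset.mem_filter.mpr ⟨Finset.mem_univ _, le_refl _⟩⟩

theorem cut_depth (h : GP x) (r : Fin n) {ν : V3}
    (hν : ∀ i j : Fin n, i ≠ j → dot ν (pt x i) ≠ dot ν (pt x j)) :
    cutN (yr x r) (Ar x r) ν ≤ 4 * n * depth x r := by
  classical
  obtain ⟨u, -, hu⟩ := depth_mem (x := x) r
  have hdot : ∀ (w : V3) (a b : V3), dot w (a - b) = dot w a - dot w b := by
    intro w a b
    simp only [dot, Pi.sub_apply]
    ring
  have hν' : ∀ i : {j : Fin n // j ≠ r}, dot ν (yr x r i) ≠ 0 := by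
    intro i
    rw [yr, hdot, sub_ne_zero]
    exact hν i r i.2
  have h1 := cut_le (link_yr h r) (ν' := u) hν'
  have h2 : Fintype.card {j : Fin n // j ≠ r} ≤ n := by
    have := Fintype.card_subtype_le (fun j : Fin n => j ≠ r)
    rwa [Fintype.card_fin] at this
  have h3 : (Finset.univ.filter fun i : {j : Fin n // j ≠ r} => 0 ≤ dot u (yr x r i)).card + 1 ≤
      depth x r := by
    rw [hu, ← Finset.card_map (Function.Embedding.subtype fun j : Fin n => j ≠ r)]
    have hr : r ∈ Finset.univ.filter fun j => dot u (pt x r) ≤ dot u (pt x j) :=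
      Finset.mem_filter.mpr ⟨Finset.mem_univ _, le_refl _⟩
    rw [← Finset.card_erase_add_one hr]
    refine Nat.add_le_add_right (Finset.card_le_card ?_) 1
    intro j hj
    rw [Finset.mem_map] at hj
    obtain ⟨i, hi, rfl⟩ := hj
    rw [Finset.mem_filter, yr, hdot, sub_nonneg] at hi
    rw [Finset.mem_erase, Finset.mem_filter]
    exact ⟨i.2, Finset.mem_univ _, hi.2⟩
  have h4 := one_le_depth (x := x) r
  calc cutN (yr x r) (Ar x r) ν
      ≤ 4 * Fintype.card {j : Fin n // j ≠ r} + Fintype.card {j : Fin n // j ≠ r} *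
        (Finset.univ.filter fun i : {j : Fin n // j ≠ r} => 0 ≤ dot u (yr x r i)).card := h1
    _ = Fintype.card {j : Fin n // j ≠ r} *
        (4 + (Finset.univ.filter fun i : {j : Fin n // j ≠ r} => 0 ≤ dot u (yr x r i)).card) := by
        ring
    _ ≤ n * (4 * depth x r) := Nat.mul_le_mul h2 (by omega)
    _ = 4 * n * depth x r := by ring

end Pool.Agent.HP3
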