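import Pool.Agent.HP3.Sym

/-!
# The flux inequality (module Flux)

PROOF. Sum `Link.bal` for the vector `o` over the vertices of `U`:
`∑_{c ∈ U} ∑_{b : A c b} sg (dt o (y c) (y b)) ≤ 4 card U`. The pairs with `b, c ∈ U` cancel
(antisymmetry of `dt o (y c) (y b)`, symmetry of `A`). The other `b` are below (`dt x o (y b) < 0`)
or above (`dt x o (y b) > 0`) and not in `U`. The terms with `b` below give
`#(dt o (y c) (y b) > 0) - #(... < 0)`, the others at least `-1`.
-/

set_option autoImplicit false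

namespace Pool.Agent.HP3

variable {ι : Type} [Fintype ι] {y : ι → V3} {A : ι → ι → Prop}

private theorem flux_sg_neg (t : ℝ) : sg (-t) = -sg t := by
  unfold sg
  rcases lt_trichotomy t 0 with h | h | h
  · rw [if_pos (by linarith : 0 < -t), if_neg (by linarith : ¬ 0 < t), if_pos h]
    norm_num
  · subst h
    norm_num
  · rw [if_neg (by linarith : ¬ 0 < -t), if_pos (by linarith : -t < 0), if_pos h]

private theorem flux_dt (o a b : V3) : dt o a b = -dt o b a := by
  unfold dt
  ring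

private theorem flux_sg_ge (t : ℝ) : -1 ≤ sg t := by
  unfold sg
  split_ifs <;> norm_num

private theorem flux_sg_nonneg {t : ℝ} (h : ¬ t < 0) : 0 ≤ sg t := by
  unfold sg
  split_ifs <;> norm_num

private theorem flux_card {κ : Type} [Fintype κ] (p : κ → Prop) [DecidablePred p] :
    ((Finset.univ.filter p).card : ℤ) = ∑ r : κ, if p r then (1 : ℤ) else 0 := by
  rw [Finset.card_filter]
  push_cast
  rfl

open Classical in
theorem flux (h : Link y A) {x o : V3} (ho : ∀ i j, i ≠ j → dt o (y i) (y j) ≠ 0)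
    (hxo : ∀ i, dt x o (y i) ≠ 0) (U : Finset ι) (hU : ∀ i ∈ U, 0 < dt x o (y i)) :
    (Finset.univ.filter fun r : ι × ι => A r.1 r.2 ∧ r.2 ∈ U ∧ dt x o (y r.1) < 0 ∧
        0 < dt o (y r.2) (y r.1)).card ≤
      (Finset.univ.filter fun r : ι × ι => A r.1 r.2 ∧ r.2 ∈ U ∧ dt x o (y r.1) < 0 ∧
        dt o (y r.2) (y r.1) < 0).card +
      (Finset.univ.filter fun r : ι × ι => A r.1 r.2 ∧ r.2 ∈ U ∧ r.1 ∉ U ∧
        0 < dt x o (y r.1)).card + 4 * Fintype.card ι := by
  let T : ι × ι → ℤ := fun r => if A r.1 r.2 ∧ r.2 ∈ U then sg (dt o (y r.2) (y r.1)) else 0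
  let W : ι × ι → ℤ := fun r =>
    if A r.1 r.2 ∧ r.2 ∈ U ∧ r.1 ∈ U then sg (dt o (y r.2) (y r.1)) else 0
  have hT : ∑ r, T r ≤ 4 * (Fintype.card ι : ℤ) := by
    rw [Fintype.sum_prod_type, Finset.sum_comm]
    have h1 : ∀ i ∈ (Finset.univ : Finset ι), ∑ j, T (j, i) ≤ 4 := by
      intro i _
      by_cases hi : i ∈ U
      · have e : ∀ j, T (j, i) = if A i j then sg (dt o (y i) (y j)) else 0 := by
          intro j
          simp only [T]
          by_cases hA : A i j
          · rw [if_pos ⟨h.symm _ _ hA, hi⟩, if_pos hA]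
          · rw [if_neg (fun hh => hA (h.symm _ _ hh.1)), if_neg hA]
        rw [Finset.sum_congr rfl fun j _ => e j]
        exact (abs_le.1 (h.bal o i)).2
      · have e : ∀ j, T (j, i) = 0 := by
          intro j
          simp only [T]
          rw [if_neg (fun hh => hi hh.2)]
        rw [Finset.sum_congr rfl fun j _ => e j, Finset.sum_const_zero]
        norm_num
    refine (Finset.sum_le_sum h1).trans (le_of_eq ?_)
    rw [Finset.sum_const, Finset.card_univ, nsmul_eq_mul]
    ring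
  have hW : ∑ r, W r = 0 := by
    have h1 : ∑ r, W (Equiv.prodComm ι ι r) = ∑ r, W r := Equiv.sum_comp (Equiv.prodComm ι ι) W
    have h2 : ∀ r, W (Equiv.prodComm ι ι r) = -W r := by
      rintro ⟨i, j⟩
      simp only [W, Equiv.prodComm_apply, Prod.swap_prod_mk]
      by_cases hc : A i j ∧ j ∈ U ∧ i ∈ U
      · rw [if_pos ⟨h.symm _ _ hc.1, hc.2.2, hc.2.1⟩, if_pos hc, flux_dt, flux_sg_neg]
      · rw [if_neg (fun hh => hc ⟨h.symm _ _ hh.1, hh.2.2, hh.2.1⟩), if_neg hc, neg_zero]
    rw [Finset.sum_congr rfl fun r _ => h2 r, Finset.sum_neg_distrib] at h1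
    omega
  have hpt : ∀ r : ι × ι,
      (if A r.1 r.2 ∧ r.2 ∈ U ∧ dt x o (y r.1) < 0 ∧ 0 < dt o (y r.2) (y r.1) then (1 : ℤ) else 0) ≤
      (if A r.1 r.2 ∧ r.2 ∈ U ∧ dt x o (y r.1) < 0 ∧ dt o (y r.2) (y r.1) < 0 then (1 : ℤ) else 0) +
      (if A r.1 r.2 ∧ r.2 ∈ U ∧ r.1 ∉ U ∧ 0 < dt x o (y r.1) then (1 : ℤ) else 0) +
      (T r - W r) := by
    rintro ⟨b, c⟩
    simp only [T, W]
    by_cases hA : A b c
    swap
    · rw [if_neg (fun hh => hA hh.1), if_neg (fun hh => hA hh.1), if_neg (fun hh => hA hh.1),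
        if_neg (fun hh => hA hh.1), if_neg (fun hh => hA hh.1)]
      norm_num
    by_cases hc : c ∈ U
    swap
    · rw [if_neg (fun hh => hc hh.2.1), if_neg (fun hh => hc hh.2.1), if_neg (fun hh => hc hh.2.1),
        if_neg (fun hh => hc hh.2), if_neg (fun hh => hc hh.2.1)]
      norm_num
    rw [if_pos (⟨hA, hc⟩ : A b c ∧ c ∈ U)]
    by_cases hb : b ∈ U
    · have h1 := hU b hb
      rw [if_neg (fun hh => absurd hh.2.2.1 (by linarith)),
        if_neg (fun hh => absurd hh.2.2.1 (by linarith)), if_neg (fun hh => hh.2.2.1 hb),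
        if_pos ⟨hA, hc, hb⟩]
      norm_num
    · rw [if_neg (fun hh : A b c ∧ c ∈ U ∧ b ∈ U => hb hh.2.2), sub_zero]
      rcases lt_or_gt_of_ne (hxo b) with h1 | h1
      · rw [if_neg (fun hh : A b c ∧ c ∈ U ∧ b ∉ U ∧ 0 < dt x o (y b) =>
          absurd hh.2.2.2 (by linarith)), add_zero]
        by_cases h2 : dt o (y c) (y b) < 0
        · rw [if_neg (fun hh => absurd hh.2.2.2 (by linarith)), if_pos ⟨hA, hc, h1, h2⟩]
          have := flux_sg_ge (dt o (y c) (y b))
          linarith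
        · rw [if_neg (fun hh : A b c ∧ c ∈ U ∧ dt x o (y b) < 0 ∧ dt o (y c) (y b) < 0 =>
            h2 hh.2.2.2), zero_add]
          by_cases h3 : 0 < dt o (y c) (y b)
          · rw [if_pos ⟨hA, hc, h1, h3⟩]
            unfold sg
            rw [if_pos h3]
          · rw [if_neg (fun hh => h3 hh.2.2.2)]
            exact flux_sg_nonneg h2
      · rw [if_neg (fun hh => absurd hh.2.2.1 (by linarith)),
          if_neg (fun hh => absurd hh.2.2.1 (by linarith)), if_pos ⟨hA, hc, hb, h1⟩]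
        have := flux_sg_ge (dt o (y c) (y b))
        linarith
  have hsum := Finset.sum_le_sum fun r (_ : r ∈ (Finset.univ : Finset (ι × ι))) => hpt r
  rw [Finset.sum_add_distrib, Finset.sum_add_distrib, Finset.sum_sub_distrib, hW] at hsum
  zify
  rw [flux_card, flux_card, flux_card]
  linarith

end Pool.Agent.HP3
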