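import Pool.Agent.HP3.Sym

/-!
# Arcs which cross the great circle of `x` and `o` (module Gam)

`zz x o b c`: the point in which the arc `b c` (`b` below, `c` above) crosses the plane of `x, o`.
PROOFS. `zz_eq`: ring in coordinates. `cr_gam`: a vector `u b + v c` (`u, v > 0`) is in the plane
of `x, o` iff it is a positive multiple `κ zz = κ (S x + T o)`, `S = dt o c b`, `T = dt x b c`
(apply `dt x o`); it is `α x + β (s x + t o)` iff `β t = κ T`, `α + β s = κ S` (`x, o` are
independent because `dt x o b ≠ 0`). `not_cr_gam`: apply `dt x o` to the equation.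
`segN_gam`: the ordered arcs `(i, j)` with `i` below and `j` above, and those with `j` below and
`i` above, are equally many (`Cr` is symmetric in the last two arguments).
-/

set_option autoImplicit false

namespace Pool.Agent.HP3

/-- crossing point of the arc `b c` with the plane of `x, o` -/
def zz (x o b c : V3) : V3 := dt x o c • b - dt x o b • c

theorem zz_eq (x o b c : V3) : zz x o b c = dt o c b • x + dt x b c • o := by
  ext i
  simp only [zz, dt, Pi.add_apply, Pi.sub_apply, Pi.smul_apply, smul_eq_mul]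
  fin_cases i
  · simp only [Fin.zero_eta]
    ring
  · simp only [Fin.mk_one]
    ring
  · simp only [Fin.reduceFinMk]
    ring

theorem Cr.swap {a b c d : V3} (h : Cr a b c d) : Cr a b d c := by
  obtain ⟨s, t, u, v, hs, ht, hu, hv, e⟩ := h
  exact ⟨s, t, v, u, hs, ht, hv, hu, by rw [e, add_comm]⟩

theorem Cr.swap' {a b c d : V3} (h : Cr a b c d) : Cr b a c d := by
  obtain ⟨s, t, u, v, hs, ht, hu, hv, e⟩ := h
  exact ⟨t, s, u, v, ht, hs, hu, hv, by rw [← e, add_comm]⟩

theorem Cr.comm {a b c d : V3} (h : Cr a b c d) : Cr c d a b := by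
  obtain ⟨s, t, u, v, hs, ht, hu, hv, e⟩ := h
  exact ⟨u, v, s, t, hu, hv, hs, ht, e.symm⟩

private theorem gam_e1 {x o b c : V3} {s t α β u v : ℝ}
    (h : α • x + β • (s • x + t • o) = u • b + v • c) : u * dt x o b + v * dt x o c = 0 := by
  have h1 := congrArg (dt x o) h
  simp only [dt, Pi.add_apply, Pi.smul_apply, smul_eq_mul] at h1 ⊢
  linear_combination -h1

theorem cr_gam {x o b c : V3} (hb : dt x o b < 0) (hc : 0 < dt x o c) {s t : ℝ} (ht : t ≠ 0) :
    Cr x (s • x + t • o) b c ↔
      0 < t * dt x b c ∧ s * t * dt x b c < t ^ 2 * dt o c b := by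
  have ht2 : 0 < t ^ 2 := by positivity
  constructor
  · rintro ⟨α, β, u, v, hα, hβ, hu, hv, h⟩
    have e2 : (α + β * s) * dt x o b = -(v * dt o c b) := by
      have h1 := congrArg (fun w => dt w o b) h
      simp only [dt, Pi.add_apply, Pi.smul_apply, smul_eq_mul] at h1 ⊢
      linear_combination h1
    have e3 : β * t * dt x o b = -(v * dt x b c) := by
      have h1 := congrArg (fun w => dt x w b) h
      simp only [dt, Pi.add_apply, Pi.smul_apply, smul_eq_mul] at h1 ⊢
      linear_combination h1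
    have hp : 0 < -dt x o b := neg_pos.2 hb
    constructor
    · have h2 : v * (t * dt x b c) = β * t ^ 2 * -dt x o b := by linear_combination t * e3
      have h3 : 0 < v * (t * dt x b c) := by
        rw [h2]
        positivity
      exact (mul_pos_iff_of_pos_left hv).1 h3
    · have h2 : v * (t ^ 2 * dt o c b - s * t * dt x b c) = t ^ 2 * α * -dt x o b := by
        linear_combination t ^ 2 * e2 - s * t * e3
      have h3 : 0 < v * (t ^ 2 * dt o c b - s * t * dt x b c) := by
        rw [h2]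
        positivity
      exact sub_pos.1 ((mul_pos_iff_of_pos_left hv).1 h3)
  · rintro ⟨h1, h2⟩
    refine ⟨dt o c b - s * (dt x b c / t), dt x b c / t, dt x o c, -dt x o b, ?_, ?_, hc,
      neg_pos.2 hb, ?_⟩
    · have e : dt o c b - s * (dt x b c / t) = (t ^ 2 * dt o c b - s * t * dt x b c) / t ^ 2 := by
        field_simp
      rw [e]
      exact div_pos (sub_pos.2 h2) ht2
    · have e : dt x b c / t = (t * dt x b c) / t ^ 2 := by
        field_simp
      rw [e]
      exact div_pos h1 ht2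
    · have hz := zz_eq x o b c
      ext i
      have hi := congrFun hz i
      simp only [zz, Pi.add_apply, Pi.sub_apply, Pi.smul_apply, smul_eq_mul] at hi ⊢
      have e : (dt x b c / t) * t = dt x b c := div_mul_cancel₀ _ ht
      linear_combination -hi + o i * e

theorem not_cr_gam {x o b c : V3} (h : 0 < dt x o b * dt x o c) (s t : ℝ) :
    ¬Cr x (s • x + t • o) b c := by
  rintro ⟨α, β, u, v, -, -, hu, hv, e⟩
  have h1 := gam_e1 e
  rcases mul_pos_iff.1 h with ⟨hb, hc⟩ | ⟨hb, hc⟩
  · have h2 := mul_pos hu hb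
    have h3 := mul_pos hv hc
    linarith
  · have h2 := mul_neg_of_pos_of_neg hu hb
    have h3 := mul_neg_of_pos_of_neg hv hc
    linarith

variable {ι : Type} [Fintype ι] {y : ι → V3} {A : ι → ι → Prop}

open Classical in
theorem segN_gam (h : Link y A) {x o : V3} (hxo : ∀ i, dt x o (y i) ≠ 0) {s t : ℝ} (ht : t ≠ 0) :
    segN y A x (s • x + t • o) = 2 * (Finset.univ.filter fun r : ι × ι => A r.1 r.2 ∧
      dt x o (y r.1) < 0 ∧ 0 < dt x o (y r.2) ∧ 0 < t * dt x (y r.1) (y r.2) ∧
      s * t * dt x (y r.1) (y r.2) < t ^ 2 * dt o (y r.2) (y r.1)).card := by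
  set F := Finset.univ.filter fun r : ι × ι => A r.1 r.2 ∧
    Cr x (s • x + t • o) (y r.1) (y r.2) with hF
  set T := Finset.univ.filter fun r : ι × ι => A r.1 r.2 ∧
      dt x o (y r.1) < 0 ∧ 0 < dt x o (y r.2) ∧ 0 < t * dt x (y r.1) (y r.2) ∧
      s * t * dt x (y r.1) (y r.2) < t ^ 2 * dt o (y r.2) (y r.1) with hT
  have hopp : ∀ r : ι × ι, Cr x (s • x + t • o) (y r.1) (y r.2) →
      dt x o (y r.1) < 0 ∧ 0 < dt x o (y r.2) ∨ 0 < dt x o (y r.1) ∧ dt x o (y r.2) < 0 := by
    intro r hr
    have h1 : ¬ 0 < dt x o (y r.1) * dt x o (y r.2) := fun h0 => not_cr_gam h0 s t hr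
    rcases lt_or_gt_of_ne (hxo r.1) with h2 | h2 <;> rcases lt_or_gt_of_ne (hxo r.2) with h3 | h3
    · exact absurd (mul_pos_of_neg_of_neg h2 h3) h1
    · exact Or.inl ⟨h2, h3⟩
    · exact Or.inr ⟨h2, h3⟩
    · exact absurd (mul_pos h2 h3) h1
  have h1 : F.filter (fun r => dt x o (y r.1) < 0) = T := by
    ext r
    simp only [hF, hT, Finset.mem_filter, Finset.mem_univ, true_and]
    constructor
    · rintro ⟨⟨hA, hC⟩, hn⟩
      rcases hopp r hC with h2 | h2
      · obtain ⟨h3, h4⟩ := (cr_gam h2.1 h2.2 ht).1 hC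
        exact ⟨hA, h2.1, h2.2, h3, h4⟩
      · exact absurd hn (not_lt.2 h2.1.le)
    · rintro ⟨hA, h2, h3, h4, h5⟩
      exact ⟨⟨hA, (cr_gam h2 h3 ht).2 ⟨h4, h5⟩⟩, h2⟩
  have h2 : (F.filter (fun r => ¬ dt x o (y r.1) < 0)).card = T.card := by
    rw [← h1]
    refine Finset.card_nbij' Prod.swap Prod.swap ?_ ?_ (fun r _ => r.swap_swap)
      (fun r _ => r.swap_swap)
    · intro r hr
      simp only [hF, Finset.coe_filter, Finset.mem_filter, Finset.mem_univ, true_and,
        Set.mem_ofPred_eq, Prod.fst_swap, Prod.snd_swap] at hr ⊢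
      obtain ⟨⟨hA, hC⟩, hn⟩ := hr
      rcases hopp r hC with h3 | h3
      · exact absurd h3.1 hn
      · exact ⟨⟨h.symm _ _ hA, hC.swap⟩, h3.2⟩
    · intro r hr
      simp only [hF, Finset.coe_filter, Finset.mem_filter, Finset.mem_univ, true_and,
        Set.mem_ofPred_eq, Prod.fst_swap, Prod.snd_swap] at hr ⊢
      obtain ⟨⟨hA, hC⟩, hn⟩ := hr
      rcases hopp r hC with h3 | h3
      · exact ⟨⟨h.symm _ _ hA, hC.swap⟩, not_lt.2 h3.2.le⟩
      · exact absurd hn (not_lt.2 h3.1.le)
  have h3 : segN y A x (s • x + t • o) = F.card := rfl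
  have h4 := Finset.card_filter_add_card_filter_not (s := F) (fun r => dt x o (y r.1) < 0)
  rw [h3, ← h4, h2, h1]
  ring

end Pool.Agent.HP3
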