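import Pool.Agent.HP3.Sym
import Pool.Agent.SmH.Vertex

/-!
# Generic vectors, general position (module Gen)

`exists_generic`: try `v = (1, t, t²)`: `dot u v` is a nonzero polynomial of degree `≤ 2` in `t` for
every `u ∈ S`, so finitely many `t` are bad.
`gp_of_genPos`: if `ori x i j k l = 0`, some `u ≠ 0` is orthogonal to the three differences
(a vanishing determinant, `Matrix.exists_mulVec_eq_zero_iff`), so `ev u x` takes the same value at
the four points: contradiction to `GenPos` (`ev u x i = dot u (pt x i)`).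
`exists_height`: the points are different (`GP`, `4 ≤ n`), apply `exists_generic` to the
differences.
-/

set_option autoImplicit false

namespace Pool.Agent.HP3

private theorem gen_finite {u : V3} (hu : u ≠ 0) :
    {t : ℝ | u 0 + u 1 * t + u 2 * t ^ 2 = 0}.Finite := by
  have hp : (Polynomial.C (u 0) + Polynomial.C (u 1) * Polynomial.X
      + Polynomial.C (u 2) * Polynomial.X ^ 2 : Polynomial ℝ) ≠ 0 := by
    intro h0
    apply hu
    have c0 := congrArg (fun p => Polynomial.coeff p 0) h0
    have c1 := congrArg (fun p => Polynomial.coeff p 1) h0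
    have c2 := congrArg (fun p => Polynomial.coeff p 2) h0
    simp [Polynomial.coeff_X, Polynomial.coeff_C] at c0 c1 c2
    funext c
    fin_cases c
    · simpa using c0
    · simpa using c1
    · simpa using c2
  refine (Polynomial.finite_setOfPred_isRoot hp).subset ?_
  intro t ht
  simp only [Set.mem_ofPred_eq] at ht
  simp only [Set.mem_ofPred_eq, Polynomial.IsRoot.def]
  simp only [Polynomial.eval_add, Polynomial.eval_mul, Polynomial.eval_C, Polynomial.eval_X,
    Polynomial.eval_pow]
  exact ht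

theorem exists_generic {S : Set V3} (hS : S.Finite) (h : ∀ u ∈ S, u ≠ 0) :
    ∃ v : V3, ∀ u ∈ S, dot u v ≠ 0 := by
  have hfin : (⋃ u ∈ S, {t : ℝ | u 0 + u 1 * t + u 2 * t ^ 2 = 0}).Finite :=
    hS.biUnion fun u hu => gen_finite (h u hu)
  obtain ⟨t, ht⟩ := hfin.infinite_compl.nonempty
  refine ⟨![1, t, t ^ 2], fun u hu h0 => ht ?_⟩
  refine Set.mem_biUnion hu ?_
  simp only [Set.mem_ofPred_eq]
  simp [dot] at h0
  linarith

variable {n : ℕ} {x : Fin n × Fin 3 → ℝ}

theorem ev_eq_dot (u : V3) (i : Fin n) : SmH.ev u x i = dot u (pt x i) := by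
  simp [SmH.ev, dot, pt, Fin.sum_univ_three]

theorem gp_of_genPos (h : SmH.GenPos x) : GP x := by
  intro i j k l hij hik hil hjk hjl hkl h0
  have hdet : Matrix.det (Matrix.of ![pt x j - pt x i, pt x k - pt x i, pt x l - pt x i]) = 0 := by
    rw [Matrix.det_fin_three]
    simp only [Matrix.of_apply, Matrix.cons_val_zero, Matrix.cons_val_one, Matrix.cons_val]
    unfold ori dt at h0
    linarith
  obtain ⟨u, hu, hu0⟩ := Matrix.exists_mulVec_eq_zero_iff.2 hdet
  have e0 := congrFun hu0 0
  have e1 := congrFun hu0 1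
  have e2 := congrFun hu0 2
  simp [Matrix.mulVec, dotProduct, Fin.sum_univ_three] at e0 e1 e2
  have key : ∀ m ∈ ({i, j, k, l} : Finset (Fin n)), SmH.ev u x m = dot u (pt x i) := by
    intro m hm
    rw [ev_eq_dot]
    simp only [Finset.mem_insert, Finset.mem_singleton] at hm
    unfold dot
    rcases hm with rfl | rfl | rfl | rfl
    · rfl
    · linarith
    · linarith
    · linarith
  have hc := h u _ hu _ key
  rw [Finset.card_insert_of_notMem (by simp [hij, hik, hil]),
    Finset.card_insert_of_notMem (by simp [hjk, hjl]),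
    Finset.card_insert_of_notMem (by simp [hkl]), Finset.card_singleton] at hc
  omega

private theorem gen_third (h4 : 4 ≤ n) (i j : Fin n) :
    ∃ k l : Fin n, i ≠ k ∧ i ≠ l ∧ j ≠ k ∧ j ≠ l ∧ k ≠ l := by
  have hc : 1 < (({i, j} : Finset (Fin n))ᶜ).card := by
    rw [Finset.card_compl, Fintype.card_fin]
    have := Finset.card_le_two (a := i) (b := j)
    omega
  obtain ⟨k, hk, l, hl, hkl⟩ := Finset.one_lt_card.1 hc
  simp only [Finset.mem_compl, Finset.mem_insert, Finset.mem_singleton, not_or] at hk hl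
  exact ⟨k, l, Ne.symm hk.1, Ne.symm hl.1, Ne.symm hk.2, Ne.symm hl.2, hkl⟩

theorem exists_height (h : GP x) (h4 : 4 ≤ n) :
    ∃ v : V3, ∀ i j : Fin n, i ≠ j → dot v (pt x i) ≠ dot v (pt x j) := by
  have hS : (Set.range fun p : {p : Fin n × Fin n // p.1 ≠ p.2} =>
      pt x p.1.1 - pt x p.1.2).Finite := Set.finite_range _
  obtain ⟨v, hv⟩ := exists_generic hS (by
    rintro u ⟨⟨⟨i, j⟩, hij⟩, rfl⟩ h0
    obtain ⟨k, l, hik, hil, hjk, hjl, hkl⟩ := gen_third h4 i j
    refine h i j k l hij hik hil hjk hjl hkl ?_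
    have e : pt x j - pt x i = 0 := by
      have e1 : pt x i - pt x j = 0 := h0
      rw [← neg_sub, e1, neg_zero]
    unfold ori dt
    rw [e]
    simp)
  refine ⟨v, fun i j hij h0 => ?_⟩
  refine hv (pt x i - pt x j) ⟨⟨⟨i, j⟩, hij⟩, rfl⟩ ?_
  unfold dot at h0 ⊢
  simp only [Pi.sub_apply]
  linarith

end Pool.Agent.HP3
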