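import Pool.Agent.HP3.Sym
import Pool.Agent.HP3.Gen
import Pool.Agent.SmH.Count

/-!
# Halving partitions and near halving triples (module Hlv)

PROOF. `n = 2 k`. Let `{A, Aᶜ}` be a halving partition. `SmH.exists_vertex` gives `(u, t)` with
`WSep x A u t` and exactly three tight points; sort them by the height `dot v`: `i, r, j` with
`dot v (pt x i) < dot v (pt x r) < dot v (pt x j)`. `u` is orthogonal to `p_i - p_r`, `p_j - p_r`,
so it is a nonzero multiple of their vector product: `ev u x l - t = κ * ori x r i j l` for all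
`l`, `κ ≠ 0`. Let `P = {l : 0 < ori x r i j l}` (`card P = nab x r i j`). If `κ > 0`:
`P = A \ {i, r, j}`, if `κ < 0`: `P = Aᶜ \ {i, r, j}`; so `k - 3 ≤ card P ≤ k`, `NH x r i j`, and
the partition is `{P ∪ S, (P ∪ S)ᶜ}` for a subset `S` of `{i, r, j}`. So the number of
halving partitions is at most the number of `(r, i, j, S)` with `NH x r i j` (`Ar x r i j`), `i` below
`r` below `j`, `S ⊆ {i, r, j}` (8 subsets), and the number of the `(i, j)` is
`cutN (yr x r) (Ar x r) v`. Compare `SmH/Count.lean` (`exists_data`, `halvings_le`).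
-/

set_option autoImplicit false

namespace Pool.Agent.HP3

variable {n : ℕ} {x : Fin n × Fin 3 → ℝ}

open Classical in
/-- the points on the positive side of the plane -/
private noncomputable def hlvP (x : Fin n × Fin 3 → ℝ) (i j k : Fin n) : Finset (Fin n) :=
  Finset.univ.filter fun l => 0 < ori x i j k l

open Classical in
/-- the partition of a triple and a subset of it -/
private noncomputable def hlvR (x : Fin n × Fin 3 → ℝ) (r i j : Fin n) (σ : Finset (Fin 3)) :
    Finset (Finset (Fin n)) :=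
  {hlvP x r i j ∪ σ.image ![i, r, j], (hlvP x r i j ∪ σ.image ![i, r, j])ᶜ}

private theorem hlv_sort {T : Finset (Fin n)} (hT : T.card = 3) (h : Fin n → ℝ)
    (hinj : ∀ i j, i ≠ j → h i ≠ h j) :
    ∃ i r j, T = {i, r, j} ∧ h i < h r ∧ h r < h j := by
  obtain ⟨a, b, c, hab, hac, hbc, rfl⟩ := Finset.card_eq_three.1 hT
  rcases lt_or_gt_of_ne (hinj a b hab) with h1 | h1 <;>
    rcases lt_or_gt_of_ne (hinj a c hac) with h2 | h2 <;>
    rcases lt_or_gt_of_ne (hinj b c hbc) with h3 | h3
  · exact ⟨a, b, c, rfl, h1, h3⟩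
  · exact ⟨a, c, b, by ext; simp only [Finset.mem_insert, Finset.mem_singleton]; tauto, h2, h3⟩
  · linarith
  · exact ⟨c, a, b, by ext; simp only [Finset.mem_insert, Finset.mem_singleton]; tauto, h2, h1⟩
  · exact ⟨b, a, c, by ext; simp only [Finset.mem_insert, Finset.mem_singleton]; tauto, h1, h2⟩
  · linarith
  · exact ⟨b, c, a, by ext; simp only [Finset.mem_insert, Finset.mem_singleton]; tauto, h3, h2⟩
  · exact ⟨c, b, a, by ext; simp only [Finset.mem_insert, Finset.mem_singleton]; tauto, h3, h1⟩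

private theorem hlv_ident (u p q z : V3) (hp : dot u p = 0) (hq : dot u q = 0) :
    dot u u * dt p q z = dot u (crs p q) * dot u z := by
  have h : dot u u * dt p q z - dot u (crs p q) * dot u z =
      dot (crs u q) z * dot u p - dot (crs u p) z * dot u q := by
    simp only [dot, dt, crs, Matrix.cons_val_zero, Matrix.cons_val_one, Matrix.cons_val]
    ring
  rw [hp, hq, mul_zero, mul_zero, sub_zero] at h
  linarith

private theorem hlv_uu {u : V3} (hu : u ≠ 0) : 0 < dot u u := by
  have h1 : dot u u = u 0 ^ 2 + u 1 ^ 2 + u 2 ^ 2 := by unfold dot; ring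
  rw [h1]
  by_contra hcon
  apply hu
  funext c
  have h0 := sq_nonneg (u 0)
  have h1' := sq_nonneg (u 1)
  have h2 := sq_nonneg (u 2)
  have e0 : u 0 = 0 := by
    have : u 0 ^ 2 = 0 := by linarith
    exact pow_eq_zero_iff (two_ne_zero) |>.mp this
  have e1 : u 1 = 0 := by
    have : u 1 ^ 2 = 0 := by linarith
    exact pow_eq_zero_iff (two_ne_zero) |>.mp this
  have e2 : u 2 = 0 := by
    have : u 2 ^ 2 = 0 := by linarith
    exact pow_eq_zero_iff (two_ne_zero) |>.mp this
  fin_cases c
  · exact e0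
  · exact e1
  · exact e2

private theorem hlv_dot_sub (v : V3) (a b : V3) : dot v (a - b) = dot v a - dot v b := by
  unfold dot; simp only [Pi.sub_apply]; ring

/-- the partition of a halving set `B` whose side is cut out by the plane of `r, i, j` -/
private theorem hlv_recon {B : Finset (Fin n)} {r i j : Fin n} (hri : r ≠ i) (hij : i ≠ j)
    (hrj : r ≠ j) (hB : 2 * B.card = n) (hP : ∀ l, 0 < ori x r i j l ↔ l ∈ B ∧ l ∉ ({i, r, j} : Finset (Fin n))) :
    NH x r i j ∧ ∃ σ : Finset (Fin 3), ({B, Bᶜ} : Finset (Finset (Fin n))) = hlvR x r i j σ := by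
  classical
  have h1 : hlvP x r i j = B \ {i, r, j} := by
    ext l
    rw [hlvP, Finset.mem_filter, Finset.mem_sdiff]
    exact ⟨fun h => (hP l).1 h.2, fun h => ⟨Finset.mem_univ _, (hP l).2 h⟩⟩
  have hnab : nab x r i j = (B \ {i, r, j}).card := by
    rw [← h1]
    unfold nab hlvP
    congr
  have hc := Finset.card_sdiff_add_card_inter B {i, r, j}
  have hc3 : (B ∩ {i, r, j}).card ≤ 3 :=
    (Finset.card_le_card Finset.inter_subset_right).trans Finset.card_le_three
  refine ⟨⟨hri, hij, hrj, ?_, ?_⟩, Finset.univ.filter fun a => ![i, r, j] a ∈ B, ?_⟩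
  · rw [hnab]; omega
  · rw [hnab]; omega
  · have h2 : hlvP x r i j ∪ (Finset.univ.filter fun a => ![i, r, j] a ∈ B).image ![i, r, j] =
        B := by
      ext l
      rw [h1, Finset.mem_union, Finset.mem_sdiff, Finset.mem_image]
      constructor
      · rintro (h | ⟨a, ha, rfl⟩)
        · exact h.1
        · exact (Finset.mem_filter.1 ha).2
      · intro hl
        by_cases h3 : l ∈ ({i, r, j} : Finset (Fin n))
        · right
          simp only [Finset.mem_insert, Finset.mem_singleton] at h3
          rcases h3 with rfl | rfl | rfl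
          · exact ⟨0, Finset.mem_filter.2 ⟨Finset.mem_univ _, hl⟩, rfl⟩
          · exact ⟨1, Finset.mem_filter.2 ⟨Finset.mem_univ _, hl⟩, rfl⟩
          · exact ⟨2, Finset.mem_filter.2 ⟨Finset.mem_univ _, hl⟩, rfl⟩
        · exact Or.inl ⟨hl, h3⟩
    unfold hlvR
    rw [h2]

private theorem hlv_data (hg : SmH.GenPos x) (h4 : 4 ≤ n) {v : V3}
    (hv : ∀ i j : Fin n, i ≠ j → dot v (pt x i) ≠ dot v (pt x j)) (A : Finset (Fin n))
    (hA : 2 * A.card = n) (hs : SmH.Sep x A) :
    ∃ (r i j : Fin n) (σ : Finset (Fin 3)), NH x r i j ∧ dot v (pt x i) < dot v (pt x r) ∧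
      dot v (pt x r) < dot v (pt x j) ∧ ({A, Aᶜ} : Finset (Finset (Fin n))) = hlvR x r i j σ := by
  classical
  have hA1 : A.Nonempty := by
    rw [← Finset.card_pos]; omega
  have hA2 : ∃ i, i ∉ A := by
    by_contra hh
    push Not at hh
    have : A = Finset.univ := Finset.eq_univ_iff_forall.2 hh
    rw [this] at hA
    simp at hA
    omega
  obtain ⟨u, t, hw, ht⟩ := SmH.exists_vertex h4 x hg A hA1 hA2 hs
  obtain ⟨i, r, j, hT, hir, hrj⟩ := hlv_sort ht (fun l => dot v (pt x l)) hv
  have hri' : r ≠ i := by rintro rfl; exact lt_irrefl _ hir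
  have hrj' : r ≠ j := by rintro rfl; exact lt_irrefl _ hrj
  have hij' : i ≠ j := by rintro rfl; exact lt_irrefl _ (hir.trans hrj)
  have hti : SmH.ev u x i = t := SmH.mem_tight.1 (by rw [hT]; simp)
  have htr : SmH.ev u x r = t := SmH.mem_tight.1 (by rw [hT]; simp)
  have htj : SmH.ev u x j = t := SmH.mem_tight.1 (by rw [hT]; simp)
  have huu := hlv_uu hw.1
  have hkey : ∀ l, dot u u * ori x r i j l =
      dot u (crs (pt x i - pt x r) (pt x j - pt x r)) * (SmH.ev u x l - t) := by
    intro l
    have h1 := hlv_ident u (pt x i - pt x r) (pt x j - pt x r) (pt x l - pt x r)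
      (by rw [hlv_dot_sub, ← ev_eq_dot, ← ev_eq_dot, hti, htr, sub_self])
      (by rw [hlv_dot_sub, ← ev_eq_dot, ← ev_eq_dot, htj, htr, sub_self])
    rw [hlv_dot_sub u (pt x l), ← ev_eq_dot, ← ev_eq_dot, htr] at h1
    exact h1
  set w := dot u (crs (pt x i - pt x r) (pt x j - pt x r)) with hwdef
  have hw0 : w ≠ 0 := by
    intro h0
    obtain ⟨l, hl⟩ : ∃ l, l ∉ ({i, r, j} : Finset (Fin n)) := by
      by_contra hh
      push Not at hh
      have h1 : ({i, r, j} : Finset (Fin n)) = Finset.univ := Finset.eq_univ_iff_forall.2 hh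
      have h2 := Finset.card_le_three (a := i) (b := r) (c := j)
      rw [h1] at h2
      simp at h2
      omega
    simp only [Finset.mem_insert, Finset.mem_singleton, not_or] at hl
    have h1 := gp_of_genPos hg r i j l hri' hrj' (Ne.symm hl.2.1) hij' (Ne.symm hl.1)
      (Ne.symm hl.2.2)
    have h2 := hkey l
    rw [h0, zero_mul] at h2
    rcases mul_eq_zero.1 h2 with h3 | h3
    · exact huu.ne' h3
    · exact h1 h3
  have hmemT : ∀ l, l ∈ ({i, r, j} : Finset (Fin n)) ↔ SmH.ev u x l = t := by
    intro l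
    rw [← hT, SmH.mem_tight]
  rcases lt_or_gt_of_ne hw0 with hneg | hpos
  · have hB : 2 * (Aᶜ).card = n := by
      rw [Finset.card_compl, Fintype.card_fin]; omega
    obtain ⟨h1, σ, h2⟩ := hlv_recon (x := x) hri' hij' hrj' hB (fun l => by
      have h3 := hkey l
      rw [hmemT, Finset.mem_compl]
      constructor
      · intro h4'
        have h5 : 0 < w * (SmH.ev u x l - t) := by rw [← h3]; exact mul_pos huu h4'
        have h6 : SmH.ev u x l - t < 0 := by
          by_contra hc
          push Not at hc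
          have := mul_nonpos_of_nonpos_of_nonneg hneg.le hc
          linarith
        refine ⟨fun hl => ?_, fun h => by linarith⟩
        have := hw.2.1 l hl
        linarith
      · rintro ⟨hl, hlt⟩
        have h5 := hw.2.2 l hl
        have h6 : SmH.ev u x l - t < 0 := by
          have := lt_of_le_of_ne h5 hlt
          linarith
        have h7 : 0 < w * (SmH.ev u x l - t) := mul_pos_of_neg_of_neg hneg h6
        rw [← h3] at h7
        exact (mul_pos_iff_of_pos_left huu).1 h7)
    refine ⟨r, i, j, σ, h1, hir, hrj, ?_⟩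
    rw [← h2, compl_compl, Finset.pair_comm]
  · obtain ⟨h1, σ, h2⟩ := hlv_recon (x := x) (B := A) hri' hij' hrj' hA (fun l => by
      have h3 := hkey l
      rw [hmemT]
      constructor
      · intro h4'
        have h5 : 0 < w * (SmH.ev u x l - t) := by rw [← h3]; exact mul_pos huu h4'
        have h6 : 0 < SmH.ev u x l - t := (mul_pos_iff_of_pos_left hpos).1 h5
        refine ⟨?_, fun h => by linarith⟩
        by_contra hl
        have := hw.2.2 l hl
        linarith
      · rintro ⟨hl, hlt⟩
        have h5 := hw.2.1 l hl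
        have h6 : 0 < SmH.ev u x l - t := by
          have := lt_of_le_of_ne h5 (Ne.symm hlt)
          linarith
        have h7 : 0 < w * (SmH.ev u x l - t) := mul_pos hpos h6
        rw [← h3] at h7
        exact (mul_pos_iff_of_pos_left huu).1 h7)
    exact ⟨r, i, j, σ, h1, hir, hrj, h2⟩

theorem halvings_le_cut (hg : SmH.GenPos x) (hn : Even n) (h4 : 4 ≤ n) {v : V3}
    (hv : ∀ i j : Fin n, i ≠ j → dot v (pt x i) ≠ dot v (pt x j)) :
    SmH.halvings x ≤ 8 * ∑ r : Fin n, cutN (yr x r) (Ar x r) v := by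
  classical
  let C : (r : Fin n) → Finset ({j : Fin n // j ≠ r} × {j : Fin n // j ≠ r}) := fun r =>
    Finset.univ.filter fun p => Ar x r p.1 p.2 ∧ dot v (yr x r p.1) < 0 ∧ 0 < dot v (yr x r p.2)
  have hC : ∀ r, (C r).card = cutN (yr x r) (Ar x r) v := by
    intro r
    unfold cutN
    congr
  let T : Finset (Finset (Finset (Fin n))) := Finset.univ.biUnion fun r : Fin n =>
    ((C r) ×ˢ (Finset.univ : Finset (Finset (Fin 3)))).image fun q => hlvR x r q.1.1 q.1.2 q.2
  have h1 : {P : Finset (Finset (Fin n)) |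
      ∃ A : Finset (Fin n), 2 * A.card = n ∧ SmH.Sep x A ∧ P = {A, Aᶜ}} ⊆ ↑T := by
    rintro P ⟨A, hA, hs, rfl⟩
    obtain ⟨r, i, j, σ, e1, e2, e3, e4⟩ := hlv_data hg h4 hv A hA hs
    rw [Finset.mem_coe, Finset.mem_biUnion]
    refine ⟨r, Finset.mem_univ _, ?_⟩
    rw [Finset.mem_image]
    refine ⟨((⟨i, fun h => e1.1 h.symm⟩, ⟨j, fun h => e1.2.2.1 h.symm⟩), σ), ?_, ?_⟩
    · rw [Finset.mem_product]
      refine ⟨Finset.mem_filter.2 ⟨Finset.mem_univ _, e1, ?_, ?_⟩, Finset.mem_univ _⟩
      · show dot v (pt x i - pt x r) < 0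
        rw [hlv_dot_sub]; linarith
      · show 0 < dot v (pt x j - pt x r)
        rw [hlv_dot_sub]; linarith
    · rw [← e4]
  have h2 : SmH.halvings x ≤ T.card := by
    unfold SmH.halvings
    calc _ ≤ (↑T : Set (Finset (Finset (Fin n)))).ncard := by
          refine Set.ncard_le_ncard ?_ (Finset.finite_toSet _)
          convert h1
      _ = T.card := Set.ncard_coe_finset _
  refine h2.trans ?_
  rw [Finset.mul_sum]
  refine Finset.card_biUnion_le.trans (Finset.sum_le_sum fun r _ => ?_)
  refine Finset.card_image_le.trans ?_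
  rw [Finset.card_product, hC, mul_comm]
  have : (Finset.univ : Finset (Finset (Fin 3))).card = 8 := by decide
  rw [this]

end Pool.Agent.HP3
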