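import Pool.Agent.HP3.Tri
import Pool.Agent.HP3.Gam

/-!
# The three applications of the triangle inequality (module Tee)

PROOFS. All three are `tri` with `Q ≤ 2 card ι`.
`seg_le_arc`: an ordered arc `(i, j)` with `Cr (y b) (y c) (y i) (y j)` is disjoint from `{b, c}`
(counted by `arcN`), or it is `(b, c)` or `(c, b)` (at most two); it cannot share exactly one vertex:
`s y_b + t y_c = u y_b + v y_j` gives `dt (y b) (y c) (y j) = 0`, against `Link.gp`.
`seg_le_arc'`: the same for the cone over `y c` and `z = zz x o (y b) (y c)`, which is a part of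
the cone over `y b, y c` (`z = α y_b + β y_c` with `α, β > 0`).
`T1`: `tri` with `p = y b`, `q = y c`: `dt x (y b) (y c) ≠ 0`; no vertex is in the open cone of
`y b, y c` (`gp`, and `y b = s y b + t y c` would give dependence), none in that of `x, y c`
(`hx`); `dt (y c) (y i) (y j) = 0` only if `i = c` or `j = c`.
`T2, T3`: `z`, `y c`. `dt x (y c) z = dt x o (y c) * dt x (y c) (y b) ≠ 0`; no vertex is in the open
cone of `z, y c` (it would be in the plane of `y b, y c`, hence `b` or `c`, impossible), none in
that of `x, z` (`z` is in the plane of `x, o` by `zz_eq`, but `dt x o (y i) ≠ 0`); for every `i` at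
most one `j ≠ i` has `dt z (y i) (y j) = 0` (two of them would give `dt (y i) (y j) (y k) = 0`; `z`
is not a multiple of a vertex).
-/

set_option autoImplicit false

namespace Pool.Agent.HP3

variable {ι : Type} [Fintype ι] {y : ι → V3} {A : ι → ι → Prop}

private theorem dt_lin1 (a b v w : V3) (s t : ℝ) :
    dt a b (s • v + t • w) = s * dt a b v + t * dt a b w := by
  simp only [dt, Pi.add_apply, Pi.smul_apply, smul_eq_mul]
  ring

private theorem dt_lin2 (a b v w : V3) (s t : ℝ) :
    dt a (s • v + t • w) b = s * dt a v b + t * dt a w b := by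
  simp only [dt, Pi.add_apply, Pi.smul_apply, smul_eq_mul]
  ring

private theorem dt_self1 (a b : V3) : dt a b a = 0 := by
  simp only [dt]
  ring

private theorem dt_self2 (a b : V3) : dt a b b = 0 := by
  simp only [dt]
  ring

private theorem dt_self3 (a b : V3) : dt a a b = 0 := by
  simp only [dt]
  ring

private theorem cram (a b c v : V3) :
    dt a b c • v = dt v b c • a + dt a v c • b + dt a b v • c := by
  funext i
  fin_cases i <;> simp [dt] <;> ring

private theorem notIn (h : Link y A) {x : V3} (hx : ∀ i j, i ≠ j → dt x (y i) (y j) ≠ 0)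
    {b c : ι} (hbc : b ≠ c) (i : ι) {s t : ℝ} (hs : 0 < s) (ht : 0 < t) :
    y i ≠ s • y b + t • y c := by
  intro he
  by_cases hib : i = b
  · subst hib
    have h1 := congrArg (fun v => dt x v (y i)) he
    simp only [dt_lin2, dt_self2, mul_zero, zero_add] at h1
    have h2 := hx c i (Ne.symm hbc)
    rcases mul_eq_zero.1 h1.symm with h3 | h3
    · exact ht.ne' h3
    · exact h2 h3
  · by_cases hic : i = c
    · subst hic
      have h1 := congrArg (fun v => dt x v (y i)) he
      simp only [dt_lin2, dt_self2, mul_zero, add_zero] at h1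
      have h2 := hx b i hbc
      rcases mul_eq_zero.1 h1.symm with h3 | h3
      · exact hs.ne' h3
      · exact h2 h3
    · apply h.gp b c i hbc (Ne.symm hic) (Ne.symm hib)
      rw [he, dt_lin1, dt_self1, dt_self2]
      ring

omit [Fintype ι] in
private theorem notIn2 {x : V3} (hx : ∀ i j, i ≠ j → dt x (y i) (y j) ≠ 0)
    {b c : ι} (hbc : b ≠ c) (i : ι) : ¬ InCone x (y c) (y i) := by
  rintro ⟨s, t, hs, ht, he⟩
  by_cases hic : i = c
  · subst hic
    have h0 := hx i b (Ne.symm hbc)
    have h1 := congrArg (fun v => dt x v (y b)) he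
    simp only [dt_lin2, dt_self3, mul_zero, zero_add] at h1
    have ht1 : t = 1 := by
      have h2 : (t - 1) * dt x (y i) (y b) = 0 := by linear_combination -h1
      rcases mul_eq_zero.1 h2 with h3 | h3
      · linarith
      · exact absurd h3 h0
    rw [ht1, one_smul] at he
    have h4 : s • x = 0 := by
      have := congrArg (fun v => v - y i) he
      simpa using this.symm
    have h5 : x = 0 := (smul_eq_zero.1 h4).resolve_left hs.ne'
    apply h0
    rw [h5]
    simp only [dt, Pi.zero_apply]
    ring
  · apply hx c i (Ne.symm hic)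
    rw [he, dt_lin1, dt_self1, dt_self2]
    ring

open Classical in
private theorem cardQ (h : Link y A) (c : ι) :
    (Finset.univ.filter fun r : ι × ι => A r.1 r.2 ∧ dt (y c) (y r.1) (y r.2) = 0).card ≤
      2 * Fintype.card ι := by
  have hsub : (Finset.univ.filter fun r : ι × ι => A r.1 r.2 ∧ dt (y c) (y r.1) (y r.2) = 0) ⊆
      (Finset.univ.image fun i : ι => (c, i)) ∪ Finset.univ.image fun i : ι => (i, c) := by
    rintro ⟨i, j⟩ hr
    rw [Finset.mem_filter] at hr
    rw [Finset.mem_union, Finset.mem_image, Finset.mem_image]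
    obtain ⟨-, hA, hd⟩ := hr
    have hij : i ≠ j := by
      intro h'
      have h'' : A i j := hA
      rw [h'] at h''
      exact h.irr j h''
    by_cases hic : i = c
    · left
      exact ⟨j, Finset.mem_univ _, by rw [hic]⟩
    · by_cases hjc : j = c
      · right
        exact ⟨i, Finset.mem_univ _, by rw [hjc]⟩
      · exact absurd hd (h.gp c i j (Ne.symm hic) hij (Ne.symm hjc))
  calc _ ≤ ((Finset.univ.image fun i : ι => (c, i)) ∪
        Finset.univ.image fun i : ι => (i, c)).card := Finset.card_le_card hsub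
    _ ≤ (Finset.univ.image fun i : ι => (c, i)).card +
        (Finset.univ.image fun i : ι => (i, c)).card := Finset.card_union_le _ _
    _ ≤ Fintype.card ι + Fintype.card ι := by
        refine add_le_add ?_ ?_
        · exact Finset.card_image_le
        · exact Finset.card_image_le
    _ = 2 * Fintype.card ι := by ring

open Classical in
private theorem seg_le_arc (h : Link y A) {b c : ι} (hbc : b ≠ c) {p q : V3}
    (hpq : ∀ v w, Cr p q v w → Cr (y b) (y c) v w) : segN y A p q ≤ arcN y A b c + 2 := by
  have hsub : (Finset.univ.filter fun r : ι × ι => A r.1 r.2 ∧ Cr p q (y r.1) (y r.2)) ⊆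
      (Finset.univ.filter fun r : ι × ι => A r.1 r.2 ∧ r.1 ≠ b ∧ r.1 ≠ c ∧ r.2 ≠ b ∧ r.2 ≠ c ∧
        Cr (y b) (y c) (y r.1) (y r.2)) ∪ {(b, c), (c, b)} := by
    rintro ⟨i, j⟩ hr
    rw [Finset.mem_filter] at hr
    obtain ⟨-, hA, hc⟩ := hr
    change A i j at hA
    have hc' := hpq _ _ hc
    change Cr (y b) (y c) (y i) (y j) at hc'
    have hij : i ≠ j := by
      intro h'
      rw [h'] at hA
      exact h.irr j hA
    have hz : ∃ u v : ℝ, 0 < u ∧ 0 < v ∧ u * dt (y b) (y c) (y i) + v * dt (y b) (y c) (y j) = 0 := by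
      obtain ⟨s, t, u, v, hs, ht, hu, hv, he⟩ := hc'
      refine ⟨u, v, hu, hv, ?_⟩
      rw [← dt_lin1, ← he, dt_lin1, dt_self1, dt_self2]
      ring
    obtain ⟨u, v, hu, hv, hz⟩ := hz
    have key : ∀ k, dt (y b) (y c) (y k) = 0 ↔ k = b ∨ k = c := by
      intro k
      constructor
      · intro h0
        by_contra hcon
        rw [not_or] at hcon
        exact h.gp b c k hbc (Ne.symm hcon.2) (Ne.symm hcon.1) h0
      · rintro (rfl | rfl)
        · exact dt_self1 _ _
        · exact dt_self2 _ _
    rw [Finset.mem_union, Finset.mem_filter, Finset.mem_insert, Finset.mem_singleton]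
    by_cases hi : i = b ∨ i = c
    · right
      have hj : j = b ∨ j = c := by
        rw [← key j]
        rw [(key i).2 hi, mul_zero, zero_add] at hz
        exact (mul_eq_zero.1 hz).resolve_left hv.ne'
      rcases hi with rfl | rfl
      · rcases hj with rfl | rfl
        · exact absurd rfl hij
        · left
          rfl
      · rcases hj with rfl | rfl
        · right
          rfl
        · exact absurd rfl hij
    · left
      have hj : ¬ (j = b ∨ j = c) := by
        intro hj
        apply hi
        rw [← key i]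
        rw [(key j).2 hj, mul_zero, add_zero] at hz
        exact (mul_eq_zero.1 hz).resolve_left hu.ne'
      rw [not_or] at hi hj
      exact ⟨Finset.mem_univ _, hA, hi.1, hi.2, hj.1, hj.2, hc'⟩
  unfold segN arcN
  calc _ ≤ _ := Finset.card_le_card hsub
    _ ≤ _ := Finset.card_union_le _ _
    _ ≤ _ := Nat.add_le_add_left Finset.card_le_two _

theorem T1 (h : Link y A) {x : V3} (hx : ∀ i j, i ≠ j → dt x (y i) (y j) ≠ 0) {b c : ι}
    (hbc : b ≠ c) :
    segN y A x (y b) ≤ segN y A x (y c) + (arcN y A b c + 12 * Fintype.card ι + 2) := by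
  have hA := tri h hx (hx b c hbc)
    (fun i hi => by
      obtain ⟨s, t, hs, ht, he⟩ := hi
      exact notIn h hx hbc i hs ht he)
    (fun i => notIn2 hx hbc i) (cardQ h c)
  have hB := seg_le_arc h hbc (p := y b) (q := y c) (fun _ _ h => h)
  omega

private theorem zz_eq' (x o b c : V3) : zz x o b c = dt x o c • b + (-dt x o b) • c := by
  unfold zz
  rw [neg_smul, sub_eq_add_neg]

private theorem dt_zz (x o b c : V3) : dt x o (zz x o b c) = 0 := by
  rw [zz_eq', dt_lin1]
  ring

open Classical in
private theorem cardZ (h : Link y A) {x o : V3} (hxo : ∀ i, dt x o (y i) ≠ 0) {z : V3}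
    (hz : dt x o z = 0) {w : V3} (hz0 : dt x z w ≠ 0) :
    (Finset.univ.filter fun r : ι × ι => A r.1 r.2 ∧ dt z (y r.1) (y r.2) = 0).card ≤
      2 * Fintype.card ι := by
  have h1 : (Finset.univ.filter fun r : ι × ι => A r.1 r.2 ∧ dt z (y r.1) (y r.2) = 0).card ≤
      (Finset.univ : Finset ι).card := by
    apply Finset.card_le_card_of_injOn (fun r => r.1) (fun _ _ => Finset.mem_coe.2 (Finset.mem_univ _))
    rintro ⟨i, j⟩ hr ⟨i', j'⟩ hr' hii
    rw [Finset.mem_coe, Finset.mem_filter] at hr hr'
    obtain ⟨-, hA, hd⟩ := hr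
    obtain ⟨-, hA', hd'⟩ := hr'
    change i = i' at hii
    subst hii
    change A i j at hA
    change A i j' at hA'
    change dt z (y i) (y j) = 0 at hd
    change dt z (y i) (y j') = 0 at hd'
    have hij : i ≠ j := by
      intro h'
      rw [h'] at hA
      exact h.irr j hA
    have hij' : i ≠ j' := by
      intro h'
      rw [h'] at hA'
      exact h.irr j' hA'
    by_contra hne
    have hjj : j ≠ j' := by
      intro h'
      apply hne
      rw [h']
    have hD := h.gp i j j' hij hjj hij'
    have e2 : dt (y i) z (y j') = 0 := by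
      have e : dt (y i) z (y j') = -dt z (y i) (y j') := by
        simp only [dt]
        ring
      rw [e, hd', neg_zero]
    have e3 : dt (y i) (y j) z = 0 := by
      have e : dt (y i) (y j) z = dt z (y i) (y j) := by
        simp only [dt]
        ring
      rw [e, hd]
    have ez := cram (y i) (y j) (y j') z
    rw [e2, e3, zero_smul, zero_smul, add_zero, add_zero] at ez
    have h4 : dt z (y j) (y j') * dt x o (y i) = 0 := by
      have h5 := congrArg (fun v => dt x o v) ez
      have h6 : ∀ (s : ℝ) (v : V3), dt x o (s • v) = s * dt x o v := by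
        intro s v
        simp only [dt, Pi.smul_apply, smul_eq_mul]
        ring
      simp only [h6] at h5
      rw [← h5, hz, mul_zero]
    have h5 : dt z (y j) (y j') = 0 := (mul_eq_zero.1 h4).resolve_right (hxo i)
    rw [h5, zero_smul] at ez
    have h6 : z = 0 := (smul_eq_zero.1 ez).resolve_left hD
    apply hz0
    rw [h6]
    simp only [dt, Pi.zero_apply]
    ring
  rw [Finset.card_univ] at h1
  omega

theorem T2 (h : Link y A) {x o : V3} (hx : ∀ i j, i ≠ j → dt x (y i) (y j) ≠ 0)
    (hxo : ∀ i, dt x o (y i) ≠ 0) {b c : ι} (hb : dt x o (y b) < 0) (hc : 0 < dt x o (y c)) :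
    segN y A x (y c) ≤
      segN y A x (zz x o (y b) (y c)) + (arcN y A b c + 12 * Fintype.card ι + 2) := by
  have hbc : b ≠ c := by
    rintro rfl
    linarith
  have hb' : 0 < -dt x o (y b) := by linarith
  have hD0 : dt x (zz x o (y b) (y c)) (y c) ≠ 0 := by
    rw [zz_eq', dt_lin2, dt_self2, mul_zero, add_zero]
    exact mul_ne_zero hc.ne' (hx b c hbc)
  have hD : dt x (y c) (zz x o (y b) (y c)) ≠ 0 := by
    intro h0
    apply hD0
    have e : dt x (zz x o (y b) (y c)) (y c) = -dt x (y c) (zz x o (y b) (y c)) := by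
      simp only [dt]
      ring
    rw [e, h0, neg_zero]
  have hA := tri h hx hD
    (fun i hi => by
      obtain ⟨s, t, hs, ht, he⟩ := hi
      refine notIn h hx hbc i (s := t * dt x o (y c)) (t := s + t * -dt x o (y b)) (by positivity)
        (by positivity) ?_
      rw [he, zz_eq', smul_add, smul_smul, smul_smul, add_smul]
      abel)
    (fun i hi => by
      obtain ⟨s, t, hs, ht, he⟩ := hi
      apply hxo i
      rw [he, dt_lin1, dt_zz, dt_self1]
      ring)
    (cardZ h hxo (dt_zz x o (y b) (y c)) hD0)
  have hB := seg_le_arc h hbc (p := y c) (q := zz x o (y b) (y c)) (fun v w hcr => by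
    obtain ⟨s, t, u, r, hs, ht, hu, hr, he⟩ := hcr
    refine ⟨t * dt x o (y c), s + t * -dt x o (y b), u, r, by positivity, by positivity, hu, hr, ?_⟩
    rw [← he, zz_eq', smul_add, smul_smul, smul_smul, add_smul]
    abel)
  omega

theorem T3 (h : Link y A) {x o : V3} (hx : ∀ i j, i ≠ j → dt x (y i) (y j) ≠ 0)
    (hxo : ∀ i, dt x o (y i) ≠ 0) {b c : ι} (hb : dt x o (y b) < 0) (hc : 0 < dt x o (y c)) :
    segN y A x (zz x o (y b) (y c)) ≤
      segN y A x (y c) + (arcN y A b c + 12 * Fintype.card ι + 2) := by
  have hbc : b ≠ c := by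
    rintro rfl
    linarith
  have hb' : 0 < -dt x o (y b) := by linarith
  have hD0 : dt x (zz x o (y b) (y c)) (y c) ≠ 0 := by
    rw [zz_eq', dt_lin2, dt_self2, mul_zero, add_zero]
    exact mul_ne_zero hc.ne' (hx b c hbc)
  have hA := tri h hx hD0
    (fun i hi => by
      obtain ⟨s, t, hs, ht, he⟩ := hi
      refine notIn h hx hbc i (s := s * dt x o (y c)) (t := s * -dt x o (y b) + t) (by positivity)
        (by positivity) ?_
      rw [he, zz_eq', smul_add, smul_smul, smul_smul, add_smul]
      abel)
    (fun i => notIn2 hx hbc i) (cardQ h c)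
  have hB := seg_le_arc h hbc (p := zz x o (y b) (y c)) (q := y c) (fun v w hcr => by
    obtain ⟨s, t, u, r, hs, ht, hu, hr, he⟩ := hcr
    refine ⟨s * dt x o (y c), s * -dt x o (y b) + t, u, r, by positivity, by positivity, hu, hr, ?_⟩
    rw [← he, zz_eq', smul_add, smul_smul, smul_smul, add_smul]
    abel)
  omega

end Pool.Agent.HP3
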