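import Pool.Agent.HP3.Lam
import Pool.Agent.HP3.Tee

/-!
# The isoperimetric inequality (module IsoK)

PROOF. `m = card ι`. Sum `lam` over `l ∈ [1, K]` and exchange the sums: an arc `r = (b, c)` of the
first kind is counted for the `l` with `segN x z < 2 l ≤ segN x (y c)`: twice their number is at
most `arcN b c + 12 m + 3` (`windows` and `T2`). Second kind: `segN x (y c) < 2 l ≤ 2 K ≤ segN x z`
(`back_far`, `T3`), the same bound. Third kind: `T1` (`b ≠ c` by `irr`; the bound is with
`arcN b c`). An arc is of at most one of the three kinds (sides of `b`, sign of `dt o (y c) (y b)`). So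
`2 ∑ 2 l = 2 K (K + 1) ≤ 8 m K + ∑_{(b,c) : A b c} (arcN b c + 12 m + 3) ≤ 8 m K + crN + 15 m³`
(if `m = 0` then `K = 0`), and `8 m K ≤ K² + 16 m²`, so `K² ≤ crN + 31 m³`.
-/

set_option autoImplicit false

namespace Pool.Agent.HP3

variable {ι : Type} [Fintype ι] {y : ι → V3} {A : ι → ι → Prop}

private theorem sum_two (K : ℕ) : ∑ l ∈ Finset.Icc 1 K, 2 * l = K * (K + 1) := by
  induction K with
  | zero => simp
  | succ K ih =>
    rw [Finset.sum_Icc_succ_top (by omega), ih]
    ring

open Classical in
theorem isoK (h : Link y A) {x o : V3} (hx : ∀ i j, i ≠ j → dt x (y i) (y j) ≠ 0)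
    (ho : ∀ i j, i ≠ j → dt o (y i) (y j) ≠ 0) (hxo : ∀ i, dt x o (y i) ≠ 0) {K : ℕ}
    (hp : K ≤ (Finset.univ.filter fun r : ι × ι => A r.1 r.2 ∧ dt x o (y r.1) < 0 ∧
      0 < dt x o (y r.2) ∧ 0 < dt o (y r.2) (y r.1) ∧ 0 < dt x (y r.1) (y r.2)).card)
    (hm : K ≤ (Finset.univ.filter fun r : ι × ι => A r.1 r.2 ∧ dt x o (y r.1) < 0 ∧
      0 < dt x o (y r.2) ∧ 0 < dt o (y r.2) (y r.1) ∧ dt x (y r.1) (y r.2) < 0).card) :
    K ^ 2 ≤ crN y A + 40 * Fintype.card ι ^ 3 := by
  set m := Fintype.card ι with hmd
  set I := Finset.Icc 1 K with hI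
  set P1 : ℕ → ι × ι → Prop := fun l r => A r.1 r.2 ∧ dt x o (y r.1) < 0 ∧ 0 < dt x o (y r.2) ∧
        0 < dt o (y r.2) (y r.1) ∧ segN y A x (zz x o (y r.1) (y r.2)) < 2 * l ∧
        2 * l ≤ segN y A x (y r.2) with hP1
  set P2 : ℕ → ι × ι → Prop := fun l r => A r.1 r.2 ∧ dt x o (y r.1) < 0 ∧ 0 < dt x o (y r.2) ∧
        dt o (y r.2) (y r.1) < 0 ∧ segN y A x (y r.2) < 2 * l with hP2
  set P3 : ℕ → ι × ι → Prop := fun l r => A r.1 r.2 ∧ 0 < dt x o (y r.1) ∧ 0 < dt x o (y r.2) ∧
        segN y A x (y r.2) < 2 * l ∧ 2 * l ≤ segN y A x (y r.1) with hP3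
  have hsum : ∑ l ∈ I, 2 * l ≤ ∑ l ∈ I, ((Finset.univ.filter fun r => P1 l r).card +
      (Finset.univ.filter fun r => P2 l r).card + (Finset.univ.filter fun r => P3 l r).card +
        4 * m) := by
    refine Finset.sum_le_sum fun l hl => ?_
    rw [hI, Finset.mem_Icc] at hl
    exact lam h hx ho hxo hp hm hl.2
  rw [hI, sum_two, ← hI] at hsum
  simp only [Finset.sum_add_distrib] at hsum
  have x1 : ∑ l ∈ I, (Finset.univ.filter fun r => P1 l r).card =
      ∑ r, (I.filter fun l => P1 l r).card := by
    simp_rw [Finset.card_filter]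
    exact Finset.sum_comm
  have x2 : ∑ l ∈ I, (Finset.univ.filter fun r => P2 l r).card =
      ∑ r, (I.filter fun l => P2 l r).card := by
    simp_rw [Finset.card_filter]
    exact Finset.sum_comm
  have x3 : ∑ l ∈ I, (Finset.univ.filter fun r => P3 l r).card =
      ∑ r, (I.filter fun l => P3 l r).card := by
    simp_rw [Finset.card_filter]
    exact Finset.sum_comm
  rw [x1, x2, x3] at hsum
  have hcI : ∑ l ∈ I, 4 * m = K * (4 * m) := by
    rw [Finset.sum_const, hI, Nat.card_Icc, smul_eq_mul]
    congr 1
  rw [hcI] at hsum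
  -- each arc is of one kind only
  have key : ∀ r : ι × ι, 2 * ((I.filter fun l => P1 l r).card + (I.filter fun l => P2 l r).card +
      (I.filter fun l => P3 l r).card) ≤
      (if A r.1 r.2 then arcN y A r.1 r.2 else 0) + (12 * m + 3) := by
    rintro ⟨b, c⟩
    by_cases hA : A b c
    · have hbc : b ≠ c := by
        rintro rfl
        exact h.irr _ hA
      have hif : (if A (b, c).1 (b, c).2 then arcN y A (b, c).1 (b, c).2 else 0) = arcN y A b c :=
        if_pos hA
      rw [hif]
      rcases lt_or_gt_of_ne (hxo b) with hb | hb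
      · have e3 : (I.filter fun l => P3 l (b, c)).card = 0 := by
          rw [Finset.card_eq_zero, Finset.filter_eq_empty_iff]
          rintro l - ⟨-, h1, -⟩
          exact absurd h1 (not_lt.2 hb.le)
        by_cases hc : 0 < dt x o (y c)
        · rcases lt_or_gt_of_ne (ho c b (Ne.symm hbc)) with hS | hS
          · have e1 : (I.filter fun l => P1 l (b, c)).card = 0 := by
              rw [Finset.card_eq_zero, Finset.filter_eq_empty_iff]
              rintro l - ⟨-, -, -, h1, -⟩
              exact absurd h1 (not_lt.2 hS.le)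
            have e2 : (I.filter fun l => P2 l (b, c)).card ≤
                ((Finset.Icc 1 K).filter fun l => segN y A x (y c) < 2 * l ∧
                  2 * l ≤ segN y A x (zz x o (y b) (y c))).card := by
              apply Finset.card_le_card
              intro l hl
              rw [Finset.mem_filter] at hl ⊢
              obtain ⟨hlI, -, -, -, -, h1⟩ := hl
              refine ⟨hlI, h1, ?_⟩
              rw [hI, Finset.mem_Icc] at hlI
              have := back_far h hx ho hxo hp hm hb hc hS
              omega
            have e4 := windows (segN y A x (y c)) (segN y A x (zz x o (y b) (y c))) K _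
              (T3 h hx hxo hb hc)
            omega
          · have e1 : (I.filter fun l => P2 l (b, c)).card = 0 := by
              rw [Finset.card_eq_zero, Finset.filter_eq_empty_iff]
              rintro l - ⟨-, -, -, h1, -⟩
              exact absurd h1 (not_lt.2 hS.le)
            have e2 : (I.filter fun l => P1 l (b, c)).card ≤
                ((Finset.Icc 1 K).filter fun l => segN y A x (zz x o (y b) (y c)) < 2 * l ∧
                  2 * l ≤ segN y A x (y c)).card := by
              apply Finset.card_le_card
              intro l hl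
              rw [Finset.mem_filter] at hl ⊢
              obtain ⟨hlI, -, -, -, -, h1, h2⟩ := hl
              exact ⟨hlI, h1, h2⟩
            have e4 := windows (segN y A x (zz x o (y b) (y c))) (segN y A x (y c)) K _
              (T2 h hx hxo hb hc)
            omega
        · have e1 : (I.filter fun l => P1 l (b, c)).card = 0 := by
            rw [Finset.card_eq_zero, Finset.filter_eq_empty_iff]
            rintro l - ⟨-, -, h1, -⟩
            exact hc h1
          have e2 : (I.filter fun l => P2 l (b, c)).card = 0 := by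
            rw [Finset.card_eq_zero, Finset.filter_eq_empty_iff]
            rintro l - ⟨-, -, h1, -⟩
            exact hc h1
          omega
      · have e1 : (I.filter fun l => P1 l (b, c)).card = 0 := by
          rw [Finset.card_eq_zero, Finset.filter_eq_empty_iff]
          rintro l - ⟨-, h1, -⟩
          exact absurd h1 (not_lt.2 (le_of_lt hb))
        have e2 : (I.filter fun l => P2 l (b, c)).card = 0 := by
          rw [Finset.card_eq_zero, Finset.filter_eq_empty_iff]
          rintro l - ⟨-, h1, -⟩
          exact absurd h1 (not_lt.2 (le_of_lt hb))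
        have e3 : (I.filter fun l => P3 l (b, c)).card ≤
            ((Finset.Icc 1 K).filter fun l => segN y A x (y c) < 2 * l ∧
              2 * l ≤ segN y A x (y b)).card := by
          apply Finset.card_le_card
          intro l hl
          rw [Finset.mem_filter] at hl ⊢
          obtain ⟨hlI, -, -, -, h1, h2⟩ := hl
          exact ⟨hlI, h1, h2⟩
        have e4 := windows (segN y A x (y c)) (segN y A x (y b)) K _ (T1 h hx hbc)
        omega
    · have e1 : (I.filter fun l => P1 l (b, c)).card = 0 := by
        rw [Finset.card_eq_zero, Finset.filter_eq_empty_iff]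
        rintro l - ⟨h1, -⟩
        exact hA h1
      have e2 : (I.filter fun l => P2 l (b, c)).card = 0 := by
        rw [Finset.card_eq_zero, Finset.filter_eq_empty_iff]
        rintro l - ⟨h1, -⟩
        exact hA h1
      have e3 : (I.filter fun l => P3 l (b, c)).card = 0 := by
        rw [Finset.card_eq_zero, Finset.filter_eq_empty_iff]
        rintro l - ⟨h1, -⟩
        exact hA h1
      omega
  have h2 := Finset.sum_le_sum (s := (Finset.univ : Finset (ι × ι))) fun r _ => key r
  rw [← Finset.mul_sum, Finset.sum_add_distrib, Finset.sum_add_distrib, Finset.sum_add_distrib,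
    Finset.sum_const, Finset.card_univ, Fintype.card_prod, ← hmd, smul_eq_mul] at h2
  have h3 : crN y A = ∑ q : ι × ι, if A q.1 q.2 then arcN y A q.1 q.2 else 0 := rfl
  rw [← h3] at h2
  rcases Nat.eq_zero_or_pos m with h0 | h0
  · rw [h0] at hsum h2
    simp only [mul_zero, zero_mul, add_zero] at hsum h2
    have : K * (K + 1) = K ^ 2 + K := by ring
    have h4 : K ^ 2 ≤ K * (K + 1) := by rw [this]; omega
    omega
  · have h5 : m * m * (12 * m + 3) ≤ 15 * m ^ 3 := by nlinarith [Nat.mul_le_mul h0 (le_refl (m * m))]
    have h6 : 8 * (m * K) ≤ K ^ 2 + 16 * m ^ 2 := by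
      zify
      nlinarith [sq_nonneg ((K : ℤ) - 4 * m)]
    have h7 : m ^ 2 ≤ m ^ 3 := Nat.pow_le_pow_right h0 (by norm_num)
    have h8 : K * (K + 1) = K ^ 2 + K := by ring
    have h9 : K * (4 * m) = 4 * (m * K) := by ring
    rw [h8, h9] at hsum
    omega

end Pool.Agent.HP3
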