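import Pool.Agent.HP3.IsoK
import Pool.Agent.HP3.Gen

/-!
# Choice of the two vectors (module IsoX)

PROOF of `iso`. `m = card ι`, `f = cutN y A N ≤ m²`. If `m ≤ 2`: `f² ≤ 16` and `f = 0` for `m = 0`.
Let `m ≥ 3`: by `Link.gp` any two `y i, y j` (`i ≠ j`) are independent. `N ≠ 0`.
(1) `o = crs N g`, `g` generic (`exists_generic`), so that `dt o (y i) (y j) ≠ 0` for all `i ≠ j`:
`dt (crs N g) a b = - dot g (crs N (crs a b))` up to sign and
`crs N (crs a b) = dot N b • a - dot N a • b ≠ 0`. `o ≠ 0`.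
(2) `e = crs o N`; `dt e o v = dot o o * dot N v` (`dot N o = 0`), so that `dt e o (y i)` has the
sign of `dot N (y i)`, the same for `dt (e + θ o) o (y i)` and (both signs changed) for
`dt (-e + θ' (-o)) (-o) (y i)`.
(3) For a crossing arc `(b, c)` (`dot N (y b) < 0 < dot N (y c)`, `A b c`) let
`S = dt o (y c) (y b) ≠ 0`, `T = dt e (y b) (y c)`. If at least half of the crossing arcs have
`S > 0` put `J = ` these arcs; otherwise replace `(e, o)` by `(-e, -o)` (then `S` changes sign) and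
take the arcs with `S > 0` for the new vectors. `2 card J ≥ f`.
(4) `τ = T / S` on `J`. At most `m` arcs of `J` have the same `τ`: two of them with a common vertex
would have `zz e o` parallel, so `dt (y b) (y c) (y c') = 0`; so `(b, c) ↦ b` is injective on
`{τ = μ}`. `ord_split` gives `θ` outside the finite set of the zeros of
`θ ↦ dt (e + θ o) (y i) (y j)`, `i ≠ j`. `x = e + θ o`: `dt x (y b) (y c) = T - θ S` has the sign of
`τ - θ` (`dt o (y b) (y c) = -S`), `dt x o = dt e o`. So `isoK` applies with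
`K = min(#{τ > θ}, #{τ < θ})`: `2 K ≥ card J - 2 m`, `f ≤ 4 K + 4 m`,
`f² ≤ 32 K² + 32 m² ≤ 32 crN + 1280 m³ + 32 m²`.
-/

set_option autoImplicit false

namespace Pool.Agent.HP3

variable {ι : Type} [Fintype ι] {y : ι → V3} {A : ι → ι → Prop}

private theorem par_zero {e o b c c' : V3} {μ : ℝ} (hS : dt o c b ≠ 0) (hb : dt e o b ≠ 0)
    (hT : dt e b c = μ * dt o c b) (hT' : dt e b c' = μ * dt o c' b) :
    dt b c c' = 0 := by
  have z1 : ∀ i, dt e o c * b i - dt e o b * c i = dt o c b * (e i + μ * o i) := by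
    intro i
    have h := congrFun (zz_eq e o b c) i
    simp only [zz, Pi.add_apply, Pi.sub_apply, Pi.smul_apply, smul_eq_mul] at h
    linear_combination h + o i * hT
  have z2 : ∀ i, dt e o c' * b i - dt e o b * c' i = dt o c' b * (e i + μ * o i) := by
    intro i
    have h := congrFun (zz_eq e o b c') i
    simp only [zz, Pi.add_apply, Pi.sub_apply, Pi.smul_apply, smul_eq_mul] at h
    linear_combination h + o i * hT'
  have k1 : dt o c b * dt b c (fun i => e i + μ * o i) = 0 := by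
    have e0 := z1 0
    have e1 := z1 1
    have e2 := z1 2
    generalize dt e o c = p at *
    generalize dt e o b = q at *
    generalize hS0 : dt o c b = S at *
    simp only [dt]
    linear_combination (-(b 1 * c 2 - b 2 * c 1)) * e0 - (b 2 * c 0 - b 0 * c 2) * e1 -
      (b 0 * c 1 - b 1 * c 0) * e2
  have k2 : dt b c (fun i => e i + μ * o i) = 0 := by
    rcases mul_eq_zero.1 k1 with h | h
    · exact absurd h hS
    · exact h
  have k3 : dt o c' b * dt b c (fun i => e i + μ * o i) = - dt e o b * dt b c c' := by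
    have e0 := z2 0
    have e1 := z2 1
    have e2 := z2 2
    generalize dt e o c' = p at *
    generalize dt e o b = q at *
    generalize hS0 : dt o c' b = S at *
    simp only [dt]
    linear_combination (-(b 1 * c 2 - b 2 * c 1)) * e0 - (b 2 * c 0 - b 0 * c 2) * e1 -
      (b 0 * c 1 - b 1 * c 0) * e2
  rw [k2, mul_zero] at k3
  have k4 : dt e o b * dt b c c' = 0 := by linarith
  rcases mul_eq_zero.1 k4 with h | h
  · exact absurd h hb
  · exact h

open Classical in
private theorem core (h : Link y A) {N e o : V3} {κ : ℝ} (hκ : 0 < κ)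
    (hN : ∀ i, dot N (y i) ≠ 0) (ho : ∀ i j, i ≠ j → dt o (y i) (y j) ≠ 0)
    (he : ∀ v, dt e o v = κ * dot N v) :
    ∃ K : ℕ, K ^ 2 ≤ crN y A + 40 * Fintype.card ι ^ 3 ∧
      (Finset.univ.filter fun r : ι × ι => (A r.1 r.2 ∧ dot N (y r.1) < 0 ∧ 0 < dot N (y r.2)) ∧
        0 < dt o (y r.2) (y r.1)).card ≤ 2 * K + 2 * Fintype.card ι := by
  set J := Finset.univ.filter fun r : ι × ι => (A r.1 r.2 ∧ dot N (y r.1) < 0 ∧
    0 < dot N (y r.2)) ∧ 0 < dt o (y r.2) (y r.1) with hJ
  set τ : ι × ι → ℝ := fun r => dt e (y r.1) (y r.2) / dt o (y r.2) (y r.1) with hτ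
  have hsgn1 : ∀ v, dt e o v < 0 ↔ dot N v < 0 := by
    intro v
    rw [he v]
    constructor
    · intro h1
      by_contra h2
      push Not at h2
      exact absurd (mul_nonneg hκ.le h2) (not_le.2 h1)
    · intro h1
      exact mul_neg_of_pos_of_neg hκ h1
  have hsgn2 : ∀ v, 0 < dt e o v ↔ 0 < dot N v := by
    intro v
    rw [he v]
    exact mul_pos_iff_of_pos_left hκ
  have hm : ∀ μ : ℝ, (J.filter fun a => τ a = μ).card ≤ Fintype.card ι := by
    intro μ
    rw [← Finset.card_univ (α := ι)]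
    refine Finset.card_le_card_of_injOn (fun r => r.1) (fun _ _ => Finset.mem_coe.2
      (Finset.mem_univ _)) ?_
    rintro ⟨b, c⟩ hr ⟨b', c'⟩ hr' hbb
    simp only at hbb
    subst hbb
    rw [Finset.mem_coe, Finset.mem_filter, hJ, Finset.mem_filter] at hr hr'
    obtain ⟨⟨-, ⟨⟨hA, hb, hc⟩, hS⟩⟩, hT⟩ := hr
    obtain ⟨⟨-, ⟨⟨hA', hb', hc'⟩, hS'⟩⟩, hT'⟩ := hr'
    simp only [hτ] at hA hb hc hS hT hA' hb' hc' hS' hT'
    rw [div_eq_iff hS.ne'] at hT
    rw [div_eq_iff hS'.ne'] at hT'
    have hbc : b ≠ c := by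
      rintro rfl
      exact h.irr _ hA
    have hbc' : b ≠ c' := by
      rintro rfl
      exact h.irr _ hA'
    by_contra hne
    have hcc : c ≠ c' := by
      rintro rfl
      exact hne rfl
    have hb0 : dt e o (y b) ≠ 0 := by
      have := (hsgn1 (y b)).2 hb
      exact this.ne
    exact h.gp b c c' hbc hcc hbc' (par_zero hS.ne' hb0 hT hT')
  have hB : (Set.range fun r : ι × ι => -(dt e (y r.1) (y r.2)) / dt o (y r.1) (y r.2)).Finite :=
    Set.finite_range _
  obtain ⟨θ, hθ, h1, h2⟩ := ord_split J τ (Fintype.card ι) hm _ hB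
  set x : V3 := e + θ • o with hx
  have dx : ∀ a b, dt x a b = dt e a b + θ * dt o a b := by
    intro a b
    simp only [hx, dt, Pi.add_apply, Pi.smul_apply, smul_eq_mul]
    ring
  have doo : ∀ v, dt o o v = 0 := by
    intro v
    simp only [dt]
    ring
  have dxo : ∀ v, dt x o v = dt e o v := by
    intro v
    rw [dx, doo]
    ring
  have hx1 : ∀ i j, i ≠ j → dt x (y i) (y j) ≠ 0 := by
    intro i j hij h0
    apply hθ
    refine ⟨(i, j), ?_⟩
    simp only
    rw [div_eq_iff (ho i j hij)]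
    rw [dx] at h0
    linarith
  have hxo : ∀ i, dt x o (y i) ≠ 0 := by
    intro i
    rw [dxo, he]
    exact mul_ne_zero hκ.ne' (hN i)
  have anti : ∀ a b, dt o a b = - dt o b a := by
    intro a b
    simp only [dt]
    ring
  set K := min (J.filter fun a => τ a < θ).card (J.filter fun a => θ < τ a).card with hK
  refine ⟨K, isoK h hx1 ho hxo (K := K) ?_ ?_, ?_⟩
  · refine (min_le_right _ _).trans (Finset.card_le_card ?_)
    intro r hr
    rw [Finset.mem_filter, hJ, Finset.mem_filter] at hr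
    obtain ⟨⟨-, ⟨⟨hA, hb, hc⟩, hS⟩⟩, hT⟩ := hr
    rw [Finset.mem_filter]
    refine ⟨Finset.mem_univ _, hA, ?_, ?_, hS, ?_⟩
    · rw [dxo]; exact (hsgn1 _).2 hb
    · rw [dxo]; exact (hsgn2 _).2 hc
    · simp only [hτ] at hT
      rw [lt_div_iff₀ hS] at hT
      rw [dx, anti (y r.1) (y r.2)]
      linarith
  · refine (min_le_left _ _).trans (Finset.card_le_card ?_)
    intro r hr
    rw [Finset.mem_filter, hJ, Finset.mem_filter] at hr
    obtain ⟨⟨-, ⟨⟨hA, hb, hc⟩, hS⟩⟩, hT⟩ := hr
    rw [Finset.mem_filter]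
    refine ⟨Finset.mem_univ _, hA, ?_, ?_, hS, ?_⟩
    · rw [dxo]; exact (hsgn1 _).2 hb
    · rw [dxo]; exact (hsgn2 _).2 hc
    · simp only [hτ] at hT
      rw [div_lt_iff₀ hS] at hT
      rw [dx, anti (y r.1) (y r.2)]
      linarith
  · rcases min_choice (J.filter fun a => τ a < θ).card (J.filter fun a => θ < τ a).card with h3 | h3
    · rw [hK, h3]
      omega
    · rw [hK, h3]
      omega

private theorem dt_dot (a b v : V3) : dt a b v = dot v (crs a b) := by
  simp only [dt, dot, crs, Matrix.cons_val_zero, Matrix.cons_val_one, Matrix.cons_val]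
  ring

private theorem dt_crs (N g a b : V3) : dt (crs N g) a b = dot (crs (crs a b) N) g := by
  simp only [dt, dot, crs, Matrix.cons_val_zero, Matrix.cons_val_one, Matrix.cons_val]
  ring

private theorem crs_crs (N a b v : V3) (h : crs (crs a b) N = 0) :
    dot N a * dt a b v = 0 ∧ dot N b * dt a b v = 0 := by
  have h0 := congrFun h 0
  have h1 := congrFun h 1
  have h2 := congrFun h 2
  simp only [crs, Matrix.cons_val_zero, Matrix.cons_val_one, Matrix.cons_val,
    Pi.zero_apply] at h0 h1 h2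
  simp only [dt, dot]
  constructor
  · linear_combination -(a 1 * v 2 - a 2 * v 1) * h0 - (a 2 * v 0 - a 0 * v 2) * h1 -
      (a 0 * v 1 - a 1 * v 0) * h2
  · linear_combination -(b 1 * v 2 - b 2 * v 1) * h0 - (b 2 * v 0 - b 0 * v 2) * h1 -
      (b 0 * v 1 - b 1 * v 0) * h2

private theorem exists_third (h3 : 3 ≤ Fintype.card ι) (i j : ι) : ∃ k, k ≠ i ∧ k ≠ j := by
  classical
  have h1 : ({i, j} : Finset ι).card < (Finset.univ : Finset ι).card := by
    rw [Finset.card_univ]
    exact lt_of_le_of_lt Finset.card_le_two (by omega)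
  obtain ⟨k, -, hk⟩ := Finset.exists_mem_notMem_of_card_lt_card h1
  simp only [Finset.mem_insert, Finset.mem_singleton, not_or] at hk
  exact ⟨k, hk.1, hk.2⟩

theorem iso (h : Link y A) {N : V3} (hN : ∀ i, dot N (y i) ≠ 0) :
    cutN y A N ^ 2 ≤ 32 * crN y A + 1400 * Fintype.card ι ^ 3 := by
  classical
  set m := Fintype.card ι with hm
  have hf : cutN y A N ≤ m ^ 2 := by
    have h1 : cutN y A N ≤ (Finset.univ : Finset (ι × ι)).card := Finset.card_filter_le _ _
    rw [Finset.card_univ, Fintype.card_prod] at h1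
    rw [sq]
    exact h1
  rcases Nat.lt_or_ge m 3 with hm3 | hm3
  · have h1 : cutN y A N ^ 2 ≤ (m ^ 2) ^ 2 := Nat.pow_le_pow_left hf 2
    have h2 : (m ^ 2) ^ 2 ≤ 1400 * m ^ 3 := by
      have h3 : (m ^ 2) ^ 2 = m * m ^ 3 := by ring
      rw [h3]
      exact Nat.mul_le_mul_right _ (by omega)
    omega
  -- two different vertices
  have hcard : 1 < Fintype.card ι := by omega
  obtain ⟨i0, j0, hij0⟩ := Fintype.exists_pair_of_one_lt_card hcard
  -- the generic vector
  obtain ⟨g, hg⟩ := exists_generic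
    (S := (fun r : ι × ι => crs (crs (y r.1) (y r.2)) N) '' {r : ι × ι | r.1 ≠ r.2})
    (Set.toFinite _) (by
      rintro _ ⟨⟨i, j⟩, hr, rfl⟩ h0
      simp only [Set.mem_ofPred_eq] at hr
      simp only at h0
      obtain ⟨k, hki, hkj⟩ := exists_third hm3 i j
      have h1 := (crs_crs N (y i) (y j) (y k) h0).1
      rcases mul_eq_zero.1 h1 with h2 | h2
      · exact hN i h2
      · exact h.gp i j k hr (Ne.symm hkj) (Ne.symm hki) h2)
  set o : V3 := crs N g with ho
  have ho1 : ∀ i j, i ≠ j → dt o (y i) (y j) ≠ 0 := by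
    intro i j hij
    rw [ho, dt_crs]
    exact hg _ ⟨(i, j), hij, rfl⟩
  have hoo : 0 < dot o o := by
    have h1 : 0 ≤ dot o o := by
      simp only [dot]
      nlinarith [sq_nonneg (o 0), sq_nonneg (o 1), sq_nonneg (o 2)]
    rcases h1.lt_or_eq with h2 | h2
    · exact h2
    · exfalso
      apply ho1 i0 j0 hij0
      simp only [dot] at h2
      have q0 := mul_self_nonneg (o 0)
      have q1 := mul_self_nonneg (o 1)
      have q2 := mul_self_nonneg (o 2)
      have e0 : o 0 = 0 := mul_self_eq_zero.1 (by linarith)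
      have e1 : o 1 = 0 := mul_self_eq_zero.1 (by linarith)
      have e2 : o 2 = 0 := mul_self_eq_zero.1 (by linarith)
      simp only [dt, e0, e1, e2]
      ring
  have hNo : dot N o = 0 := by
    simp only [ho, dot, crs, Matrix.cons_val_zero, Matrix.cons_val_one, Matrix.cons_val]
    ring
  have he : ∀ v, dt (crs o N) o v = dot o o * dot N v := by
    intro v
    have h1 : dt (crs o N) o v = dot o o * dot N v - dot N o * dot o v := by
      simp only [dt, dot, crs, Matrix.cons_val_zero, Matrix.cons_val_one, Matrix.cons_val]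
      ring
    rw [h1, hNo]
    ring
  have he' : ∀ v, dt (-(crs o N)) (-o) v = dot o o * dot N v := by
    intro v
    rw [← he v]
    simp only [dt, Pi.neg_apply]
    ring
  have dneg : ∀ a b, dt (-o) a b = - dt o a b := by
    intro a b
    simp only [dt, Pi.neg_apply]
    ring
  have ho2 : ∀ i j, i ≠ j → dt (-o) (y i) (y j) ≠ 0 := by
    intro i j hij
    rw [dneg]
    exact neg_ne_zero.2 (ho1 i j hij)
  obtain ⟨K1, hK1, hJ1⟩ := core h hoo hN ho1 he
  obtain ⟨K2, hK2, hJ2⟩ := core h hoo hN ho2 he'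
  have hsum : cutN y A N ≤ (Finset.univ.filter fun r : ι × ι =>
      (A r.1 r.2 ∧ dot N (y r.1) < 0 ∧ 0 < dot N (y r.2)) ∧ 0 < dt o (y r.2) (y r.1)).card +
      (Finset.univ.filter fun r : ι × ι =>
      (A r.1 r.2 ∧ dot N (y r.1) < 0 ∧ 0 < dot N (y r.2)) ∧ 0 < dt (-o) (y r.2) (y r.1)).card := by
    refine (Finset.card_le_card ?_).trans (Finset.card_union_le _ _)
    intro r hr
    rw [Finset.mem_filter] at hr
    rw [Finset.mem_union, Finset.mem_filter, Finset.mem_filter]
    have hne : r.2 ≠ r.1 := by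
      intro h0
      apply h.irr r.1
      have h1 := hr.2.1
      rwa [h0] at h1
    rcases lt_or_gt_of_ne (ho1 r.2 r.1 hne) with h1 | h1
    · right
      refine ⟨Finset.mem_univ _, hr.2, ?_⟩
      rw [dneg]
      linarith
    · left
      exact ⟨Finset.mem_univ _, hr.2, h1⟩
  have hm23 : m ^ 2 ≤ m ^ 3 := Nat.pow_le_pow_right (by omega) (by omega)
  have key : ∃ K : ℕ, K ^ 2 ≤ crN y A + 40 * m ^ 3 ∧ cutN y A N ≤ 4 * K + 4 * m := by
    rcases Nat.le_total K1 K2 with h12 | h12
    · exact ⟨K2, hK2, by omega⟩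
    · exact ⟨K1, hK1, by omega⟩
  obtain ⟨K, hK, hfK⟩ := key
  have h1 : cutN y A N ^ 2 ≤ (4 * K + 4 * m) ^ 2 := Nat.pow_le_pow_left hfK 2
  have h2 : (4 * K + 4 * m) ^ 2 ≤ 32 * K ^ 2 + 32 * m ^ 2 := by
    zify
    nlinarith [sq_nonneg ((K : ℤ) - m)]
  omega

end Pool.Agent.HP3
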