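import Pool.Agent.HP3.Main
import Pool.Agent.HpD.Part

/-!
# The theorem with the constant of helper4 for the shallow points (module Joint)
-/

set_option autoImplicit false

namespace Pool.Agent.HP3

open Finset Classical

variable {n : ℕ} {x : Fin n × Fin 3 → ℝ}

private theorem hpd_dt (b p q r : Fin n) : HpD.dt x b p q r = ori x b p q r := by
  unfold HpD.dt HpD.det3 HpD.df ori dt pt
  simp only [Pi.sub_apply]
  ring

private theorem hpd_dot (z : V3) (b p : Fin n) : HpD.dot z (HpD.df x b p) = dot z (pt x p - pt x b) := by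
  unfold HpD.dot HpD.df dot pt
  simp only [Pi.sub_apply]

private theorem nh_of_ty (h : GP x) {m s : ℕ} (hm : 2 * m = n) (hs : s ≤ 3) {b p q : Fin n}
    (hbp : b ≠ p) (hpq : p ≠ q) (hbq : b ≠ q) (hT : HpD.Ty x (m - s) b p q) : NH x b p q := by
  have h1 : (univ.filter fun r => 0 < HpD.dt x b p q r).card = nab x b p q := by
    unfold nab
    congr 1
    apply filter_congr
    intro r _
    rw [hpd_dt]
  have h2 : (univ.filter fun r => HpD.dt x b p q r < 0).card = nab x b q p := by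
    unfold nab
    congr 1
    apply filter_congr
    intro r _
    rw [hpd_dt, ori_swap23 x b p q r]
    constructor <;> intro h <;> linarith
  have h3 := nab_swap h hbp hpq hbq
  unfold HpD.Ty at hT
  rw [h1, h2] at hT
  refine ⟨hbp, hpq, hbq, ?_, ?_⟩ <;> rcases hT with hT | hT <;> omega

private theorem link_le_cut (h : GP x) {m s : ℕ} (hm : 2 * m = n) (hs : s ≤ 3) (b : Fin n)
    (z : V3) :
    (((univ.erase b) ×ˢ (univ.erase b)).filter fun c : Fin n × Fin n =>
      HpD.Ty x (m - s) b c.1 c.2 ∧ HpD.dot z (HpD.df x b c.1) < 0 ∧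
        0 < HpD.dot z (HpD.df x b c.2)).card ≤ cutN (yr x b) (Ar x b) z := by
  unfold cutN
  refine le_of_le_of_eq (card_le_card (t := (univ.filter fun p : {j : Fin n // j ≠ b} ×
      {j : Fin n // j ≠ b} => Ar x b p.1 p.2 ∧ dot z (yr x b p.1) < 0 ∧
      0 < dot z (yr x b p.2)).image fun c => ((c.1 : Fin n), (c.2 : Fin n))) ?_)
    (card_image_of_injective _ ?_)
  · rintro ⟨p, q⟩ hc
    rw [mem_filter, mem_product, mem_erase, mem_erase] at hc
    obtain ⟨⟨⟨hp, _⟩, hq, _⟩, hT, h1, h2⟩ := hc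
    rw [hpd_dot] at h1 h2
    rw [mem_image]
    refine ⟨(⟨p, hp⟩, ⟨q, hq⟩), ?_, rfl⟩
    rw [mem_filter]
    refine ⟨mem_univ _, ?_, h1, h2⟩
    have hpq : p ≠ q := by
      rintro rfl
      exact lt_asymm h1 h2
    exact nh_of_ty h hm hs (Ne.symm hp) hpq (Ne.symm hq) hT
  · rintro ⟨p, q⟩ ⟨p', q'⟩ hc
    simp only [Prod.mk.injEq] at hc
    exact Prod.ext (Subtype.ext hc.1) (Subtype.ext hc.2)

private theorem tri_card_eq (z : V3) (k : ℕ) : (HpD.tri x z k).card = ∑ b : Fin n,
      (((univ.erase b) ×ˢ (univ.erase b)).filter fun c : Fin n × Fin n =>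
      HpD.Ty x k b c.1 c.2 ∧ HpD.dot z (HpD.df x b c.1) < 0 ∧
        0 < HpD.dot z (HpD.df x b c.2)).card := by
  rw [← card_sigma]
  refine card_bij' (fun c _ => ⟨c.1, c.2⟩) (fun c _ => (c.1, c.2)) ?_ ?_ ?_ ?_
  · rintro ⟨b, p, q⟩ h
    rw [HpD.tri, mem_filter] at h
    obtain ⟨_, h2, h3, h4⟩ := h
    rw [mem_sigma]
    refine ⟨mem_univ _, ?_⟩
    rw [mem_filter, mem_product]
    refine ⟨⟨mem_erase.2 ⟨?_, mem_univ _⟩, mem_erase.2 ⟨?_, mem_univ _⟩⟩, h4, ?_, ?_⟩
    · intro h5
      change p = b at h5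
      rw [h5] at h2
      exact lt_irrefl _ h2
    · intro h5
      change q = b at h5
      rw [h5] at h3
      exact lt_irrefl _ h3
    · rw [HpD.dot_df]
      exact sub_neg.2 h2
    · rw [HpD.dot_df]
      exact sub_pos.2 h3
  · rintro ⟨b, p, q⟩ h
    rw [mem_sigma, mem_filter] at h
    obtain ⟨_, _, h4, h2, h3⟩ := h
    rw [HpD.dot_df] at h2 h3
    rw [HpD.tri, mem_filter]
    exact ⟨mem_univ _, sub_neg.1 h2, sub_pos.1 h3, h4⟩
  · rintro ⟨b, p, q⟩ _
    rfl
  · rintro ⟨b, p, q⟩ _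
    rfl

private theorem halvings_le_window (hx : SmH.GenPos x) (hn : 4 ≤ n) (z : V3)
    (hz : ∀ p q, p ≠ q → SmH.ev z x p ≠ SmH.ev z x q) {m : ℕ} (hm : 2 * m = n) (B : ℕ)
    (hB : ∀ s ≤ 3, (HpD.tri x z (m - s)).card ≤ B) : SmH.halvings x ≤ 8 * B := by
  let U : Finset (Finset (Finset (Fin n))) := (univ : Finset (Finset (Fin 3))).biUnion fun S =>
    (HpD.tri x z (m - S.card)).image fun c => {HpD.rec' x c S, (HpD.rec' x c S)ᶜ}
  have h1 : {P : Finset (Finset (Fin n)) |
      ∃ A : Finset (Fin n), 2 * A.card = n ∧ SmH.Sep x A ∧ P = {A, Aᶜ}} ⊆ (U : Set _) := by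
    rintro P ⟨A, hA, hs, rfl⟩
    obtain ⟨S, c, h2, h3⟩ := HpD.exists_triple hx hn z hz hm hA hs
    rw [mem_coe, mem_biUnion]
    exact ⟨S, mem_univ _, mem_image.2 ⟨c, h2, h3.symm⟩⟩
  unfold SmH.halvings
  calc _ ≤ (U : Set _).ncard := Set.ncard_le_ncard h1 (finite_toSet U)
    _ = U.card := Set.ncard_coe_finset U
    _ ≤ ∑ S : Finset (Fin 3), ((HpD.tri x z (m - S.card)).image fun c =>
        ({HpD.rec' x c S, (HpD.rec' x c S)ᶜ} : Finset (Finset (Fin n)))).card := card_biUnion_le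
    _ ≤ ∑ _S : Finset (Fin 3), B := sum_le_sum fun S _ => card_image_le.trans (hB _
        (by
          have := card_le_univ S
          simpa using this))
    _ = 8 * B := by simp

/-- the depth is the number of the other points in a closed half space, plus one -/
private theorem depth_eq (b : Fin n) : ∃ w : V3, depth x b =
    ((univ.erase b).filter fun q => 0 ≤ HpD.dot w (HpD.df x b q)).card + 1 := by
  obtain ⟨w, -, hw⟩ := exists_depth (x := x) b
  refine ⟨w, ?_⟩
  rw [hw]
  have h1 : (univ.filter fun i => dot w (pt x b) ≤ dot w (pt x i)) =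
      insert b ((univ.erase b).filter fun q => 0 ≤ HpD.dot w (HpD.df x b q)) := by
    ext q
    simp only [mem_filter, mem_univ, true_and, mem_insert, mem_erase, and_true]
    rw [hpd_dot, dot_sub, sub_nonneg]
    constructor
    · intro h
      by_cases h2 : q = b
      · exact Or.inl h2
      · exact Or.inr ⟨h2, h⟩
    · rintro (h | h)
      · rw [h]
      · exact h.2
  rw [h1, card_insert_of_notMem (by simp)]

theorem joint (hn : Even n) (hn2 : 2 ≤ n) (hg : SmH.GenPos x) (N : Finset (Fin n)) :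
    (SmH.halvings x : ℝ) ≤
      8 * n * ∑ p ∈ Nᶜ, ((depth x p : ℝ) + 1) + 434 * (n : ℝ) ^ 2 * √(N.card : ℝ) := by
  by_cases h4 : 4 ≤ n
  · have h := gp_of_genPos hg
    obtain ⟨m, hm⟩ := hn
    have hm' : 2 * m = n := by omega
    choose w hw using depth_eq (x := x)
    obtain ⟨z, hz⟩ := HpD.exists_generic hg h4 w
    have hv : ∀ i j : Fin n, i ≠ j → dot z (pt x i) ≠ dot z (pt x j) := by
      intro i j hij he
      have h1 := (hz j).1 i hij
      rw [hpd_dot, dot_sub, he, sub_self] at h1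
      exact h1 rfl
    have hev : ∀ p q, p ≠ q → SmH.ev z x p ≠ SmH.ev z x q := by
      intro p q hpq
      rw [ev_eq_dot, ev_eq_dot]
      exact hv p q hpq
    have h1 := halvings_le_window hg h4 z hev hm'
      (n * ∑ p ∈ Nᶜ, (depth x p + 1) + ∑ p ∈ N, cutN (yr x p) (Ar x p) z) (by
        intro s hs
        rw [tri_card_eq, ← Finset.sum_compl_add_sum N, Finset.mul_sum]
        apply Nat.add_le_add
        · refine sum_le_sum fun b _ => ?_
          have h2 := HpD.link_bound hg b z (w b) (m - s) (hz b).1 (hz b).2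
          have h3 : (univ.erase b : Finset (Fin n)).card ≤ n := by
            calc _ ≤ (univ : Finset (Fin n)).card := card_le_card (erase_subset _ _)
              _ = n := by rw [card_univ, Fintype.card_fin]
          rw [hw b]
          calc _ ≤ _ := h2
            _ = (univ.erase b : Finset (Fin n)).card *
                (((univ.erase b).filter fun q => 0 ≤ HpD.dot (w b) (HpD.df x b q)).card + 1 +
                  1) := by ring
            _ ≤ _ := Nat.mul_le_mul_right _ h3
        · exact sum_le_sum fun b _ => link_le_cut h hm' hs b z)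
    have h2 : (SmH.halvings x : ℝ) ≤ 8 * (n * ∑ p ∈ Nᶜ, ((depth x p : ℝ) + 1) +
        ∑ p ∈ N, (cutN (yr x p) (Ar x p) z : ℝ)) := by exact_mod_cast h1
    have h6 : ∑ r ∈ N, (cutN (yr x r) (Ar x r) z : ℝ) ≤ 54.25 * (n : ℝ) ^ 2 * √(N.card : ℝ) := by
      apply le_of_sq_le_sq _ (by positivity)
      refine (sum_cut h hv N).trans ?_
      have e : (54.25 * (n : ℝ) ^ 2 * √(N.card : ℝ)) ^ 2 =
          2943.0625 * (n : ℝ) ^ 4 * (√(N.card : ℝ)) ^ 2 := by ring
      rw [e, Real.sq_sqrt (Nat.cast_nonneg _)]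
      have : (0 : ℝ) ≤ N.card * (n : ℝ) ^ 4 := by positivity
      nlinarith
    linarith
  · have hn' : n = 2 := by
      obtain ⟨k, hk⟩ := hn
      omega
    subst hn'
    have h16 : (SmH.halvings x : ℝ) ≤ 16 := by exact_mod_cast halvings_two x
    by_cases hN : N = ∅
    · subst hN
      have : (2 : ℝ) ≤ ∑ p ∈ (∅ : Finset (Fin 2))ᶜ, ((depth x p : ℝ) + 1) := by
        rw [Finset.compl_empty, Fin.sum_univ_two]
        have h0 : (0 : ℝ) ≤ depth x 0 := Nat.cast_nonneg _
        have h1 : (0 : ℝ) ≤ depth x 1 := Nat.cast_nonneg _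
        linarith
      simp only [Finset.card_empty, Nat.cast_zero, Real.sqrt_zero, mul_zero, add_zero]
      push_cast
      linarith
    · have h1 : (1 : ℝ) ≤ √(N.card : ℝ) := by
        rw [Real.one_le_sqrt]
        exact_mod_cast Finset.card_pos.mpr (Finset.nonempty_iff_ne_empty.mpr hN)
      have h0 : (0 : ℝ) ≤ ∑ p ∈ Nᶜ, ((depth x p : ℝ) + 1) :=
        Finset.sum_nonneg fun p _ => by positivity
      push_cast
      nlinarith

end Pool.Agent.HP3
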