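import Pool.Agent.HP3.Defs

/-!
# Order lemmas (module Ord)

`ord`: induction on `l` or: if fewer than `l` elements have fewer than `l` predecessors, take an
element with the least `τ` among the others (there is one since `l ≤ card J`): all its predecessors
are among the fewer than `l` elements, contradiction.
`ord_split`: if `J` is empty take any `θ ∉ B`. Otherwise let `μ` be the least value of `τ` on `J`
with `card J ≤ 2 #{τ ≤ μ}`; then `2 #{τ < μ} < card J` (the largest value `< μ` would do
otherwise; or `#{τ < μ} = 0`), so `2 #{τ > μ} = 2 (card J - #{τ < μ} - #{τ = μ}) ≥ card J - 2 m`;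
take `θ > μ`, `θ ∉ B`, smaller than all values of `τ` above `μ`: `#{τ < θ} = #{τ ≤ μ}`,
`#{θ < τ} = #{μ < τ}` (an open interval is not contained in a finite set).
`windows`: number of `l` in `1, ..., K` with `a < 2 l ≤ b`.
-/

set_option autoImplicit false

namespace Pool.Agent.HP3

open Classical in
theorem ord {α : Type} (J : Finset α) (τ : α → ℝ) (l : ℕ) (hl : l ≤ J.card) :
    l ≤ (J.filter fun a => (J.filter fun b => τ b < τ a).card < l).card := by
  set S := J.filter fun a => (J.filter fun b => τ b < τ a).card < l with hS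
  by_contra hcon
  push Not at hcon
  have hne : (J \ S).Nonempty := by
    rw [← Finset.card_pos]
    have h1 := Finset.le_card_sdiff S J
    omega
  obtain ⟨a, ha, hmin⟩ := Finset.exists_min_image (J \ S) τ hne
  rw [Finset.mem_sdiff] at ha
  apply ha.2
  rw [hS, Finset.mem_filter]
  refine ⟨ha.1, ?_⟩
  refine lt_of_le_of_lt (Finset.card_le_card ?_) hcon
  intro b hb
  rw [Finset.mem_filter] at hb
  by_contra hbS
  exact absurd (hmin b (Finset.mem_sdiff.2 ⟨hb.1, hbS⟩)) (not_le.2 hb.2)

open Classical in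
theorem ord_split {α : Type} (J : Finset α) (τ : α → ℝ) (m : ℕ)
    (hm : ∀ μ : ℝ, (J.filter fun a => τ a = μ).card ≤ m) (B : Set ℝ) (hB : B.Finite) :
    ∃ θ : ℝ, θ ∉ B ∧ J.card ≤ 2 * (J.filter fun a => τ a < θ).card ∧
      J.card ≤ 2 * (J.filter fun a => θ < τ a).card + 2 * m := by
  rcases J.eq_empty_or_nonempty with rfl | hJ
  · obtain ⟨θ, hθ⟩ := hB.infinite_compl.nonempty
    exact ⟨θ, hθ, by simp, by simp⟩
  have hJc : 0 < J.card := Finset.card_pos.2 hJ
  -- elements with many below
  obtain ⟨c, hc, hmax⟩ := Finset.exists_max_image J τ hJ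
  have hT : (J.filter fun a => J.card ≤ 2 * (J.filter fun b => τ b ≤ τ a).card).Nonempty := by
    refine ⟨c, Finset.mem_filter.2 ⟨hc, ?_⟩⟩
    have h1 : (J.filter fun b => τ b ≤ τ c) = J := Finset.filter_true_of_mem hmax
    rw [h1]; omega
  obtain ⟨a, ha, hmin⟩ := Finset.exists_min_image _ τ hT
  rw [Finset.mem_filter] at ha
  set μ := τ a with hμ
  have hlt : 2 * (J.filter fun b => τ b < μ).card < J.card := by
    rcases (J.filter fun b => τ b < μ).eq_empty_or_nonempty with h0 | h0
    · rw [h0]; simpa using hJc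
    · obtain ⟨b, hb, hbmax⟩ := Finset.exists_max_image _ τ h0
      rw [Finset.mem_filter] at hb
      have h1 : (J.filter fun d => τ d < μ).card ≤ (J.filter fun d => τ d ≤ τ b).card := by
        refine Finset.card_le_card fun d hd => ?_
        have h2 := hbmax d hd
        rw [Finset.mem_filter] at hd ⊢
        exact ⟨hd.1, h2⟩
      by_contra hcon
      push Not at hcon
      have h3 := hmin b (Finset.mem_filter.2 ⟨hb.1, by omega⟩)
      exact absurd h3 (not_le.2 hb.2)
  -- the next value
  obtain ⟨u, hu, hu2⟩ : ∃ u, μ < u ∧ ∀ b ∈ J, μ < τ b → u ≤ τ b := by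
    rcases (J.filter fun b => μ < τ b).eq_empty_or_nonempty with h0 | h0
    · refine ⟨μ + 1, by linarith, fun b hb hb2 => ?_⟩
      have : b ∈ (J.filter fun b => μ < τ b) := Finset.mem_filter.2 ⟨hb, hb2⟩
      rw [h0] at this
      exact absurd this (Finset.notMem_empty b)
    · obtain ⟨b, hb, hbmin⟩ := Finset.exists_min_image _ τ h0
      rw [Finset.mem_filter] at hb
      exact ⟨τ b, hb.2, fun d hd hd2 => hbmin d (Finset.mem_filter.2 ⟨hd, hd2⟩)⟩
  obtain ⟨θ, hθ, hθB⟩ := ((Set.Ioo_infinite hu).sdiff hB).nonempty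
  refine ⟨θ, hθB, ?_, ?_⟩
  · have h1 : (J.filter fun b => τ b ≤ μ).card ≤ (J.filter fun b => τ b < θ).card := by
      refine Finset.card_le_card fun d hd => ?_
      rw [Finset.mem_filter] at hd ⊢
      exact ⟨hd.1, lt_of_le_of_lt hd.2 hθ.1⟩
    have h2 := ha.2
    omega
  · have h1 : (J.filter fun b => μ < τ b).card ≤ (J.filter fun b => θ < τ b).card := by
      refine Finset.card_le_card fun d hd => ?_
      rw [Finset.mem_filter] at hd ⊢
      exact ⟨hd.1, lt_of_lt_of_le hθ.2 (hu2 d hd.1 hd.2)⟩
    have h2 : J.card ≤ (J.filter fun b => τ b < μ).card + (J.filter fun b => τ b = μ).card +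
        (J.filter fun b => μ < τ b).card := by
      have h3 : J ⊆ (J.filter fun b => τ b < μ) ∪ (J.filter fun b => τ b = μ) ∪
          (J.filter fun b => μ < τ b) := by
        intro d hd
        simp only [Finset.mem_union, Finset.mem_filter]
        rcases lt_trichotomy (τ d) μ with h | h | h
        · exact Or.inl (Or.inl ⟨hd, h⟩)
        · exact Or.inl (Or.inr ⟨hd, h⟩)
        · exact Or.inr ⟨hd, h⟩
      refine (Finset.card_le_card h3).trans ?_
      refine (Finset.card_union_le _ _).trans ?_
      have := Finset.card_union_le (J.filter fun b => τ b < μ) (J.filter fun b => τ b = μ)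
      omega
    have h3 := hm μ
    omega

theorem windows (a b K R : ℕ) (h : b ≤ a + R) :
    2 * ((Finset.Icc 1 K).filter fun l => a < 2 * l ∧ 2 * l ≤ b).card ≤ R + 1 := by
  have h1 : ((Finset.Icc 1 K).filter fun l => a < 2 * l ∧ 2 * l ≤ b) ⊆
      Finset.Ioc (a / 2) (b / 2) := by
    intro l hl
    rw [Finset.mem_filter] at hl
    rw [Finset.mem_Ioc]
    omega
  have h2 := Finset.card_le_card h1
  rw [Nat.card_Ioc] at h2
  omega

end Pool.Agent.HP3
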