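import Pool.Agent.HP3.Flux
import Pool.Agent.HP3.Gam
import Pool.Agent.HP3.Ord

/-!
# The inequality at the level `2 l` (module Lam)

For a crossing arc `(b, c)` (`b` below, `c` above the plane of `x, o`) write `S = dt o (y c) (y b)`,
`T = dt x (y b) (y c)`; its crossing point is `zz x o (y b) (y c) = S x + T o` (`zz_eq`), `S, T ≠ 0`.
`segN_gam` with `s = S, t = T`.
PROOF of `back_far` (`S < 0`): if `T > 0`, every arc `(b', c')` with `S' > 0`, `T' > 0` satisfies
`T T' > 0` and `S T T' < 0 < T² S'`, so it is counted: `segN ≥ 2 K` by `hp`; if `T < 0` the same with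
`hm`.
PROOF of `lam`. FRONT arcs: `S > 0`. For a front arc with `T > 0` `segN_gam` counts exactly the
front arcs with `T' > 0` and `T'/S' < T/S` (`S T T' < T² S'` iff `S T' < T S'`, which forces `S' > 0`),
so by `ord` (for `τ = T/S` on the at least `K ≥ l` front arcs with `T > 0`) at least `l` of them have
`segN y A x z < 2 l`; the same for `T < 0` (`τ = -T/S`). So at least `2 l` front arcs have
`segN y A x z < 2 l`; those with `2 l ≤ segN y A x (y c)` are in the first set below; the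
others have `c ∈ U = {c : 0 < dt x o (y c), segN y A x (y c) < 2 l}` and are counted by `flux`.
-/

set_option autoImplicit false

namespace Pool.Agent.HP3

variable {ι : Type} [Fintype ι] {y : ι → V3} {A : ι → ι → Prop}

open Classical in
private theorem lam_front (h : Link y A) {x o : V3} (hxo : ∀ i, dt x o (y i) ≠ 0) {l : ℕ} (e : ℝ)
    (he : e = 1 ∨ e = -1)
    (hl : l ≤ (Finset.univ.filter fun r : ι × ι => A r.1 r.2 ∧ dt x o (y r.1) < 0 ∧
      0 < dt x o (y r.2) ∧ 0 < dt o (y r.2) (y r.1) ∧ 0 < e * dt x (y r.1) (y r.2)).card) :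
    l ≤ (Finset.univ.filter fun r : ι × ι => A r.1 r.2 ∧ dt x o (y r.1) < 0 ∧
      0 < dt x o (y r.2) ∧ 0 < dt o (y r.2) (y r.1) ∧ 0 < e * dt x (y r.1) (y r.2) ∧
      segN y A x (zz x o (y r.1) (y r.2)) < 2 * l).card := by
  set J := Finset.univ.filter fun r : ι × ι => A r.1 r.2 ∧ dt x o (y r.1) < 0 ∧
      0 < dt x o (y r.2) ∧ 0 < dt o (y r.2) (y r.1) ∧ 0 < e * dt x (y r.1) (y r.2) with hJ
  have hee : e * e = 1 := by
    rcases he with h1 | h1
    · rw [h1]; norm_num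
    · rw [h1]; norm_num
  set τ : ι × ι → ℝ := fun r => e * dt x (y r.1) (y r.2) / dt o (y r.2) (y r.1) with hτ
  refine (ord J τ l hl).trans (Finset.card_le_card ?_)
  intro r hr
  rw [Finset.mem_filter] at hr
  obtain ⟨hrJ, hlt⟩ := hr
  rw [hJ, Finset.mem_filter] at hrJ
  obtain ⟨-, h1, h2, h3, h4, h5⟩ := hrJ
  rw [Finset.mem_filter]
  refine ⟨Finset.mem_univ _, h1, h2, h3, h4, h5, ?_⟩
  have hT : dt x (y r.1) (y r.2) ≠ 0 := by
    intro h0
    rw [h0, mul_zero] at h5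
    exact lt_irrefl _ h5
  rw [zz_eq, segN_gam h hxo hT]
  have hle : (Finset.univ.filter fun r' : ι × ι => A r'.1 r'.2 ∧
      dt x o (y r'.1) < 0 ∧ 0 < dt x o (y r'.2) ∧
      0 < dt x (y r.1) (y r.2) * dt x (y r'.1) (y r'.2) ∧
      dt o (y r.2) (y r.1) * dt x (y r.1) (y r.2) * dt x (y r'.1) (y r'.2) <
        dt x (y r.1) (y r.2) ^ 2 * dt o (y r'.2) (y r'.1)).card ≤
      (J.filter fun b => τ b < τ r).card := by
    apply Finset.card_le_card
    intro r' hr'
    rw [Finset.mem_filter] at hr'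
    obtain ⟨-, a1, a2, a3, a4, a5⟩ := hr'
    set S := dt o (y r.2) (y r.1) with hS
    set T := dt x (y r.1) (y r.2) with hTd
    set S' := dt o (y r'.2) (y r'.1) with hS'
    set T' := dt x (y r'.1) (y r'.2) with hT'
    -- `e T > 0`, `e T' > 0`
    have b1 : 0 < e * T' := by
      have h6 : 0 < (e * T) * (e * T') := by
        have : (e * T) * (e * T') = (e * e) * (T * T') := by ring
        rw [this, hee, one_mul]
        exact a4
      exact (mul_pos_iff_of_pos_left h5).1 h6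
    have b2 : S * (e * T') < (e * T) * S' := by
      have h6 : (e * T) * (S * (e * T')) < (e * T) * ((e * T) * S') := by
        have e1 : (e * T) * (S * (e * T')) = (e * e) * (S * T * T') := by ring
        have e2 : (e * T) * ((e * T) * S') = (e * e) * (T ^ 2 * S') := by ring
        rw [e1, e2, hee, one_mul, one_mul]
        exact a5
      exact lt_of_mul_lt_mul_left h6 h5.le
    have b3 : 0 < S' := by
      have h6 : 0 < S * (e * T') := mul_pos h4 b1
      have h7 : 0 < (e * T) * S' := h6.trans b2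
      exact (mul_pos_iff_of_pos_left h5).1 h7
    rw [Finset.mem_filter, hJ, Finset.mem_filter]
    refine ⟨⟨Finset.mem_univ _, a1, a2, a3, b3, b1⟩, ?_⟩
    rw [hτ]
    dsimp only
    rw [div_lt_div_iff₀ b3 h4]
    linarith
  omega

open Classical in
theorem back_far (h : Link y A) {x o : V3} (hx : ∀ i j, i ≠ j → dt x (y i) (y j) ≠ 0)
    (ho : ∀ i j, i ≠ j → dt o (y i) (y j) ≠ 0) (hxo : ∀ i, dt x o (y i) ≠ 0) {K : ℕ}
    (hp : K ≤ (Finset.univ.filter fun r : ι × ι => A r.1 r.2 ∧ dt x o (y r.1) < 0 ∧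
      0 < dt x o (y r.2) ∧ 0 < dt o (y r.2) (y r.1) ∧ 0 < dt x (y r.1) (y r.2)).card)
    (hm : K ≤ (Finset.univ.filter fun r : ι × ι => A r.1 r.2 ∧ dt x o (y r.1) < 0 ∧
      0 < dt x o (y r.2) ∧ 0 < dt o (y r.2) (y r.1) ∧ dt x (y r.1) (y r.2) < 0).card)
    {b c : ι} (hb : dt x o (y b) < 0) (hc : 0 < dt x o (y c)) (hS : dt o (y c) (y b) < 0) :
    2 * K ≤ segN y A x (zz x o (y b) (y c)) := by
  have hbc : b ≠ c := by
    rintro rfl
    linarith
  have hT := hx b c hbc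
  rw [zz_eq, segN_gam h hxo hT]
  refine Nat.mul_le_mul_left 2 ?_
  rcases lt_or_gt_of_ne hT with hT' | hT'
  · refine hm.trans (Finset.card_le_card ?_)
    intro r hr
    rw [Finset.mem_filter] at hr ⊢
    obtain ⟨-, a1, a2, a3, a4, a5⟩ := hr
    have h1 : 0 < dt x (y b) (y c) * dt x (y r.1) (y r.2) := mul_pos_of_neg_of_neg hT' a5
    refine ⟨Finset.mem_univ _, a1, a2, a3, h1, ?_⟩
    have h2 : dt o (y c) (y b) * (dt x (y b) (y c) * dt x (y r.1) (y r.2)) < 0 :=
      mul_neg_of_neg_of_pos hS h1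
    have h3 : 0 < dt x (y b) (y c) ^ 2 * dt o (y r.2) (y r.1) := by positivity
    rw [mul_assoc]
    linarith
  · refine hp.trans (Finset.card_le_card ?_)
    intro r hr
    rw [Finset.mem_filter] at hr ⊢
    obtain ⟨-, a1, a2, a3, a4, a5⟩ := hr
    have h1 : 0 < dt x (y b) (y c) * dt x (y r.1) (y r.2) := mul_pos hT' a5
    refine ⟨Finset.mem_univ _, a1, a2, a3, h1, ?_⟩
    have h2 : dt o (y c) (y b) * (dt x (y b) (y c) * dt x (y r.1) (y r.2)) < 0 :=
      mul_neg_of_neg_of_pos hS h1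
    have h3 : 0 < dt x (y b) (y c) ^ 2 * dt o (y r.2) (y r.1) := by positivity
    rw [mul_assoc]
    linarith

open Classical in
theorem lam (h : Link y A) {x o : V3} (hx : ∀ i j, i ≠ j → dt x (y i) (y j) ≠ 0)
    (ho : ∀ i j, i ≠ j → dt o (y i) (y j) ≠ 0) (hxo : ∀ i, dt x o (y i) ≠ 0) {K : ℕ}
    (hp : K ≤ (Finset.univ.filter fun r : ι × ι => A r.1 r.2 ∧ dt x o (y r.1) < 0 ∧
      0 < dt x o (y r.2) ∧ 0 < dt o (y r.2) (y r.1) ∧ 0 < dt x (y r.1) (y r.2)).card)
    (hm : K ≤ (Finset.univ.filter fun r : ι × ι => A r.1 r.2 ∧ dt x o (y r.1) < 0 ∧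
      0 < dt x o (y r.2) ∧ 0 < dt o (y r.2) (y r.1) ∧ dt x (y r.1) (y r.2) < 0).card)
    {l : ℕ} (hl : l ≤ K) :
    2 * l ≤
      (Finset.univ.filter fun r : ι × ι => A r.1 r.2 ∧ dt x o (y r.1) < 0 ∧ 0 < dt x o (y r.2) ∧
        0 < dt o (y r.2) (y r.1) ∧ segN y A x (zz x o (y r.1) (y r.2)) < 2 * l ∧
        2 * l ≤ segN y A x (y r.2)).card +
      (Finset.univ.filter fun r : ι × ι => A r.1 r.2 ∧ dt x o (y r.1) < 0 ∧ 0 < dt x o (y r.2) ∧
        dt o (y r.2) (y r.1) < 0 ∧ segN y A x (y r.2) < 2 * l).card +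
      (Finset.univ.filter fun r : ι × ι => A r.1 r.2 ∧ 0 < dt x o (y r.1) ∧ 0 < dt x o (y r.2) ∧
        segN y A x (y r.2) < 2 * l ∧ 2 * l ≤ segN y A x (y r.1)).card + 4 * Fintype.card ι := by
  set U : Finset ι := Finset.univ.filter fun c => 0 < dt x o (y c) ∧ segN y A x (y c) < 2 * l
    with hU
  have hflux := flux h ho hxo U (fun i hi => by
    rw [hU, Finset.mem_filter] at hi
    exact hi.2.1)
  -- the front arcs
  have h1 := lam_front (l := l) h hxo 1 (Or.inl rfl) (by simpa only [one_mul] using hl.trans hp)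
  have h2 := lam_front (l := l) h hxo (-1) (Or.inr rfl) (by
    simpa only [neg_mul, one_mul, Left.neg_pos_iff] using hl.trans hm)
  simp only [one_mul, neg_mul, Left.neg_pos_iff] at h1 h2
  set P1 := Finset.univ.filter fun r : ι × ι => A r.1 r.2 ∧ dt x o (y r.1) < 0 ∧
      0 < dt x o (y r.2) ∧ 0 < dt o (y r.2) (y r.1) ∧ 0 < dt x (y r.1) (y r.2) ∧
      segN y A x (zz x o (y r.1) (y r.2)) < 2 * l with hP1
  set P2 := Finset.univ.filter fun r : ι × ι => A r.1 r.2 ∧ dt x o (y r.1) < 0 ∧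
      0 < dt x o (y r.2) ∧ 0 < dt o (y r.2) (y r.1) ∧ dt x (y r.1) (y r.2) < 0 ∧
      segN y A x (zz x o (y r.1) (y r.2)) < 2 * l with hP2
  have hdisj : Disjoint P1 P2 := by
    rw [Finset.disjoint_left]
    intro r hr hr'
    rw [hP1, Finset.mem_filter] at hr
    rw [hP2, Finset.mem_filter] at hr'
    have a1 := hr.2.2.2.2.2.1
    have a2 := hr'.2.2.2.2.2.1
    linarith
  have hsub : P1 ∪ P2 ⊆
      (Finset.univ.filter fun r : ι × ι => A r.1 r.2 ∧ dt x o (y r.1) < 0 ∧ 0 < dt x o (y r.2) ∧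
        0 < dt o (y r.2) (y r.1) ∧ segN y A x (zz x o (y r.1) (y r.2)) < 2 * l ∧
        2 * l ≤ segN y A x (y r.2)) ∪
      (Finset.univ.filter fun r : ι × ι => A r.1 r.2 ∧ r.2 ∈ U ∧ dt x o (y r.1) < 0 ∧
        0 < dt o (y r.2) (y r.1)) := by
    intro r hr
    have hr2 : A r.1 r.2 ∧ dt x o (y r.1) < 0 ∧ 0 < dt x o (y r.2) ∧ 0 < dt o (y r.2) (y r.1) ∧
        segN y A x (zz x o (y r.1) (y r.2)) < 2 * l := by
      rw [Finset.mem_union, hP1, hP2, Finset.mem_filter, Finset.mem_filter] at hr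
      rcases hr with ⟨-, a1, a2, a3, a4, -, a6⟩ | ⟨-, a1, a2, a3, a4, -, a6⟩
      · exact ⟨a1, a2, a3, a4, a6⟩
      · exact ⟨a1, a2, a3, a4, a6⟩
    obtain ⟨a1, a2, a3, a4, a5⟩ := hr2
    rw [Finset.mem_union, Finset.mem_filter, Finset.mem_filter]
    by_cases h3 : 2 * l ≤ segN y A x (y r.2)
    · exact Or.inl ⟨Finset.mem_univ _, a1, a2, a3, a4, a5, h3⟩
    · refine Or.inr ⟨Finset.mem_univ _, a1, ?_, a2, a4⟩
      rw [hU, Finset.mem_filter]
      exact ⟨Finset.mem_univ _, a3, not_le.1 h3⟩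
  have h3 := (Finset.card_le_card hsub).trans (Finset.card_union_le _ _)
  rw [Finset.card_union_of_disjoint hdisj] at h3
  have h4 : (Finset.univ.filter fun r : ι × ι => A r.1 r.2 ∧ r.2 ∈ U ∧ dt x o (y r.1) < 0 ∧
        dt o (y r.2) (y r.1) < 0).card ≤
      (Finset.univ.filter fun r : ι × ι => A r.1 r.2 ∧ dt x o (y r.1) < 0 ∧ 0 < dt x o (y r.2) ∧
        dt o (y r.2) (y r.1) < 0 ∧ segN y A x (y r.2) < 2 * l).card := by
    apply Finset.card_le_card
    intro r hr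
    rw [Finset.mem_filter] at hr ⊢
    obtain ⟨-, a1, a2, a3, a4⟩ := hr
    rw [hU, Finset.mem_filter] at a2
    exact ⟨Finset.mem_univ _, a1, a3, a2.2.1, a4, a2.2.2⟩
  have h5 : (Finset.univ.filter fun r : ι × ι => A r.1 r.2 ∧ r.2 ∈ U ∧ r.1 ∉ U ∧
        0 < dt x o (y r.1)).card ≤
      (Finset.univ.filter fun r : ι × ι => A r.1 r.2 ∧ 0 < dt x o (y r.1) ∧ 0 < dt x o (y r.2) ∧
        segN y A x (y r.2) < 2 * l ∧ 2 * l ≤ segN y A x (y r.1)).card := by
    apply Finset.card_le_card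
    intro r hr
    rw [Finset.mem_filter] at hr ⊢
    obtain ⟨-, a1, a2, a3, a4⟩ := hr
    rw [hU, Finset.mem_filter] at a2
    refine ⟨Finset.mem_univ _, a1, a4, a2.2.1, a2.2.2, ?_⟩
    by_contra h6
    apply a3
    rw [hU, Finset.mem_filter]
    exact ⟨Finset.mem_univ _, a4, not_le.1 h6⟩
  omega

end Pool.Agent.HP3
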