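import Pool.Agent.HP3.Defs

/-!
# The pointwise triangle inequality (module LemG)

A segment from `a` to `b` (coordinates `a1, a2, a3` and `b1, b2, b3` with respect to a basis
`x, p, q`) and the open triangle cone of the vectors with three positive coordinates. `I3` = the
segment crosses the side `x p` (third coordinate `0`), `I2` = side `x q`, `I1` = side `p q`.
CLAIM: `I3 ≤ I2 + I1 + [a inside] sg (a3 b2 - a2 b3) + [b inside] sg (b3 a2 - b2 a3)`.
PROOF. Both inside: the two signs cancel, `I3 = 0`. Only `a` inside: if `I3` then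
`a3 b2 - a2 b3 > 0` (evaluate the second coordinate at the crossing point). If
`a2 b3 - a3 b2 > 0`: move from `a` to `b`, let the first coordinate which becomes zero be number
`k` at the parameter `s_k = a_k / (a_k - b_k)`; `k ≠ 3` since `a2 A3 - a3 A2 > 0` on the way, no
tie of `1` and `2` since `a1 b2 - a2 b1 ≠ 0`; the parameter is `< 1` by `hw1, hw2`: so `I1` or `I2`.
Neither inside, `I3`: `a3, b3` have opposite signs (`hδ`), say `a3 < 0 < b3` (the other case is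
symmetric); from the crossing point on to `b` the third coordinate is positive, and again the first
exit is through the side `2` or `1`.
-/

set_option autoImplicit false

namespace Pool.Agent.HP3

/-- the first exit from the cone on the way from `c` to `b` -/
private theorem lemG_exit (c1 c2 c3 b1 b2 b3 : ℝ) (hc1 : 0 < c1) (hc2 : 0 < c2) (hc3 : 0 ≤ c3)
    (hδ : 0 < c2 * b3 - c3 * b2) (hq : c1 * b2 - c2 * b1 ≠ 0)
    (hb : ¬(0 < b1 ∧ 0 < b2 ∧ 0 < b3))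
    (hw1 : ¬(b1 = 0 ∧ 0 < b2 ∧ 0 < b3)) (hw2 : ¬(b2 = 0 ∧ 0 < b1 ∧ 0 < b3)) :
    (∃ r : ℝ, 0 < r ∧ 0 < c1 + r * b1 ∧ c2 + r * b2 = 0 ∧ 0 < c3 + r * b3) ∨
      (∃ r : ℝ, 0 < r ∧ c1 + r * b1 = 0 ∧ 0 < c2 + r * b2 ∧ 0 < c3 + r * b3) := by
  have key : ∀ r : ℝ, 0 < r → 0 < c2 + r * b2 → 0 < c3 + r * b3 := by
    intro r hr h
    have h1 : c2 * (c3 + r * b3) = c3 * (c2 + r * b2) + r * (c2 * b3 - c3 * b2) := by ring
    have h2 : 0 < c2 * (c3 + r * b3) := by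
      rw [h1]
      have h3 := mul_nonneg hc3 h.le
      have h4 := mul_pos hr hδ
      linarith
    by_contra hcon
    have h5 := mul_nonpos_of_nonneg_of_nonpos hc2.le (not_lt.1 hcon)
    linarith
  rcases lt_or_ge b2 0 with h2 | h2
  · rcases lt_or_gt_of_ne hq with hq' | hq'
    · left
      have hr : -c2 / b2 * b2 = -c2 := div_mul_cancel₀ _ h2.ne
      refine ⟨-c2 / b2, div_pos_of_neg_of_neg (by linarith) h2, ?_, by rw [hr]; ring, ?_⟩
      · have h3 : (c1 + -c2 / b2 * b1) * b2 = c1 * b2 - c2 * b1 := by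
          linear_combination b1 * hr
        by_contra hcon
        have h4 := mul_nonneg_of_nonpos_of_nonpos (not_lt.1 hcon) h2.le
        linarith
      · have h3 : (c3 + -c2 / b2 * b3) * b2 = c3 * b2 - c2 * b3 := by
          linear_combination b3 * hr
        by_contra hcon
        have h4 := mul_nonneg_of_nonpos_of_nonpos (not_lt.1 hcon) h2.le
        linarith
    · right
      have hb1 : b1 < 0 := by
        by_contra hcon
        have h3 := mul_nonneg hc2.le (not_lt.1 hcon)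
        have h4 := mul_neg_of_pos_of_neg hc1 h2
        linarith
      have hr : -c1 / b1 * b1 = -c1 := div_mul_cancel₀ _ hb1.ne
      have hr0 : 0 < -c1 / b1 := div_pos_of_neg_of_neg (by linarith) hb1
      have h5 : 0 < c2 + -c1 / b1 * b2 := by
        have h3 : (c2 + -c1 / b1 * b2) * b1 = c2 * b1 - c1 * b2 := by
          linear_combination b2 * hr
        by_contra hcon
        have h4 := mul_nonneg_of_nonpos_of_nonpos (not_lt.1 hcon) hb1.le
        linarith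
      exact ⟨-c1 / b1, hr0, by rw [hr]; ring, h5, key _ hr0 h5⟩
  · right
    have hb3 : 0 < b3 := by
      by_contra hcon
      have h3 := mul_nonneg hc3 h2
      have h4 := mul_nonneg hc2.le (neg_nonneg.2 (not_lt.1 hcon))
      linarith
    have hb1 : b1 < 0 := by
      by_contra hcon
      rcases (not_lt.1 hcon).lt_or_eq with h3 | h3
      · rcases h2.lt_or_eq with h4 | h4
        · exact hb ⟨h3, h4, hb3⟩
        · exact hw2 ⟨h4.symm, h3, hb3⟩
      · rcases h2.lt_or_eq with h4 | h4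
        · exact hw1 ⟨h3.symm, h4, hb3⟩
        · apply hq
          rw [← h3, ← h4]
          ring
    have hr : -c1 / b1 * b1 = -c1 := div_mul_cancel₀ _ hb1.ne
    have hr0 : 0 < -c1 / b1 := div_pos_of_neg_of_neg (by linarith) hb1
    have h5 : 0 < c2 + -c1 / b1 * b2 := by
      have := mul_nonneg hr0.le h2
      linarith
    exact ⟨-c1 / b1, hr0, by rw [hr]; ring, h5, key _ hr0 h5⟩

private def J3 (a1 a2 a3 b1 b2 b3 : ℝ) : Prop :=
  ∃ s t : ℝ, 0 < s ∧ 0 < t ∧ 0 < s * a1 + t * b1 ∧ 0 < s * a2 + t * b2 ∧ s * a3 + t * b3 = 0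

private def J2 (a1 a2 a3 b1 b2 b3 : ℝ) : Prop :=
  ∃ s t : ℝ, 0 < s ∧ 0 < t ∧ 0 < s * a1 + t * b1 ∧ s * a2 + t * b2 = 0 ∧ 0 < s * a3 + t * b3

private def J1 (a1 a2 a3 b1 b2 b3 : ℝ) : Prop :=
  ∃ s t : ℝ, 0 < s ∧ 0 < t ∧ s * a1 + t * b1 = 0 ∧ 0 < s * a2 + t * b2 ∧ 0 < s * a3 + t * b3

private theorem J3_swap {a1 a2 a3 b1 b2 b3 : ℝ} (h : J3 a1 a2 a3 b1 b2 b3) :
    J3 b1 b2 b3 a1 a2 a3 := by
  obtain ⟨s, t, hs, ht, h1, h2, h3⟩ := h
  exact ⟨t, s, ht, hs, by linarith, by linarith, by linarith⟩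

private theorem J2_swap {a1 a2 a3 b1 b2 b3 : ℝ} (h : J2 a1 a2 a3 b1 b2 b3) :
    J2 b1 b2 b3 a1 a2 a3 := by
  obtain ⟨s, t, hs, ht, h1, h2, h3⟩ := h
  exact ⟨t, s, ht, hs, by linarith, by linarith, by linarith⟩

private theorem J1_swap {a1 a2 a3 b1 b2 b3 : ℝ} (h : J1 a1 a2 a3 b1 b2 b3) :
    J1 b1 b2 b3 a1 a2 a3 := by
  obtain ⟨s, t, hs, ht, h1, h2, h3⟩ := h
  exact ⟨t, s, ht, hs, by linarith, by linarith, by linarith⟩

/-- only `a` inside, `a2 b3 - a3 b2 > 0` -/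
private theorem lemG_one (a1 a2 a3 b1 b2 b3 : ℝ) (hδ : 0 < a2 * b3 - a3 * b2)
    (hq : a1 * b2 - a2 * b1 ≠ 0) (ha : 0 < a1 ∧ 0 < a2 ∧ 0 < a3)
    (hb : ¬(0 < b1 ∧ 0 < b2 ∧ 0 < b3))
    (hw1 : ¬(b1 = 0 ∧ 0 < b2 ∧ 0 < b3)) (hw2 : ¬(b2 = 0 ∧ 0 < b1 ∧ 0 < b3)) :
    ¬ J3 a1 a2 a3 b1 b2 b3 ∧ (J2 a1 a2 a3 b1 b2 b3 ∨ J1 a1 a2 a3 b1 b2 b3) := by
  obtain ⟨ha1, ha2, ha3⟩ := ha
  constructor
  · rintro ⟨s, t, hs, ht, h1, h2, h3⟩
    have h4 : a3 * (s * a2 + t * b2) = -(t * (a2 * b3 - a3 * b2)) := by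
      linear_combination a2 * h3
    have h5 := mul_pos ha3 h2
    have h6 := mul_pos ht hδ
    linarith
  · rcases lemG_exit a1 a2 a3 b1 b2 b3 ha1 ha2 ha3.le hδ hq hb hw1 hw2 with
      ⟨r, hr, h1, h2, h3⟩ | ⟨r, hr, h1, h2, h3⟩
    · exact Or.inl ⟨1, r, one_pos, hr, by linarith, by linarith, by linarith⟩
    · exact Or.inr ⟨1, r, one_pos, hr, by linarith, by linarith, by linarith⟩

/-- neither inside, `b3 > 0` -/
private theorem lemG_none (a1 a2 a3 b1 b2 b3 : ℝ) (hq : a1 * b2 - a2 * b1 ≠ 0)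
    (hb : ¬(0 < b1 ∧ 0 < b2 ∧ 0 < b3))
    (hw1 : ¬(b1 = 0 ∧ 0 < b2 ∧ 0 < b3)) (hw2 : ¬(b2 = 0 ∧ 0 < b1 ∧ 0 < b3)) (hb3 : 0 < b3)
    (h : J3 a1 a2 a3 b1 b2 b3) :
    J2 a1 a2 a3 b1 b2 b3 ∨ J1 a1 a2 a3 b1 b2 b3 := by
  obtain ⟨s, t, hs, ht, h1, h2, h3⟩ := h
  have hδ : 0 < (s * a2 + t * b2) * b3 - (s * a3 + t * b3) * b2 := by
    rw [h3]
    have := mul_pos h2 hb3
    linarith
  have hq' : (s * a1 + t * b1) * b2 - (s * a2 + t * b2) * b1 ≠ 0 := by
    have h4 : (s * a1 + t * b1) * b2 - (s * a2 + t * b2) * b1 = s * (a1 * b2 - a2 * b1) := by ring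
    rw [h4]
    exact mul_ne_zero hs.ne' hq
  rcases lemG_exit _ _ _ b1 b2 b3 h1 h2 h3.ge hδ hq' hb hw1 hw2 with
    ⟨r, hr, k1, k2, k3⟩ | ⟨r, hr, k1, k2, k3⟩
  · exact Or.inl ⟨s, t + r, hs, by linarith, by linarith, by linarith, by linarith⟩
  · exact Or.inr ⟨s, t + r, hs, by linarith, by linarith, by linarith, by linarith⟩

open Classical in
theorem lemG (a1 a2 a3 b1 b2 b3 : ℝ) (hδ : a2 * b3 - a3 * b2 ≠ 0) (hq : a1 * b2 - a2 * b1 ≠ 0)
    (hv1 : ¬(a1 = 0 ∧ 0 < a2 ∧ 0 < a3)) (hv2 : ¬(a2 = 0 ∧ 0 < a1 ∧ 0 < a3))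
    (hw1 : ¬(b1 = 0 ∧ 0 < b2 ∧ 0 < b3)) (hw2 : ¬(b2 = 0 ∧ 0 < b1 ∧ 0 < b3)) :
    (if ∃ s t : ℝ, 0 < s ∧ 0 < t ∧ 0 < s * a1 + t * b1 ∧ 0 < s * a2 + t * b2 ∧
        s * a3 + t * b3 = 0 then (1 : ℤ) else 0) ≤
      (if ∃ s t : ℝ, 0 < s ∧ 0 < t ∧ 0 < s * a1 + t * b1 ∧ s * a2 + t * b2 = 0 ∧
        0 < s * a3 + t * b3 then (1 : ℤ) else 0) +
      (if ∃ s t : ℝ, 0 < s ∧ 0 < t ∧ s * a1 + t * b1 = 0 ∧ 0 < s * a2 + t * b2 ∧
        0 < s * a3 + t * b3 then (1 : ℤ) else 0) +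
      (if 0 < a1 ∧ 0 < a2 ∧ 0 < a3 then sg (a3 * b2 - a2 * b3) else 0) +
      (if 0 < b1 ∧ 0 < b2 ∧ 0 < b3 then sg (b3 * a2 - b2 * a3) else 0) := by
  change (if J3 a1 a2 a3 b1 b2 b3 then (1 : ℤ) else 0) ≤
    (if J2 a1 a2 a3 b1 b2 b3 then (1 : ℤ) else 0) + (if J1 a1 a2 a3 b1 b2 b3 then (1 : ℤ) else 0) +
      (if 0 < a1 ∧ 0 < a2 ∧ 0 < a3 then sg (a3 * b2 - a2 * b3) else 0) +
      (if 0 < b1 ∧ 0 < b2 ∧ 0 < b3 then sg (b3 * a2 - b2 * a3) else 0)
  have hq' : b1 * a2 - b2 * a1 ≠ 0 := fun h => hq (by linarith)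
  have n3 : (if J3 a1 a2 a3 b1 b2 b3 then (1 : ℤ) else 0) ≤ 1 := by split_ifs <;> norm_num
  have n2 : 0 ≤ (if J2 a1 a2 a3 b1 b2 b3 then (1 : ℤ) else 0) := by split_ifs <;> norm_num
  have n1 : 0 ≤ (if J1 a1 a2 a3 b1 b2 b3 then (1 : ℤ) else 0) := by split_ifs <;> norm_num
  have comb : (J2 a1 a2 a3 b1 b2 b3 ∨ J1 a1 a2 a3 b1 b2 b3) →
      1 ≤ (if J2 a1 a2 a3 b1 b2 b3 then (1 : ℤ) else 0) +
        (if J1 a1 a2 a3 b1 b2 b3 then (1 : ℤ) else 0) := by
    rintro (h | h)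
    · rw [if_pos h]
      linarith
    · rw [if_pos h]
      linarith
  have sp : ∀ x : ℝ, 0 < x → sg x = 1 := fun x hx => by unfold sg; rw [if_pos hx]
  have sn : ∀ x : ℝ, x < 0 → sg x = -1 := fun x hx => by
    unfold sg
    rw [if_neg (not_lt.2 hx.le), if_pos hx]
  by_cases ha : 0 < a1 ∧ 0 < a2 ∧ 0 < a3
  · by_cases hb : 0 < b1 ∧ 0 < b2 ∧ 0 < b3
    · have h3 : ¬ J3 a1 a2 a3 b1 b2 b3 := by
        rintro ⟨s, t, hs, ht, h1, h2, h3⟩
        have h4 := mul_pos hs ha.2.2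
        have h5 := mul_pos ht hb.2.2
        linarith
      rw [if_neg h3, if_pos ha, if_pos hb]
      rcases lt_or_gt_of_ne hδ with h | h
      · rw [sp _ (by linarith), sn _ (by linarith)]
        linarith
      · rw [sn _ (by linarith), sp _ (by linarith)]
        linarith
    · rw [if_pos ha, if_neg hb]
      rcases lt_or_gt_of_ne hδ with h | h
      · rw [sp _ (by linarith)]
        linarith
      · obtain ⟨k1, k2⟩ := lemG_one a1 a2 a3 b1 b2 b3 h hq ha hb hw1 hw2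
        rw [if_neg k1, sn _ (by linarith)]
        have := comb k2
        linarith
  · by_cases hb : 0 < b1 ∧ 0 < b2 ∧ 0 < b3
    · rw [if_neg ha, if_pos hb]
      rcases lt_or_gt_of_ne hδ with h | h
      · obtain ⟨k1, k2⟩ := lemG_one b1 b2 b3 a1 a2 a3 (by linarith) hq' hb ha hv1 hv2
        rw [if_neg (fun h => k1 (J3_swap h)), sn _ (by linarith)]
        have := comb (k2.imp J2_swap J1_swap)
        linarith
      · rw [sp _ (by linarith)]
        linarith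
    · rw [if_neg ha, if_neg hb]
      by_cases h3 : J3 a1 a2 a3 b1 b2 b3
      · rw [if_pos h3]
        have h4 : 0 < b3 ∨ 0 < a3 := by
          obtain ⟨s, t, hs, ht, k1, k2, k3⟩ := h3
          by_contra hcon
          rw [not_or, not_lt, not_lt] at hcon
          have h5 := mul_nonneg hs.le (neg_nonneg.2 hcon.2)
          have h6 := mul_nonneg ht.le (neg_nonneg.2 hcon.1)
          have h7 : s * -a3 = 0 := by linarith
          have h8 : t * -b3 = 0 := by linarith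
          have h9 : a3 = 0 := by
            rcases mul_eq_zero.1 h7 with h | h
            · exact absurd h hs.ne'
            · linarith
          have h10 : b3 = 0 := by
            rcases mul_eq_zero.1 h8 with h | h
            · exact absurd h ht.ne'
            · linarith
          apply hδ
          rw [h9, h10]
          ring
        rcases h4 with h4 | h4
        · have := comb (lemG_none a1 a2 a3 b1 b2 b3 hq hb hw1 hw2 h4 h3)
          linarith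
        · have := comb ((lemG_none b1 b2 b3 a1 a2 a3 hq' ha hv1 hv2 h4
            (J3_swap h3)).imp J2_swap J1_swap)
          linarith
      · rw [if_neg h3]
        linarith

end Pool.Agent.HP3
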