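import Pool.Agent.HP3.LovA
import Pool.Agent.HP3.Bal
import Pool.Agent.HP3.Gen

/-!
# Lovasz' lemma: a line meets few near halving triangles (module Lov)

PROOF. If the counted set is not empty then `n ≥ 5`. `u = p_q - p_p`, `Y i = p_i - p_p`,
`d i j = dt u (Y i) (Y j)` (nonzero for different `i, j ∉ {p, q}`: it is `ori x p q i j`; zero if `i`
or `j` is `p` or `q`). Choose `w` with `M i = dt u w (Y i) ≠ 0` for all `i ∉ {p, q}` (`exists_generic`
for the vectors `crs (Y i) u`, which are not zero by `GP`); `M p = M q = 0`. Identities (ring):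
`M a * d b c + M b * d c a + M c * d a b = 0`,
`dt u (Y c - Y b) (Y a - Y b) = d a b + d b c + d c a`. `TriX p q a b c` implies that
`d a b, d b c, d c a` have the same sign (subtract `p`: `t u = α Y a + β Y b + γ Y c`; take
`dt u (Y a)`: `β d a b = γ d c a`, and so on). Sum `lovA` over all ordered triples with `NH`: the
six sums on the right are equal (rename the variables, `NH` is symmetric), so the number in question
is at most `6 ∑_{(b, c) : M b < 0 < M c, 0 < d b c} ∑_{a : NH b c a} sg (dt u (Y c - Y b) (Y a - Y b))`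
and the inner sum is at most `4` by `bal_yr` for the point `b`, the vector `u` and the vertex `c`.
-/

set_option autoImplicit false

namespace Pool.Agent.HP3

variable {n : ℕ} {x : Fin n × Fin 3 → ℝ}

private lemma lo_rel (u w A B C : V3) :
    dt u w A * dt u B C + dt u w B * dt u C A + dt u w C * dt u A B = 0 := by
  unfold dt
  ring

private lemma lo_delta (u A B C P : V3) :
    dt u (C - B) (A - B) = dt u (A - P) (B - P) + dt u (B - P) (C - P) + dt u (C - P) (A - P) := by
  unfold dt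
  simp only [Pi.sub_apply]
  ring

private lemma lo_dot (u w Y : V3) : dt u w Y = dot (crs Y u) w := by
  unfold dt dot crs
  simp only [Matrix.cons_val_zero, Matrix.cons_val_one, Matrix.cons_val]
  ring

private lemma lo_crs (u Y Z : V3) (h : crs Y u = 0) : dt u Y Z = 0 := by
  have h1 : dt u Y Z = -dot (crs Y u) Z := by
    unfold dt dot crs
    simp only [Matrix.cons_val_zero, Matrix.cons_val_one, Matrix.cons_val]
    ring
  rw [h1, h]
  unfold dot
  simp

private lemma lo_self (u Z : V3) : dt u u Z = 0 := by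
  unfold dt
  ring

private lemma lo_self' (u Z : V3) : dt u Z u = 0 := by
  unfold dt
  ring

private lemma lo_zero (u Z : V3) : dt u 0 Z = 0 := by
  unfold dt
  simp

private lemma lo_zero' (u Z : V3) : dt u Z 0 = 0 := by
  unfold dt
  simp

/-- signs of the three determinants if the segment meets the triangle -/
private lemma lo_tri {P Q A B C : V3} (h : TriX P Q A B C) :
    ∃ α β γ : ℝ, 0 < α ∧ 0 < β ∧ 0 < γ ∧
      β * dt (Q - P) (A - P) (B - P) = γ * dt (Q - P) (C - P) (A - P) ∧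
      γ * dt (Q - P) (B - P) (C - P) = α * dt (Q - P) (A - P) (B - P) := by
  obtain ⟨s, t, α, β, γ, hs, ht, hst, hα, hβ, hγ, hsum, heq⟩ := h
  refine ⟨α, β, γ, hα, hβ, hγ, ?_, ?_⟩
  · have e0 := congrFun heq 0
    have e1 := congrFun heq 1
    have e2 := congrFun heq 2
    simp only [Pi.add_apply, Pi.smul_apply, smul_eq_mul] at e0 e1 e2
    have k0 : t * (Q 0 - P 0) = α * (A 0 - P 0) + β * (B 0 - P 0) + γ * (C 0 - P 0) := by
      linear_combination e0 + P 0 * hsum - P 0 * hst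
    have k1 : t * (Q 1 - P 1) = α * (A 1 - P 1) + β * (B 1 - P 1) + γ * (C 1 - P 1) := by
      linear_combination e1 + P 1 * hsum - P 1 * hst
    have k2 : t * (Q 2 - P 2) = α * (A 2 - P 2) + β * (B 2 - P 2) + γ * (C 2 - P 2) := by
      linear_combination e2 + P 2 * hsum - P 2 * hst
    unfold dt
    simp only [Pi.sub_apply]
    linear_combination (-1) * (((Q 1 - P 1) * (A 2 - P 2) - (Q 2 - P 2) * (A 1 - P 1)) * k0 +
      ((Q 2 - P 2) * (A 0 - P 0) - (Q 0 - P 0) * (A 2 - P 2)) * k1 +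
      ((Q 0 - P 0) * (A 1 - P 1) - (Q 1 - P 1) * (A 0 - P 0)) * k2)
  · have e0 := congrFun heq 0
    have e1 := congrFun heq 1
    have e2 := congrFun heq 2
    simp only [Pi.add_apply, Pi.smul_apply, smul_eq_mul] at e0 e1 e2
    have k0 : t * (Q 0 - P 0) = α * (A 0 - P 0) + β * (B 0 - P 0) + γ * (C 0 - P 0) := by
      linear_combination e0 + P 0 * hsum - P 0 * hst
    have k1 : t * (Q 1 - P 1) = α * (A 1 - P 1) + β * (B 1 - P 1) + γ * (C 1 - P 1) := by
      linear_combination e1 + P 1 * hsum - P 1 * hst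
    have k2 : t * (Q 2 - P 2) = α * (A 2 - P 2) + β * (B 2 - P 2) + γ * (C 2 - P 2) := by
      linear_combination e2 + P 2 * hsum - P 2 * hst
    unfold dt
    simp only [Pi.sub_apply]
    linear_combination (-1) * (((Q 1 - P 1) * (B 2 - P 2) - (Q 2 - P 2) * (B 1 - P 1)) * k0 +
      ((Q 2 - P 2) * (B 0 - P 0) - (Q 0 - P 0) * (B 2 - P 2)) * k1 +
      ((Q 0 - P 0) * (B 1 - P 1) - (Q 1 - P 1) * (B 0 - P 0)) * k2)

private lemma lo_sign {α β γ p q r : ℝ} (hα : 0 < α) (hβ : 0 < β) (hγ : 0 < γ)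
    (h1 : β * p = γ * r) (h2 : γ * q = α * p) (hp : p ≠ 0) :
    (0 < p ∧ 0 < q ∧ 0 < r) ∨ (p < 0 ∧ q < 0 ∧ r < 0) := by
  rcases lt_or_gt_of_ne hp with h | h
  · right
    refine ⟨h, ?_, ?_⟩
    · have : γ * q < 0 := by
        rw [h2]
        exact mul_neg_of_pos_of_neg hα h
      by_contra h3
      push Not at h3
      have := mul_nonneg hγ.le h3
      linarith
    · have : γ * r < 0 := by
        rw [← h1]
        exact mul_neg_of_pos_of_neg hβ h
      by_contra h3
      push Not at h3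
      have := mul_nonneg hγ.le h3
      linarith
  · left
    refine ⟨h, ?_, ?_⟩
    · have : 0 < γ * q := by
        rw [h2]
        exact mul_pos hα h
      exact (mul_pos_iff_of_pos_left hγ).mp this
    · have : 0 < γ * r := by
        rw [← h1]
        exact mul_pos hβ h
      exact (mul_pos_iff_of_pos_left hγ).mp this

private lemma lo_rot (g : Fin n → Fin n → Fin n → ℤ) :
    ∑ a, ∑ b, ∑ c, g b c a = ∑ a, ∑ b, ∑ c, g a b c := by
  rw [Finset.sum_comm]
  refine Finset.sum_congr rfl fun b _ => ?_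
  rw [Finset.sum_comm]

private lemma lo_sw1 (g : Fin n → Fin n → Fin n → ℤ) :
    ∑ a, ∑ b, ∑ c, g b a c = ∑ a, ∑ b, ∑ c, g a b c := Finset.sum_comm

private lemma lo_sw2 (g : Fin n → Fin n → Fin n → ℤ) :
    ∑ a, ∑ b, ∑ c, g a c b = ∑ a, ∑ b, ∑ c, g a b c :=
  Finset.sum_congr rfl fun _ _ => Finset.sum_comm

open Classical in
theorem lovasz (h : GP x) {p q : Fin n} (hpq : p ≠ q) :
    (Finset.univ.filter fun r : Fin n × Fin n × Fin n =>
      NH x r.1 r.2.1 r.2.2 ∧ r.1 ≠ p ∧ r.1 ≠ q ∧ r.2.1 ≠ p ∧ r.2.1 ≠ q ∧ r.2.2 ≠ p ∧ r.2.2 ≠ q ∧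
      TriX (pt x p) (pt x q) (pt x r.1) (pt x r.2.1) (pt x r.2.2)).card ≤ 24 * n ^ 2 := by
  set S := Finset.univ.filter fun r : Fin n × Fin n × Fin n =>
      NH x r.1 r.2.1 r.2.2 ∧ r.1 ≠ p ∧ r.1 ≠ q ∧ r.2.1 ≠ p ∧ r.2.1 ≠ q ∧ r.2.2 ≠ p ∧ r.2.2 ≠ q ∧
      TriX (pt x p) (pt x q) (pt x r.1) (pt x r.2.1) (pt x r.2.2) with hS
  by_cases hne : S.Nonempty
  swap
  · rw [Finset.not_nonempty_iff_eq_empty] at hne
    rw [hne, Finset.card_empty]
    exact Nat.zero_le _
  obtain ⟨⟨i0, j0, k0⟩, hr⟩ := hne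
  rw [hS, Finset.mem_filter] at hr
  obtain ⟨-, hNH0, hi1, hi2, hj1, hj2, hk1, hk2, -⟩ := hr
  simp only at hNH0 hi1 hi2 hj1 hj2 hk1 hk2
  set u : V3 := pt x q - pt x p with hu
  set Y : Fin n → V3 := fun i => pt x i - pt x p with hY
  set d : Fin n → Fin n → ℝ := fun i j => dt u (Y i) (Y j) with hd
  have hYp : Y p = 0 := sub_self _
  have hYq : Y q = u := rfl
  have hdne : ∀ i j, i ≠ p → i ≠ q → j ≠ p → j ≠ q → i ≠ j → d i j ≠ 0 := by
    intro i j h1 h2 h3 h4 h5
    exact h p q i j hpq (Ne.symm h1) (Ne.symm h3) (Ne.symm h2) (Ne.symm h4) h5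
  have hd0 : ∀ i j, i = p ∨ i = q → d i j = 0 ∧ d j i = 0 := by
    rintro i j (rfl | rfl)
    · exact ⟨by simp only [hd]; rw [hYp]; exact lo_zero _ _,
        by simp only [hd]; rw [hYp]; exact lo_zero' _ _⟩
    · exact ⟨by simp only [hd]; rw [hYq]; exact lo_self _ _,
        by simp only [hd]; rw [hYq]; exact lo_self' _ _⟩
  have hcr : ∀ i, i ≠ p → i ≠ q → crs (Y i) u ≠ 0 := by
    intro i h1 h2 h3
    have hz : ∀ j, d i j = 0 := fun j => lo_crs u (Y i) (Y j) h3
    by_cases h4 : i = i0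
    · refine hdne i j0 h1 h2 hj1 hj2 ?_ (hz j0)
      rw [h4]
      exact hNH0.1
    · exact hdne i i0 h1 h2 hi1 hi2 h4 (hz i0)
  obtain ⟨w, hw⟩ := exists_generic
    (S := (fun i : Fin n => crs (Y i) u) '' {i | i ≠ p ∧ i ≠ q})
    ((Set.toFinite _).image _) (by
      rintro v ⟨i, hi, rfl⟩
      exact hcr i hi.1 hi.2)
  set M : Fin n → ℝ := fun i => dt u w (Y i) with hM
  have hMne : ∀ i, i ≠ p → i ≠ q → M i ≠ 0 := by
    intro i h1 h2
    have := hw (crs (Y i) u) ⟨i, ⟨h1, h2⟩, rfl⟩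
    rw [← lo_dot] at this
    exact this
  have hM0 : ∀ i, M i = 0 → i = p ∨ i = q := by
    intro i h1
    by_contra h2
    push Not at h2
    exact hMne i h2.1 h2.2 h1
  have hM1 : ∀ i, M i ≠ 0 → i ≠ p ∧ i ≠ q := by
    intro i h1
    constructor
    · rintro rfl
      apply h1
      simp only [hM]
      rw [hYp]
      exact lo_zero' _ _
    · rintro rfl
      apply h1
      simp only [hM]
      rw [hYq]
      exact lo_self' _ _
  have hanti : ∀ i j, d j i = -d i j := by
    intro i j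
    simp only [hd]
    exact dt_swap23 u (Y i) (Y j)
  set G : Fin n → Fin n → Fin n → ℤ := fun a b c =>
    if NH x a b c then hh (M a) (M b) (d a b) (d a b + d b c + d c a) else 0 with hG
  have hkey : ∀ a b c, (if NH x a b c ∧ a ≠ p ∧ a ≠ q ∧ b ≠ p ∧ b ≠ q ∧ c ≠ p ∧ c ≠ q ∧
      TriX (pt x p) (pt x q) (pt x a) (pt x b) (pt x c) then (1 : ℤ) else 0) ≤
      G a b c + G b c a + G c a b + G b a c + G c b a + G a c b := by
    intro a b c
    by_cases hNH : NH x a b c
    swap
    · have n1 : ¬ NH x b c a := fun h1 => hNH h1.cyc.cyc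
      have n2 : ¬ NH x c a b := fun h1 => hNH h1.cyc
      have n3 : ¬ NH x b a c := fun h1 => hNH (h1.cyc.swap h)
      have n4 : ¬ NH x c b a := fun h1 => hNH (h1.swap h).cyc
      have n5 : ¬ NH x a c b := fun h1 => hNH (h1.swap h)
      simp only [hG, if_neg hNH, if_neg n1, if_neg n2, if_neg n3, if_neg n4, if_neg n5]
      rw [if_neg (fun h1 => hNH h1.1)]
      norm_num
    have p1 : NH x b c a := hNH.cyc
    have p2 : NH x c a b := p1.cyc
    have p3 : NH x b a c := p1.swap h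
    have p4 : NH x c b a := p2.swap h
    have p5 : NH x a c b := hNH.swap h
    have hab := hNH.1
    have hbc := hNH.2.1
    have hac := hNH.2.2.1
    simp only [hG, if_pos hNH, if_pos p1, if_pos p2, if_pos p3, if_pos p4, if_pos p5]
    have hl := lovA (M a) (M b) (M c) (d a b) (d b c) (d c a) (lo_rel u w (Y a) (Y b) (Y c))
      (fun h1 => ⟨(hd0 a b (hM0 a h1)).1, (hd0 a c (hM0 a h1)).2⟩)
      (fun h1 => ⟨(hd0 b a (hM0 b h1)).2, (hd0 b c (hM0 b h1)).1⟩)
      (fun h1 => ⟨(hd0 c b (hM0 c h1)).2, (hd0 c a (hM0 c h1)).1⟩)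
      (fun h1 h2 => hdne a b (hM1 a h1).1 (hM1 a h1).2 (hM1 b h2).1 (hM1 b h2).2 hab)
      (fun h1 h2 => hdne b c (hM1 b h1).1 (hM1 b h1).2 (hM1 c h2).1 (hM1 c h2).2 hbc)
      (fun h1 h2 => hdne c a (hM1 c h1).1 (hM1 c h1).2 (hM1 a h2).1 (hM1 a h2).2 (Ne.symm hac))
    have e1 : d b c + d c a + d a b = d a b + d b c + d c a := by ring
    have e2 : d c a + d a b + d b c = d a b + d b c + d c a := by ring
    have e3 : d b a + d a c + d c b = -(d a b + d b c + d c a) := by
      rw [hanti a b, hanti c a, hanti b c]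
      ring
    have e4 : d c b + d b a + d a c = -(d a b + d b c + d c a) := by
      rw [hanti a b, hanti c a, hanti b c]
      ring
    have e5 : d a c + d c b + d b a = -(d a b + d b c + d c a) := by
      rw [hanti a b, hanti c a, hanti b c]
      ring
    rw [e1, e2, e3, e4, e5, hanti a b, hanti b c, hanti c a]
    refine le_trans ?_ hl
    by_cases hT : NH x a b c ∧ a ≠ p ∧ a ≠ q ∧ b ≠ p ∧ b ≠ q ∧ c ≠ p ∧ c ≠ q ∧
      TriX (pt x p) (pt x q) (pt x a) (pt x b) (pt x c)
    · rw [if_pos hT, if_pos]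
      obtain ⟨-, g1, g2, g3, g4, -, -, g7⟩ := hT
      obtain ⟨α, β, γ, hα, hβ, hγ, t1, t2⟩ := lo_tri g7
      exact lo_sign hα hβ hγ t1 t2 (hdne a b g1 g2 g3 g4 hab)
    · rw [if_neg hT]
      split_ifs <;> norm_num
  have hG4 : ∀ a b, ∑ c, G a b c ≤ 4 := by
    intro a b
    by_cases hc : M a < 0 ∧ 0 < M b ∧ 0 < d a b
    · have hba : b ≠ a := by
        rintro rfl
        linarith [hc.1, hc.2.1]
      have h1 := bal_yr h a u ⟨b, hba⟩
      have h2 : (∑ j : {j : Fin n // j ≠ a},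
          if Ar x a ⟨b, hba⟩ j then sg (dt u (yr x a ⟨b, hba⟩) (yr x a j)) else 0) =
          ∑ c, G a b c := by
        have h3 := Finset.sum_subtype (Finset.univ.filter fun j : Fin n => j ≠ a)
          (F := inferInstance) (p := fun j => j ≠ a) (fun j => by simp)
          (fun j : Fin n => G a b j)
        have h4 : ∑ c, G a b c = ∑ c ∈ Finset.univ.filter (fun j : Fin n => j ≠ a), G a b c := by
          rw [Finset.sum_filter]
          refine Finset.sum_congr rfl fun c _ => ?_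
          by_cases hca : c ≠ a
          · rw [if_pos hca]
          · rw [if_neg hca]
            simp only [hG]
            rw [if_neg]
            rintro ⟨-, -, h5, -⟩
            exact hca (Ne.symm h5)
        rw [h4, h3]
        refine Finset.sum_congr rfl fun c _ => ?_
        show (if NH x a b (c : Fin n) then _ else _) = G a b c
        simp only [hG]
        by_cases hN : NH x a b (c : Fin n)
        · rw [if_pos hN, if_pos hN, hh, if_pos hc]
          congr 1
          have h5 := lo_delta u (pt x (c : Fin n)) (pt x a) (pt x b) (pt x p)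
          show dt u (pt x b - pt x a) (pt x (c : Fin n) - pt x a) = _
          rw [h5]
          show d c a + d a b + d b c = _
          ring
        · rw [if_neg hN, if_neg hN]
      rw [h2] at h1
      exact (abs_le.mp h1).2
    · have h1 : ∑ c, G a b c = 0 := by
        refine Finset.sum_eq_zero fun c _ => ?_
        simp only [hG]
        rw [hh, if_neg hc, ite_self]
      rw [h1]
      norm_num
  have hcard : (S.card : ℤ) = ∑ a, ∑ b, ∑ c, (if NH x a b c ∧ a ≠ p ∧ a ≠ q ∧ b ≠ p ∧ b ≠ q ∧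
      c ≠ p ∧ c ≠ q ∧ TriX (pt x p) (pt x q) (pt x a) (pt x b) (pt x c) then (1 : ℤ) else 0) := by
    rw [hS, Finset.card_filter]
    push_cast
    rw [Fintype.sum_prod_type]
    refine Finset.sum_congr rfl fun a _ => ?_
    rw [Fintype.sum_prod_type]
  have hG6 : ∑ a, ∑ b, ∑ c, G a b c ≤ 4 * (n : ℤ) ^ 2 := by
    calc ∑ a, ∑ b, ∑ c, G a b c ≤ ∑ a : Fin n, ∑ b : Fin n, (4 : ℤ) :=
          Finset.sum_le_sum fun a _ => Finset.sum_le_sum fun b _ => hG4 a b
      _ = 4 * (n : ℤ) ^ 2 := by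
          simp only [Finset.sum_const, Finset.card_univ, Fintype.card_fin, nsmul_eq_mul]
          ring
  have hfin : (S.card : ℤ) ≤ 24 * (n : ℤ) ^ 2 := by
    rw [hcard]
    have h1 : ∑ a, ∑ b, ∑ c, (if NH x a b c ∧ a ≠ p ∧ a ≠ q ∧ b ≠ p ∧ b ≠ q ∧
      c ≠ p ∧ c ≠ q ∧ TriX (pt x p) (pt x q) (pt x a) (pt x b) (pt x c) then (1 : ℤ) else 0) ≤
        ∑ a, ∑ b, ∑ c, (G a b c + G b c a + G c a b + G b a c + G c b a + G a c b) :=
      Finset.sum_le_sum fun a _ => Finset.sum_le_sum fun b _ => Finset.sum_le_sum fun c _ =>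
        hkey a b c
    have h2 : ∑ a, ∑ b, ∑ c, (G a b c + G b c a + G c a b + G b a c + G c b a + G a c b) =
        6 * ∑ a, ∑ b, ∑ c, G a b c := by
      simp only [Finset.sum_add_distrib]
      have r1 := lo_rot G
      have r2 : ∑ a, ∑ b, ∑ c, G c a b = ∑ a, ∑ b, ∑ c, G a b c := by
        rw [← lo_rot G, ← lo_rot (fun a b c => G b c a)]
      have r3 := lo_sw1 G
      have r5 := lo_sw2 G
      have r4 : ∑ a, ∑ b, ∑ c, G c b a = ∑ a, ∑ b, ∑ c, G a b c := by
        rw [← lo_rot G, ← lo_sw2 (fun a b c => G b c a)]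
      rw [r1, r2, r3, r4, r5]
      ring
    rw [h2] at h1
    linarith
  exact_mod_cast hfin

end Pool.Agent.HP3
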