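import Pool.Agent.HP3.Sym

/-!
# Signs for a triangle, a point and a ray in the plane (module LovA)

`Ma, Mb, Mc`: on which side of the line of the ray the three vertices are; `dab, dbc, dca`: the
determinants of the vertices seen from the point; the point is in the triangle iff they have the
same sign. `hh Mi Mj dij Δ`: the edge from `i` (negative side) to `j` (positive side) crosses the
ray, with the sign of the third vertex.
PROOF: case distinction on the signs of `Ma, Mb, Mc`. All nonzero and equal: nothing crosses and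
`hrel` forbids equal signs of the `d`. One of another sign, say `Ma < 0 < Mb, Mc`: the right side
is `sg Δ ([0 < dab] - [dca < 0])`; if `dab, dca > 0`, then `dbc > 0` by `hrel` and the sum is `1`;
if both are negative then `dbc < 0` and the sum is `1`; otherwise `0`. One of them zero, say `Ma`:
`dab = dca = 0`, `Δ = dbc`, every term is `≥ 0` and the left side is `0`.
-/

set_option autoImplicit false

namespace Pool.Agent.HP3

open Classical in
/-- signed crossing of an edge with the ray -/
noncomputable def hh (Mi Mj dij Δ : ℝ) : ℤ := if Mi < 0 ∧ 0 < Mj ∧ 0 < dij then sg Δ else 0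

private theorem sgneg (t : ℝ) : sg (-t) = - sg t := by
  unfold sg
  rcases lt_trichotomy t 0 with h | h | h
  · rw [if_pos (by linarith), if_neg (by linarith), if_pos h]
    norm_num
  · subst h
    simp
  · rw [if_neg (by linarith), if_pos (by linarith), if_pos h]

private theorem sgpos {t : ℝ} (h : 0 < t) : sg t = 1 := by
  unfold sg
  rw [if_pos h]

private theorem sgnegv {t : ℝ} (h : t < 0) : sg t = -1 := by
  unfold sg
  rw [if_neg (by linarith), if_pos h]

private theorem hhp {Mi Mj dij D : ℝ} (h1 : Mi < 0) (h2 : 0 < Mj) (h3 : 0 < dij) :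
    hh Mi Mj dij D = sg D := by
  unfold hh
  rw [if_pos ⟨h1, h2, h3⟩]

private theorem hh0 {Mi Mj dij D : ℝ} (h : ¬ (Mi < 0 ∧ 0 < Mj ∧ 0 < dij)) :
    hh Mi Mj dij D = 0 := by
  unfold hh
  rw [if_neg h]

open Classical in
theorem lovA (Ma Mb Mc dab dbc dca : ℝ) (hrel : Ma * dbc + Mb * dca + Mc * dab = 0)
    (ha : Ma = 0 → dab = 0 ∧ dca = 0) (hb : Mb = 0 → dab = 0 ∧ dbc = 0)
    (hc : Mc = 0 → dbc = 0 ∧ dca = 0) (hab : Ma ≠ 0 → Mb ≠ 0 → dab ≠ 0)
    (hbc : Mb ≠ 0 → Mc ≠ 0 → dbc ≠ 0) (hca : Mc ≠ 0 → Ma ≠ 0 → dca ≠ 0) :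
    (if (0 < dab ∧ 0 < dbc ∧ 0 < dca) ∨ (dab < 0 ∧ dbc < 0 ∧ dca < 0) then (1 : ℤ) else 0) ≤
      hh Ma Mb dab (dab + dbc + dca) + hh Mb Mc dbc (dab + dbc + dca) +
      hh Mc Ma dca (dab + dbc + dca) + hh Mb Ma (-dab) (-(dab + dbc + dca)) +
      hh Mc Mb (-dbc) (-(dab + dbc + dca)) + hh Ma Mc (-dca) (-(dab + dbc + dca)) := by
  have key : ∀ s : ℤ, sg (dab + dbc + dca) = s →
    (if (0 < dab ∧ 0 < dbc ∧ 0 < dca) ∨ (dab < 0 ∧ dbc < 0 ∧ dca < 0) then (1 : ℤ) else 0) ≤
      (if Ma < 0 ∧ 0 < Mb ∧ 0 < dab then s else 0) + (if Mb < 0 ∧ 0 < Mc ∧ 0 < dbc then s else 0) +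
      (if Mc < 0 ∧ 0 < Ma ∧ 0 < dca then s else 0) + (if Mb < 0 ∧ 0 < Ma ∧ dab < 0 then -s else 0) +
      (if Mc < 0 ∧ 0 < Mb ∧ dbc < 0 then -s else 0) + (if Ma < 0 ∧ 0 < Mc ∧ dca < 0 then -s else 0) := by
    intro s hs
    have hp : 0 < dab + dbc + dca → s = 1 := fun h => by rw [← hs, sgpos h]
    have hn : dab + dbc + dca < 0 → s = -1 := fun h => by rw [← hs, sgnegv h]
    by_cases hMa : Ma = 0
    · obtain ⟨e1, e2⟩ := ha hMa
      subst hMa e1 e2
      simp only [lt_self_iff_false, false_and, and_false, or_self, if_false, true_and, false_or,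
        add_zero, zero_add] at hp hn ⊢
      split_ifs with c1 c2 c2
      · have := hp c1.2.2; omega
      · have := hp c1.2.2; omega
      · have := hn c2.2.2; omega
      · omega
    by_cases hMb : Mb = 0
    · obtain ⟨e1, e2⟩ := hb hMb
      subst hMb e1 e2
      simp only [lt_self_iff_false, false_and, and_false, or_self, if_false, true_and, false_or,
        add_zero, zero_add] at hp hn ⊢
      split_ifs with c1 c2 c2
      · have := hp c1.2.2; omega
      · have := hp c1.2.2; omega
      · have := hn c2.2.2; omega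
      · omega
    by_cases hMc : Mc = 0
    · obtain ⟨e1, e2⟩ := hc hMc
      subst hMc e1 e2
      simp only [lt_self_iff_false, false_and, and_false, or_self, if_false, true_and, false_or,
        add_zero, zero_add] at hp hn ⊢
      split_ifs with c1 c2 c2
      · have := hp c1.2.2; omega
      · have := hp c1.2.2; omega
      · have := hn c2.2.2; omega
      · omega
    rcases lt_or_gt_of_ne (hab hMa hMb) with h4 | h4 <;>
    rcases lt_or_gt_of_ne (hbc hMb hMc) with h5 | h5 <;>
    rcases lt_or_gt_of_ne (hca hMc hMa) with h6 | h6 <;>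
    rcases lt_or_gt_of_ne hMa with h1 | h1 <;>
    rcases lt_or_gt_of_ne hMb with h2 | h2 <;>
    rcases lt_or_gt_of_ne hMc with h3 | h3 <;>
    first
    | (exfalso; nlinarith)
    | (have e := hp (by linarith); simp [h1, h2, h3, h4, h5, h6, lt_asymm h1, lt_asymm h2, lt_asymm h3,
        lt_asymm h4, lt_asymm h5, lt_asymm h6, e])
    | (have e := hn (by linarith); simp [h1, h2, h3, h4, h5, h6, lt_asymm h1, lt_asymm h2, lt_asymm h3,
        lt_asymm h4, lt_asymm h5, lt_asymm h6, e])
    | (simp [h1, h2, h3, h4, h5, h6, lt_asymm h1, lt_asymm h2, lt_asymm h3,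
        lt_asymm h4, lt_asymm h5, lt_asymm h6])
  have h := key _ rfl
  unfold hh
  rw [sgneg]
  simp only [neg_pos]
  exact h

end Pool.Agent.HP3
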