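import Pool.Agent.HP3.Depth
import Pool.Agent.HP3.ArcTri
import Pool.Agent.HP3.Hlv
import Pool.Agent.HP3.IsoX

/-!
# The theorem (module Main)
-/

set_option autoImplicit false

namespace Pool.Agent.HP3

variable {n : ℕ} {x : Fin n × Fin 3 → ℝ}

theorem exists_depth (r : Fin n) : ∃ u : V3, u ≠ 0 ∧
    depth x r = (Finset.univ.filter fun j => dot u (pt x r) ≤ dot u (pt x j)).card := by
  classical
  have h : {k : ℕ | ∃ u : V3, u ≠ 0 ∧
      k = (Finset.univ.filter fun j => dot u (pt x r) ≤ dot u (pt x j)).card}.Nonempty :=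
    ⟨_, fun _ => 1, fun h => one_ne_zero (congrFun h 0), rfl⟩
  obtain ⟨u, hu, h2⟩ := Nat.sInf_mem h
  refine ⟨u, hu, ?_⟩
  unfold depth
  convert h2 using 2

theorem dot_sub (u a b : V3) : dot u (a - b) = dot u a - dot u b := by
  unfold dot
  simp only [Pi.sub_apply]
  ring

/-- sharper form of `cut_depth` -/
theorem cut_depth' (h : GP x) (r : Fin n) {ν : V3}
    (hν : ∀ i j : Fin n, i ≠ j → dot ν (pt x i) ≠ dot ν (pt x j)) :
    cutN (yr x r) (Ar x r) ν ≤ n * (depth x r + 3) := by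
  classical
  obtain ⟨u, -, hu⟩ := exists_depth (x := x) r
  have hcard : Fintype.card {j : Fin n // j ≠ r} = n - 1 := by
    rw [Fintype.card_subtype_compl]
    simp
  have h1 := cut_le (link_yr h r) (ν := ν) (ν' := u) (by
    intro i
    have := hν i.1 r i.2
    unfold yr
    rw [dot_sub]
    exact sub_ne_zero.mpr this)
  have h2 : (Finset.univ.filter fun i : {j : Fin n // j ≠ r} => 0 ≤ dot u (yr x r i)).card + 1
      ≤ depth x r := by
    rw [hu]
    have hsub : (Finset.univ.filter fun i : {j : Fin n // j ≠ r} =>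
        0 ≤ dot u (yr x r i)).image Subtype.val ⊆
        (Finset.univ.filter fun j => dot u (pt x r) ≤ dot u (pt x j)).erase r := by
      intro j hj
      rw [Finset.mem_image] at hj
      obtain ⟨i, hi, rfl⟩ := hj
      rw [Finset.mem_filter] at hi
      rw [Finset.mem_erase, Finset.mem_filter]
      refine ⟨i.2, Finset.mem_univ _, ?_⟩
      have := hi.2
      unfold yr at this
      rw [dot_sub] at this
      linarith
    have h3 := Finset.card_le_card hsub
    rw [Finset.card_image_of_injective _ Subtype.val_injective] at h3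
    have hr : r ∈ (Finset.univ.filter fun j => dot u (pt x r) ≤ dot u (pt x j)) := by
      simp
    rw [Finset.card_erase_of_mem hr] at h3
    have h4 := Finset.card_pos.mpr ⟨r, hr⟩
    have h5 := Nat.add_le_add_right h3 1
    rw [Nat.sub_add_cancel h4] at h5
    exact h5
  rw [hcard] at h1
  set c := (Finset.univ.filter fun i : {j : Fin n // j ≠ r} => 0 ≤ dot u (yr x r i)).card with hc
  have h6 : cutN (yr x r) (Ar x r) ν ≤ (n - 1) * (4 + c) := by
    have e : (n - 1) * (4 + c) = 4 * (n - 1) + (n - 1) * c := by ring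
    rw [e]
    exact h1
  calc cutN (yr x r) (Ar x r) ν ≤ (n - 1) * (4 + c) := h6
    _ ≤ n * (depth x r + 3) := Nat.mul_le_mul (Nat.sub_le n 1) (by omega)

private theorem iso_yr (h : GP x) (r : Fin n) {ν : V3}
    (hν : ∀ i j : Fin n, i ≠ j → dot ν (pt x i) ≠ dot ν (pt x j)) :
    cutN (yr x r) (Ar x r) ν ^ 2 ≤ 32 * crN (yr x r) (Ar x r) + 1400 * n ^ 3 := by
  classical
  have hcard : Fintype.card {j : Fin n // j ≠ r} = n - 1 := by
    rw [Fintype.card_subtype_compl]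
    simp
  have h1 := iso (link_yr h r) (N := ν) (by
    intro i
    have := hν i.1 r i.2
    unfold yr
    rw [dot_sub]
    exact sub_ne_zero.mpr this)
  refine h1.trans ?_
  rw [hcard]
  have : (n - 1) ^ 3 ≤ n ^ 3 := Nat.pow_le_pow_left (Nat.sub_le n 1) 3
  omega

/-- the near halving triples with middle vertex in `N` -/
theorem sum_cut (h : GP x) {ν : V3}
    (hν : ∀ i j : Fin n, i ≠ j → dot ν (pt x i) ≠ dot ν (pt x j)) (N : Finset (Fin n)) :
    (∑ r ∈ N, (cutN (yr x r) (Ar x r) ν : ℝ)) ^ 2 ≤ 2936 * N.card * (n : ℝ) ^ 4 := by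
  classical
  have h1 : ∑ r ∈ N, (cutN (yr x r) (Ar x r) ν) ^ 2 ≤ 2936 * n ^ 4 := by
    calc ∑ r ∈ N, (cutN (yr x r) (Ar x r) ν) ^ 2
        ≤ ∑ r : Fin n, (cutN (yr x r) (Ar x r) ν) ^ 2 :=
          Finset.sum_le_sum_of_subset (Finset.subset_univ _)
      _ ≤ ∑ r : Fin n, (32 * crN (yr x r) (Ar x r) + 1400 * n ^ 3) :=
          Finset.sum_le_sum fun r _ => iso_yr h r hν
      _ = 32 * ∑ r : Fin n, crN (yr x r) (Ar x r) + 1400 * n ^ 4 := by
          rw [Finset.sum_add_distrib, ← Finset.mul_sum, Finset.sum_const, Finset.card_univ,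
            Fintype.card_fin, smul_eq_mul]
          ring
      _ ≤ 2936 * n ^ 4 := by
          have := sum_crN h
          omega
  have h2 : (∑ r ∈ N, (cutN (yr x r) (Ar x r) ν : ℝ)) ^ 2 ≤
      N.card * ∑ r ∈ N, (cutN (yr x r) (Ar x r) ν : ℝ) ^ 2 := sq_sum_le_card_mul_sum_sq
  have h3 : ∑ r ∈ N, (cutN (yr x r) (Ar x r) ν : ℝ) ^ 2 ≤ 2936 * (n : ℝ) ^ 4 := by
    exact_mod_cast h1
  calc (∑ r ∈ N, (cutN (yr x r) (Ar x r) ν : ℝ)) ^ 2
      ≤ N.card * ∑ r ∈ N, (cutN (yr x r) (Ar x r) ν : ℝ) ^ 2 := h2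
    _ ≤ N.card * (2936 * (n : ℝ) ^ 4) := by
        apply mul_le_mul_of_nonneg_left h3 (Nat.cast_nonneg _)
    _ = 2936 * N.card * (n : ℝ) ^ 4 := by ring

theorem halvings_two (x : Fin 2 × Fin 3 → ℝ) : SmH.halvings x ≤ 16 := by
  classical
  unfold SmH.halvings
  rw [Set.ncard_eq_toFinset_card']
  refine (Finset.card_le_univ _).trans ?_
  simp

theorem main (hn : Even n) (hn2 : 2 ≤ n) (hg : SmH.GenPos x) (N : Finset (Fin n)) :
    (SmH.halvings x : ℝ) ≤
      8 * n * ∑ p ∈ Nᶜ, ((depth x p : ℝ) + 3) + 434 * (n : ℝ) ^ 2 * √(N.card : ℝ) := by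
  classical
  by_cases h4 : 4 ≤ n
  · have h := gp_of_genPos hg
    obtain ⟨v, hv⟩ := exists_height h h4
    have h1 := halvings_le_cut hg hn h4 hv
    have h2 : (SmH.halvings x : ℝ) ≤
        8 * ∑ r : Fin n, (cutN (yr x r) (Ar x r) v : ℝ) := by exact_mod_cast h1
    have h3 : ∑ r : Fin n, (cutN (yr x r) (Ar x r) v : ℝ) =
        ∑ r ∈ Nᶜ, (cutN (yr x r) (Ar x r) v : ℝ) + ∑ r ∈ N, (cutN (yr x r) (Ar x r) v : ℝ) := by
      rw [add_comm, Finset.sum_add_sum_compl]
    have h5 : ∑ r ∈ Nᶜ, (cutN (yr x r) (Ar x r) v : ℝ) ≤ n * ∑ p ∈ Nᶜ, ((depth x p : ℝ) + 3) := by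
      rw [Finset.mul_sum]
      refine Finset.sum_le_sum fun r _ => ?_
      exact_mod_cast cut_depth' h r hv
    have h6 : ∑ r ∈ N, (cutN (yr x r) (Ar x r) v : ℝ) ≤ 54.25 * (n : ℝ) ^ 2 * √(N.card : ℝ) := by
      apply le_of_sq_le_sq _ (by positivity)
      refine (sum_cut h hv N).trans ?_
      have e : (54.25 * (n : ℝ) ^ 2 * √(N.card : ℝ)) ^ 2 =
          2943.0625 * (n : ℝ) ^ 4 * (√(N.card : ℝ)) ^ 2 := by ring
      rw [e, Real.sq_sqrt (Nat.cast_nonneg _)]
      have : (0 : ℝ) ≤ N.card * (n : ℝ) ^ 4 := by positivity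
      nlinarith
    rw [h3] at h2
    linarith
  · have hn' : n = 2 := by
      obtain ⟨k, hk⟩ := hn
      omega
    subst hn'
    have h16 : (SmH.halvings x : ℝ) ≤ 16 := by exact_mod_cast halvings_two x
    by_cases hN : N = ∅
    · subst hN
      have : (6 : ℝ) ≤ ∑ p ∈ (∅ : Finset (Fin 2))ᶜ, ((depth x p : ℝ) + 3) := by
        rw [Finset.compl_empty, Fin.sum_univ_two]
        have h0 : (0 : ℝ) ≤ depth x 0 := Nat.cast_nonneg _
        have h1 : (0 : ℝ) ≤ depth x 1 := Nat.cast_nonneg _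
        linarith
      simp only [Finset.card_empty, Nat.cast_zero, Real.sqrt_zero, mul_zero, add_zero]
      push_cast
      linarith
    · have h1 : (1 : ℝ) ≤ √(N.card : ℝ) := by
        rw [Real.one_le_sqrt]
        exact_mod_cast Finset.card_pos.mpr (Finset.nonempty_iff_ne_empty.mpr hN)
      have h0 : (0 : ℝ) ≤ ∑ p ∈ Nᶜ, ((depth x p : ℝ) + 3) :=
        Finset.sum_nonneg fun p _ => by positivity
      push_cast
      nlinarith

end Pool.Agent.HP3
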