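import Pool.Agent.HP3.Depth
import Pool.Agent.HP3.Gen
import Pool.Agent.SmH.Count

/-!
# The moment curve: depth one and many halving planes (module Moment)
-/

set_option autoImplicit false

namespace Pool.Agent.HP3

/-- the points `(i, i², i³)` of the moment curve -/
noncomputable def mom (n : ℕ) (e : Fin n × Fin 3) : ℝ := ((e.1 : ℕ) : ℝ) ^ ((e.2 : ℕ) + 1)

theorem ev_mom {n : ℕ} (u : V3) (i : Fin n) : SmH.ev u (mom n) i =
    u 0 * ((i : ℕ) : ℝ) + u 1 * ((i : ℕ) : ℝ) ^ 2 + u 2 * ((i : ℕ) : ℝ) ^ 3 := by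
  unfold SmH.ev mom
  rw [Fin.sum_univ_three]
  simp

theorem genPos_mom (n : ℕ) : SmH.GenPos (mom n) := by
  classical
  intro u t hu S hS
  by_contra hc
  push Not at hc
  set p : Polynomial ℝ := Polynomial.C (u 2) * Polynomial.X ^ 3 +
    Polynomial.C (u 1) * Polynomial.X ^ 2 + Polynomial.C (u 0) * Polynomial.X +
    Polynomial.C (-t) with hp
  have hdeg : p.natDegree ≤ 3 := Polynomial.natDegree_cubic_le
  have hroot : ∀ i ∈ S, p.eval (((i : ℕ) : ℝ)) = 0 := by
    intro i hi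
    have h1 := hS i hi
    rw [ev_mom] at h1
    rw [hp]
    simp only [Polynomial.eval_add, Polynomial.eval_mul, Polynomial.eval_C, Polynomial.eval_pow,
      Polynomial.eval_X]
    linarith
  have hinj : Function.Injective (fun i : Fin n => ((i : ℕ) : ℝ)) := by
    intro i j hij
    exact Fin.ext (Nat.cast_injective hij)
  have h0 : p = 0 := by
    apply Polynomial.eq_zero_of_natDegree_lt_card_of_eval_eq_zero' p
      (S.image fun i : Fin n => ((i : ℕ) : ℝ))
    · intro y hy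
      rw [Finset.mem_image] at hy
      obtain ⟨i, hi, rfl⟩ := hy
      exact hroot i hi
    · rw [Finset.card_image_of_injective _ hinj]
      omega
  apply hu
  have c1 : p.coeff 1 = u 0 := by
    rw [hp]; simp [Polynomial.coeff_C]
  have c2 : p.coeff 2 = u 1 := by
    rw [hp]; simp [Polynomial.coeff_X, Polynomial.coeff_C]
  have c3 : p.coeff 3 = u 2 := by
    rw [hp]; simp [Polynomial.coeff_X, Polynomial.coeff_C]
  rw [h0] at c1 c2 c3
  simp only [Polynomial.coeff_zero] at c1 c2 c3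
  funext c
  fin_cases c
  · exact c1.symm
  · exact c2.symm
  · exact c3.symm

theorem depth_mom (n : ℕ) (r : Fin n) : depth (mom n) r = 1 := by
  classical
  apply le_antisymm _ (one_le_depth r)
  unfold depth
  apply Nat.sInf_le
  refine ⟨![2 * ((r : ℕ) : ℝ), -1, 0], ?_, ?_⟩
  · intro h
    have := congrFun h 1
    simp at this
  · symm
    rw [Finset.card_eq_one]
    refine ⟨r, ?_⟩
    ext j
    rw [Finset.mem_filter, Finset.mem_singleton]
    constructor
    · rintro ⟨-, h⟩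
      have e : ∀ i : Fin n, dot ![2 * ((r : ℕ) : ℝ), -1, 0] (pt (mom n) i) =
          2 * ((r : ℕ) : ℝ) * ((i : ℕ) : ℝ) - ((i : ℕ) : ℝ) ^ 2 := by
        intro i
        unfold dot pt mom
        simp
        ring
      rw [e, e] at h
      have h2 : (((j : ℕ) : ℝ) - ((r : ℕ) : ℝ)) ^ 2 ≤ 0 := by nlinarith
      have h3 : ((j : ℕ) : ℝ) - ((r : ℕ) : ℝ) = 0 := by
        have := le_antisymm h2 (sq_nonneg _)
        exact pow_eq_zero_iff (two_ne_zero) |>.mp this
      exact Fin.ext (Nat.cast_injective (sub_eq_zero.mp h3))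
    · rintro rfl
      exact ⟨Finset.mem_univ _, le_rfl⟩

/-- two intervals -/
private def II (k : ℕ) (q : ℕ × ℕ) : Finset (Fin (2 * k)) :=
  Finset.univ.filter fun i => (i : ℕ) < q.1 ∨ (q.1 + q.2 ≤ (i : ℕ) ∧ (i : ℕ) < q.2 + k)

private theorem card_II {k : ℕ} {q : ℕ × ℕ} (h1 : q.1 < k) (h2 : q.2 ≤ k) :
    2 * (II k q).card = 2 * k := by
  classical
  have e : (II k q).image (fun i : Fin (2 * k) => (i : ℕ)) =
      Finset.range q.1 ∪ Finset.Ico (q.1 + q.2) (q.2 + k) := by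
    ext i
    simp only [II, Finset.mem_image, Finset.mem_filter, Finset.mem_univ, true_and,
      Finset.mem_union, Finset.mem_range, Finset.mem_Ico]
    constructor
    · rintro ⟨j, hj, rfl⟩
      exact hj
    · intro hi
      have : i < 2 * k := by omega
      exact ⟨⟨i, this⟩, hi, rfl⟩
  have h3 := Finset.card_image_of_injective (II k q) (f := fun i : Fin (2 * k) => (i : ℕ))
    (fun i j hij => Fin.ext hij)
  rw [← h3, e, Finset.card_union_of_disjoint, Finset.card_range, Nat.card_Ico]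
  · omega
  · rw [Finset.disjoint_left]
    intro i hi
    rw [Finset.mem_range] at hi
    rw [Finset.mem_Ico]
    omega

private theorem sep_II {k : ℕ} {q : ℕ × ℕ} (h1 : q.1 < k) :
    SmH.Sep (mom (2 * k)) (II k q) := by
  set a : ℝ := (q.1 : ℝ) - 1 / 2 with ha
  set b : ℝ := (q.1 : ℝ) + q.2 - 1 / 2 with hb
  set c : ℝ := (q.2 : ℝ) + k - 1 / 2 with hc
  have key : ∀ i : Fin (2 * k), SmH.ev ![-(a * b + b * c + c * a), a + b + c, -1] (mom (2 * k)) i =
      -((((i : ℕ) : ℝ) - a) * (((i : ℕ) : ℝ) - b) * (((i : ℕ) : ℝ) - c)) - a * b * c := by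
    intro i
    rw [ev_mom]
    simp
    ring
  have h1' : (q.1 : ℝ) + 1 ≤ k := by exact_mod_cast h1
  have h2' : (0 : ℝ) ≤ q.2 := Nat.cast_nonneg _
  refine ⟨![-(a * b + b * c + c * a), a + b + c, -1], -(a * b * c), ?_, ?_⟩
  · intro i hi
    rw [key]
    have hi' : (i : ℕ) < q.1 ∨ (q.1 + q.2 ≤ (i : ℕ) ∧ (i : ℕ) < q.2 + k) := by
      simpa [II] using hi
    rcases hi' with h | ⟨h, h'⟩
    · have h3 : ((i : ℕ) : ℝ) + 1 ≤ q.1 := by exact_mod_cast h
      have p1 : 0 < a - ((i : ℕ) : ℝ) := by rw [ha]; linarith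
      have p2 : 0 < b - ((i : ℕ) : ℝ) := by rw [hb]; linarith
      have p3 : 0 < c - ((i : ℕ) : ℝ) := by rw [hc]; linarith
      have := mul_pos (mul_pos p1 p2) p3
      nlinarith
    · have h3 : (q.1 : ℝ) + q.2 ≤ ((i : ℕ) : ℝ) := by exact_mod_cast h
      have h4 : ((i : ℕ) : ℝ) + 1 ≤ q.2 + k := by exact_mod_cast h'
      have p1 : 0 < ((i : ℕ) : ℝ) - a := by rw [ha]; linarith
      have p2 : 0 < ((i : ℕ) : ℝ) - b := by rw [hb]; linarith
      have p3 : 0 < c - ((i : ℕ) : ℝ) := by rw [hc]; linarith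
      have := mul_pos (mul_pos p1 p2) p3
      nlinarith
  · intro i hi
    rw [key]
    have hi' : ¬((i : ℕ) < q.1 ∨ (q.1 + q.2 ≤ (i : ℕ) ∧ (i : ℕ) < q.2 + k)) := by
      simpa [II] using hi
    by_cases h5 : (i : ℕ) < q.1 + q.2
    · have h6 : q.1 ≤ (i : ℕ) := by omega
      have h3 : (q.1 : ℝ) ≤ ((i : ℕ) : ℝ) := by exact_mod_cast h6
      have h4 : ((i : ℕ) : ℝ) + 1 ≤ q.1 + q.2 := by exact_mod_cast h5
      have p1 : 0 < ((i : ℕ) : ℝ) - a := by rw [ha]; linarith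
      have p2 : 0 < b - ((i : ℕ) : ℝ) := by rw [hb]; linarith
      have p3 : 0 < c - ((i : ℕ) : ℝ) := by rw [hc]; linarith
      have := mul_pos (mul_pos p1 p2) p3
      nlinarith
    · have h6 : q.2 + k ≤ (i : ℕ) := by omega
      have h3 : (q.2 : ℝ) + k ≤ ((i : ℕ) : ℝ) := by exact_mod_cast h6
      have p1 : 0 < ((i : ℕ) : ℝ) - a := by rw [ha]; linarith
      have p2 : 0 < ((i : ℕ) : ℝ) - b := by rw [hb]; linarith
      have p3 : 0 < ((i : ℕ) : ℝ) - c := by rw [hc]; linarith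
      have := mul_pos (mul_pos p1 p2) p3
      nlinarith

private theorem mem_II {k : ℕ} {q : ℕ × ℕ} {i : ℕ} (hi : i < 2 * k) :
    (⟨i, hi⟩ : Fin (2 * k)) ∈ II k q ↔ i < q.1 ∨ (q.1 + q.2 ≤ i ∧ i < q.2 + k) := by
  simp [II]

private theorem II_inj {k : ℕ} {q q' : ℕ × ℕ} (h1 : q.1 < k) (h2 : 0 < q.2) (h2k : q.2 ≤ k)
    (h1' : q'.1 < k) (h2' : 0 < q'.2) (h2k' : q'.2 ≤ k) (h : II k q = II k q') : q = q' := by
  have h3 : ∀ i : ℕ, i < 2 * k → ((i < q.1 ∨ (q.1 + q.2 ≤ i ∧ i < q.2 + k)) ↔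
      (i < q'.1 ∨ (q'.1 + q'.2 ≤ i ∧ i < q'.2 + k))) := by
    intro i hi
    rw [← mem_II hi, ← mem_II hi, h]
  have e1 : q.1 = q'.1 := by
    have a1 := h3 q.1 (by omega)
    have a2 := h3 q'.1 (by omega)
    omega
  have e2 : q.2 = q'.2 := by
    have a1 := h3 (q.1 + q.2) (by omega)
    have a2 := h3 (q'.1 + q'.2) (by omega)
    omega
  exact Prod.ext e1 e2

theorem halvings_mom (k : ℕ) : k * (k - 1) ≤ SmH.halvings (mom (2 * k)) := by
  classical
  set Q : Finset (ℕ × ℕ) := Finset.Icc 1 (k - 1) ×ˢ Finset.Icc 1 k with hQ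
  have hcard : Q.card = k * (k - 1) := by
    rw [hQ, Finset.card_product, Nat.card_Icc, Nat.card_Icc, Nat.add_sub_cancel, Nat.add_sub_cancel,
      mul_comm]
  have hmem : ∀ q ∈ Q, 0 < q.1 ∧ q.1 < k ∧ 0 < q.2 ∧ q.2 ≤ k := by
    intro q hq
    rw [hQ, Finset.mem_product, Finset.mem_Icc, Finset.mem_Icc] at hq
    omega
  unfold SmH.halvings
  rw [Set.ncard_eq_toFinset_card', ← hcard]
  apply Finset.card_le_card_of_injOn (fun q => ({II k q, (II k q)ᶜ} : Finset (Finset (Fin (2 * k)))))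
  · intro q hq
    obtain ⟨-, q1, -, q2⟩ := hmem q hq
    rw [Finset.mem_coe, Set.mem_toFinset]
    exact ⟨II k q, card_II q1 q2, sep_II q1, rfl⟩
  · intro q hq q' hq' h
    obtain ⟨a0, a1, a2, a3⟩ := hmem q hq
    obtain ⟨b0, b1, b2, b3⟩ := hmem q' hq'
    have h5 : II k q ∈ ({II k q', (II k q')ᶜ} : Finset (Finset (Fin (2 * k)))) := by
      have : II k q ∈ ({II k q, (II k q)ᶜ} : Finset (Finset (Fin (2 * k)))) := by simp
      have h' : ({II k q, (II k q)ᶜ} : Finset (Finset (Fin (2 * k)))) =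
        {II k q', (II k q')ᶜ} := h
      rwa [h'] at this
    rw [Finset.mem_insert, Finset.mem_singleton] at h5
    rcases h5 with h5 | h5
    · exact II_inj a1 a2 a3 b1 b2 b3 h5
    · exfalso
      have hk : 0 < 2 * k := by omega
      have m1 : (⟨0, hk⟩ : Fin (2 * k)) ∈ II k q := (mem_II hk).mpr (Or.inl a0)
      have m2 : (⟨0, hk⟩ : Fin (2 * k)) ∈ II k q' := (mem_II hk).mpr (Or.inl b0)
      rw [h5, Finset.mem_compl] at m1
      exact m1 m2

end Pool.Agent.HP3
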