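import Pool.Agent.HP3.LemG
import Pool.Agent.HP3.Sym

/-!
# The triangle inequality (module Tri)

`segN x p` = number of arcs which cross the arc `x p`.
PROOF of `tri`. Coordinates with respect to the basis `x, p, q` (`D = dt x p q ≠ 0`):
`v = (dt v p q / D) x + (dt x v q / D) p + (dt x p v / D) q`. For an arc `(i, j)` (ordered) which
is not in the exceptional set (`dt q (y i) (y j) = 0`, at most `Q` ordered arcs) `lemG` applies to
the coordinates `a` of `y i` and `b` of `y j`: `Cr x p (y i) (y j)` is the first condition,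
`Cr x q (y i) (y j)` the second and `Cr p q (y i) (y j)` the third; `hδ` is `hx` because
`dt x (y i) (y j) = D * (a2 b3 - a3 b2)`, `hv1, hw1` is `h1`, `hv2, hw2` is `h2`. Sum over all
ordered arcs: the sum of the two sign terms is
`2 ∑_{i inside} ∑_{j : A i j} sg (-(dt x (y i) (y j)) / D) ≤ 2 * 4 * card ι` by `Link.bal`
(symmetry of `A`), and the exceptional arcs cost at most `2 Q` (each of them changes the left side
and the sum of the sign terms by at most one; both signs cancel if both ends are inside).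
-/

set_option autoImplicit false

namespace Pool.Agent.HP3

namespace Tri

/-- coordinates in the basis `x, p, q` -/
noncomputable def c1 (x p q v : V3) : ℝ := dt v p q / dt x p q
noncomputable def c2 (x p q v : V3) : ℝ := dt x v q / dt x p q
noncomputable def c3 (x p q v : V3) : ℝ := dt x p v / dt x p q

theorem c1_lin (x p q v w : V3) (s t : ℝ) :
    c1 x p q (s • v + t • w) = s * c1 x p q v + t * c1 x p q w := by
  simp only [c1, dt, Pi.add_apply, Pi.smul_apply, smul_eq_mul]
  ring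

theorem c2_lin (x p q v w : V3) (s t : ℝ) :
    c2 x p q (s • v + t • w) = s * c2 x p q v + t * c2 x p q w := by
  simp only [c2, dt, Pi.add_apply, Pi.smul_apply, smul_eq_mul]
  ring

theorem c3_lin (x p q v w : V3) (s t : ℝ) :
    c3 x p q (s • v + t • w) = s * c3 x p q v + t * c3 x p q w := by
  simp only [c3, dt, Pi.add_apply, Pi.smul_apply, smul_eq_mul]
  ring

theorem cramer {x p q : V3} (hD : dt x p q ≠ 0) (v : V3) :
    v = c1 x p q v • x + c2 x p q v • p + c3 x p q v • q := by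
  have key : dt x p q • v = dt v p q • x + dt x v q • p + dt x p v • q := by
    funext i
    fin_cases i <;> simp [dt] <;> ring
  calc v = (dt x p q)⁻¹ • (dt x p q • v) := by
        rw [smul_smul, inv_mul_cancel₀ hD, one_smul]
    _ = _ := by
        rw [key]
        simp only [c1, c2, c3, smul_add, smul_smul, div_eq_inv_mul]

theorem c_x {x p q : V3} (hD : dt x p q ≠ 0) :
    c1 x p q x = 1 ∧ c2 x p q x = 0 ∧ c3 x p q x = 0 := by
  refine ⟨div_self hD, ?_, ?_⟩
  · have : dt x x q = 0 := by simp only [dt]; ring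
    rw [c2, this, zero_div]
  · have : dt x p x = 0 := by simp only [dt]; ring
    rw [c3, this, zero_div]

theorem c_p {x p q : V3} (hD : dt x p q ≠ 0) :
    c1 x p q p = 0 ∧ c2 x p q p = 1 ∧ c3 x p q p = 0 := by
  refine ⟨?_, div_self hD, ?_⟩
  · have : dt p p q = 0 := by simp only [dt]; ring
    rw [c1, this, zero_div]
  · have : dt x p p = 0 := by simp only [dt]; ring
    rw [c3, this, zero_div]

theorem c_q {x p q : V3} (hD : dt x p q ≠ 0) :
    c1 x p q q = 0 ∧ c2 x p q q = 0 ∧ c3 x p q q = 1 := by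
  refine ⟨?_, ?_, div_self hD⟩
  · have : dt q p q = 0 := by simp only [dt]; ring
    rw [c1, this, zero_div]
  · have : dt x q q = 0 := by simp only [dt]; ring
    rw [c2, this, zero_div]

theorem ext_c {x p q : V3} (hD : dt x p q ≠ 0) {v w : V3} (h1 : c1 x p q v = c1 x p q w)
    (h2 : c2 x p q v = c2 x p q w) (h3 : c3 x p q v = c3 x p q w) : v = w := by
  rw [cramer hD v, cramer hD w, h1, h2, h3]

theorem cr3 {x p q : V3} (hD : dt x p q ≠ 0) (v w : V3) :
    Cr x p v w ↔ ∃ s t : ℝ, 0 < s ∧ 0 < t ∧ 0 < s * c1 x p q v + t * c1 x p q w ∧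
      0 < s * c2 x p q v + t * c2 x p q w ∧ s * c3 x p q v + t * c3 x p q w = 0 := by
  obtain ⟨x1, x2, x3⟩ := c_x hD
  obtain ⟨p1, p2, p3⟩ := c_p hD
  constructor
  · rintro ⟨s, t, u, z, hs, ht, hu, hz, he⟩
    refine ⟨u, z, hu, hz, ?_, ?_, ?_⟩
    · rw [← c1_lin, ← he, c1_lin, x1, p1]; linarith
    · rw [← c2_lin, ← he, c2_lin, x2, p2]; linarith
    · rw [← c3_lin, ← he, c3_lin, x3, p3]; ring
  · rintro ⟨u, z, hu, hz, h1, h2, h3⟩
    refine ⟨_, _, u, z, h1, h2, hu, hz, ext_c hD ?_ ?_ ?_⟩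
    · rw [c1_lin, c1_lin, x1, p1]; ring
    · rw [c2_lin, c2_lin, x2, p2]; ring
    · rw [c3_lin, c3_lin, x3, p3, h3]; ring

theorem cr2 {x p q : V3} (hD : dt x p q ≠ 0) (v w : V3) :
    Cr x q v w ↔ ∃ s t : ℝ, 0 < s ∧ 0 < t ∧ 0 < s * c1 x p q v + t * c1 x p q w ∧
      s * c2 x p q v + t * c2 x p q w = 0 ∧ 0 < s * c3 x p q v + t * c3 x p q w := by
  obtain ⟨x1, x2, x3⟩ := c_x hD
  obtain ⟨p1, p2, p3⟩ := c_q hD
  constructor
  · rintro ⟨s, t, u, z, hs, ht, hu, hz, he⟩
    refine ⟨u, z, hu, hz, ?_, ?_, ?_⟩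
    · rw [← c1_lin, ← he, c1_lin, x1, p1]; linarith
    · rw [← c2_lin, ← he, c2_lin, x2, p2]; ring
    · rw [← c3_lin, ← he, c3_lin, x3, p3]; linarith
  · rintro ⟨u, z, hu, hz, h1, h2, h3⟩
    refine ⟨_, _, u, z, h1, h3, hu, hz, ext_c hD ?_ ?_ ?_⟩
    · rw [c1_lin, c1_lin, x1, p1]; ring
    · rw [c2_lin, c2_lin, x2, p2, h2]; ring
    · rw [c3_lin, c3_lin, x3, p3]; ring

theorem cr1 {x p q : V3} (hD : dt x p q ≠ 0) (v w : V3) :
    Cr p q v w ↔ ∃ s t : ℝ, 0 < s ∧ 0 < t ∧ s * c1 x p q v + t * c1 x p q w = 0 ∧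
      0 < s * c2 x p q v + t * c2 x p q w ∧ 0 < s * c3 x p q v + t * c3 x p q w := by
  obtain ⟨x1, x2, x3⟩ := c_p hD
  obtain ⟨p1, p2, p3⟩ := c_q hD
  constructor
  · rintro ⟨s, t, u, z, hs, ht, hu, hz, he⟩
    refine ⟨u, z, hu, hz, ?_, ?_, ?_⟩
    · rw [← c1_lin, ← he, c1_lin, x1, p1]; ring
    · rw [← c2_lin, ← he, c2_lin, x2, p2]; linarith
    · rw [← c3_lin, ← he, c3_lin, x3, p3]; linarith
  · rintro ⟨u, z, hu, hz, h1, h2, h3⟩
    refine ⟨_, _, u, z, h2, h3, hu, hz, ext_c hD ?_ ?_ ?_⟩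
    · rw [c1_lin, c1_lin, x1, p1, h1]; ring
    · rw [c2_lin, c2_lin, x2, p2]; ring
    · rw [c3_lin, c3_lin, x3, p3]; ring

theorem dt_x {x p q : V3} (hD : dt x p q ≠ 0) (v w : V3) :
    dt x v w = dt x p q * (c2 x p q v * c3 x p q w - c3 x p q v * c2 x p q w) := by
  conv_lhs => rw [cramer hD v, cramer hD w]
  generalize c1 x p q v = a1
  generalize c2 x p q v = a2
  generalize c3 x p q v = a3
  generalize c1 x p q w = b1
  generalize c2 x p q w = b2
  generalize c3 x p q w = b3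
  simp only [dt, Pi.add_apply, Pi.smul_apply, smul_eq_mul]
  ring

theorem dt_q {x p q : V3} (hD : dt x p q ≠ 0) (v w : V3) :
    dt q v w = dt x p q * (c1 x p q v * c2 x p q w - c2 x p q v * c1 x p q w) := by
  conv_lhs => rw [cramer hD v, cramer hD w]
  generalize c1 x p q v = a1
  generalize c2 x p q v = a2
  generalize c3 x p q v = a3
  generalize c1 x p q w = b1
  generalize c2 x p q w = b2
  generalize c3 x p q w = b3
  simp only [dt, Pi.add_apply, Pi.smul_apply, smul_eq_mul]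
  ring

/-- inside the open cone -/
def Ins (x p q v : V3) : Prop := 0 < c1 x p q v ∧ 0 < c2 x p q v ∧ 0 < c3 x p q v

/-- the sign term -/
noncomputable def sig (x p q v w : V3) : ℤ :=
  sg (c3 x p q v * c2 x p q w - c2 x p q v * c3 x p q w)

theorem sig_swap (x p q v w : V3) : sig x p q w v = -sig x p q v w := by
  rw [sig, sig, ← sg_neg_eq]
  ring_nf

theorem sig_eq {x p q : V3} (hD : dt x p q ≠ 0) (v w : V3) :
    sig x p q v w = sg (-(dt x p q)⁻¹) * sg (dt x v w) := by
  rw [← sg_mul, dt_x hD v w, sig]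
  rw [show -(dt x p q)⁻¹ * (dt x p q * (c2 x p q v * c3 x p q w - c3 x p q v * c2 x p q w)) =
    ((dt x p q)⁻¹ * dt x p q) * (c3 x p q v * c2 x p q w - c2 x p q v * c3 x p q w) by ring,
    inv_mul_cancel₀ hD, one_mul]

open Classical in
theorem point {x p q v w : V3} (hD : dt x p q ≠ 0) (hx : dt x v w ≠ 0)
    (hv1 : ¬InCone p q v) (hv2 : ¬InCone x q v) (hw1 : ¬InCone p q w) (hw2 : ¬InCone x q w) :
    (if Cr x p v w then (1 : ℤ) else 0) ≤ (if Cr x q v w then (1 : ℤ) else 0) +
      (if Cr p q v w then (1 : ℤ) else 0) + (if Ins x p q v then sig x p q v w else 0) +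
      (if Ins x p q w then sig x p q w v else 0) + (if dt q v w = 0 then 2 else 0) := by
  by_cases hq : dt q v w = 0
  · rw [if_pos hq]
    have hs : |sig x p q v w| ≤ 1 := abs_sg_le _
    have hs' := sig_swap x p q v w
    rw [abs_le] at hs
    have e3 : (if Cr x p v w then (1 : ℤ) else 0) ≤ 1 := by split_ifs <;> norm_num
    have e2 : 0 ≤ (if Cr x q v w then (1 : ℤ) else 0) := by split_ifs <;> norm_num
    have e1 : 0 ≤ (if Cr p q v w then (1 : ℤ) else 0) := by split_ifs <;> norm_num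
    by_cases hi : Ins x p q v <;> by_cases hj : Ins x p q w <;> simp only [hi, hj, if_true, if_false]
      <;> linarith [hs.1, hs.2]
  · rw [if_neg hq, add_zero]
    have nz1 : ∀ u, ¬InCone p q u → ¬(c1 x p q u = 0 ∧ 0 < c2 x p q u ∧ 0 < c3 x p q u) := by
      rintro u hu ⟨h1, h2, h3⟩
      refine hu ⟨_, _, h2, h3, ?_⟩
      conv_lhs => rw [cramer hD u, h1, zero_smul, zero_add]
    have nz2 : ∀ u, ¬InCone x q u → ¬(c2 x p q u = 0 ∧ 0 < c1 x p q u ∧ 0 < c3 x p q u) := by
      rintro u hu ⟨h1, h2, h3⟩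
      refine hu ⟨_, _, h2, h3, ?_⟩
      conv_lhs => rw [cramer hD u, h1, zero_smul, add_zero]
    have hδ : c2 x p q v * c3 x p q w - c3 x p q v * c2 x p q w ≠ 0 := by
      intro h0
      exact hx (by rw [dt_x hD, h0, mul_zero])
    have hq' : c1 x p q v * c2 x p q w - c2 x p q v * c1 x p q w ≠ 0 := by
      intro h0
      exact hq (by rw [dt_q hD, h0, mul_zero])
    have := lemG (c1 x p q v) (c2 x p q v) (c3 x p q v) (c1 x p q w) (c2 x p q w) (c3 x p q w)
      hδ hq' (nz1 v hv1) (nz2 v hv2) (nz1 w hw1) (nz2 w hw2)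
    simp only [← cr1 hD, ← cr2 hD, ← cr3 hD] at this
    simp only [Ins, sig]
    convert this using 3

end Tri

variable {ι : Type} [Fintype ι] {y : ι → V3} {A : ι → ι → Prop}

open Classical in
theorem tri (h : Link y A) {x p q : V3} (hx : ∀ i j, i ≠ j → dt x (y i) (y j) ≠ 0)
    (hD : dt x p q ≠ 0) (h1 : ∀ i, ¬InCone p q (y i)) (h2 : ∀ i, ¬InCone x q (y i)) {Q : ℕ}
    (hQ : (Finset.univ.filter fun r : ι × ι => A r.1 r.2 ∧ dt q (y r.1) (y r.2) = 0).card ≤ Q) :
    segN y A x p ≤ segN y A x q + segN y A p q + 8 * Fintype.card ι + 2 * Q := by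
  -- everything as sums over the ordered arcs
  have hseg : ∀ a b : V3, (segN y A a b : ℤ) =
      ∑ r : ι × ι, if A r.1 r.2 then (if Cr a b (y r.1) (y r.2) then (1 : ℤ) else 0) else 0 := by
    intro a b
    rw [segN, Finset.card_filter, Nat.cast_sum]
    refine Finset.sum_congr rfl fun r _ => ?_
    by_cases hA : A r.1 r.2 <;> by_cases hC : Cr a b (y r.1) (y r.2) <;> simp [hA, hC]
  have hQ' : (∑ r : ι × ι, if A r.1 r.2 then (if dt q (y r.1) (y r.2) = 0 then (2 : ℤ) else 0)
      else 0) ≤ 2 * Q := by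
    have : (∑ r : ι × ι, if A r.1 r.2 then (if dt q (y r.1) (y r.2) = 0 then (2 : ℤ) else 0)
        else 0) = 2 * ((Finset.univ.filter fun r : ι × ι =>
          A r.1 r.2 ∧ dt q (y r.1) (y r.2) = 0).card : ℤ) := by
      rw [Finset.card_filter, Nat.cast_sum, Finset.mul_sum]
      refine Finset.sum_congr rfl fun r _ => ?_
      by_cases hA : A r.1 r.2 <;> by_cases hC : dt q (y r.1) (y r.2) = 0 <;> simp [hA, hC]
    rw [this]
    have : ((Finset.univ.filter fun r : ι × ι =>
          A r.1 r.2 ∧ dt q (y r.1) (y r.2) = 0).card : ℤ) ≤ Q := by exact_mod_cast hQ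
    linarith
  -- the sign terms
  set S1 : ℤ := ∑ r : ι × ι, if A r.1 r.2 then
    (if Tri.Ins x p q (y r.1) then Tri.sig x p q (y r.1) (y r.2) else 0) else 0 with hS1
  set S2 : ℤ := ∑ r : ι × ι, if A r.1 r.2 then
    (if Tri.Ins x p q (y r.2) then Tri.sig x p q (y r.2) (y r.1) else 0) else 0 with hS2
  have hS12 : S2 = S1 := by
    rw [hS1, hS2, ← (Equiv.prodComm ι ι).sum_comp]
    refine Finset.sum_congr rfl fun r _ => ?_
    have : A r.2 r.1 ↔ A r.1 r.2 := ⟨h.symm _ _, h.symm _ _⟩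
    simp only [Equiv.prodComm_apply, Prod.fst_swap, Prod.snd_swap, this]
  have hS1b : S1 ≤ 4 * Fintype.card ι := by
    rw [hS1, Fintype.sum_prod_type]
    have hi : ∀ i : ι, (∑ j : ι, if A i j then
        (if Tri.Ins x p q (y i) then Tri.sig x p q (y i) (y j) else 0) else 0) ≤ 4 := by
      intro i
      by_cases hI : Tri.Ins x p q (y i)
      · have e : (∑ j : ι, if A i j then
            (if Tri.Ins x p q (y i) then Tri.sig x p q (y i) (y j) else 0) else 0) =
            sg (-(dt x p q)⁻¹) * ∑ j : ι, if A i j then sg (dt x (y i) (y j)) else 0 := by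
          rw [Finset.mul_sum]
          refine Finset.sum_congr rfl fun j _ => ?_
          rw [if_pos hI, Tri.sig_eq hD]
          by_cases hA : A i j <;> simp [hA]
        rw [e]
        refine (le_abs_self _).trans ?_
        rw [abs_mul]
        have b1 := abs_sg_le (-(dt x p q)⁻¹)
        have b2 := h.bal x i
        have b3 := abs_nonneg (sg (-(dt x p q)⁻¹))
        have b4 := abs_nonneg (∑ j : ι, if A i j then sg (dt x (y i) (y j)) else 0)
        nlinarith
      · simp [hI]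
    calc (∑ i : ι, ∑ j : ι, if A i j then
          (if Tri.Ins x p q (y i) then Tri.sig x p q (y i) (y j) else 0) else 0)
        ≤ ∑ i : ι, (4 : ℤ) := Finset.sum_le_sum fun i _ => hi i
      _ = 4 * Fintype.card ι := by
        rw [Finset.sum_const, Finset.card_univ, nsmul_eq_mul, mul_comm]
  have hmain : (segN y A x p : ℤ) ≤ segN y A x q + segN y A p q + S1 + S2 + 2 * Q := by
    refine le_trans ?_ (add_le_add_right hQ' _)
    rw [hseg x p, hseg x q, hseg p q, hS1, hS2, ← Finset.sum_add_distrib,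
      ← Finset.sum_add_distrib, ← Finset.sum_add_distrib, ← Finset.sum_add_distrib]
    refine Finset.sum_le_sum fun r _ => ?_
    by_cases hA : A r.1 r.2
    · simp only [hA, if_true]
      have hne : r.1 ≠ r.2 := by
        intro he
        rw [he] at hA
        exact h.irr _ hA
      exact Tri.point hD (hx _ _ hne) (h1 _) (h2 _) (h1 _) (h2 _)
    · simp only [hA, if_false]
      norm_num
  have : (segN y A x p : ℤ) ≤
      ((segN y A x q + segN y A p q + 8 * Fintype.card ι + 2 * Q : ℕ) : ℤ) := by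
    push_cast
    linarith
  exact_mod_cast this

end Pool.Agent.HP3
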