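import Pool.Agent.HP3.Defs

/-!
# The walk lemma (module Walk)

Elements of a finite set `J` with different positions `s` and signs `ε = ±1`;
`G j = #{l ∈ J : ε l * (s l - s j) > 0}`.
PROOF of `walk`: induction on `J`, removing the element `a` with the largest `s`
(`Finset.induction_on_max_value`, or strong induction and `Finset.exists_max_image`). If
`ε a = -1`, then `G` is unchanged on the rest; if `ε a = 1` then `G` increases by one on the rest;
and `G a = #{l ≠ a : ε l = -1}`. Both cases are checked by case distinction (`omega` after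
`split_ifs`).
`walk_window`: the condition allows at most four values of `G j`; by `walk` every value contributes
a number in `{-1, 0, 1}`.
-/

set_option autoImplicit false

namespace Pool.Agent.HP3

open Classical in
/-- number of elements on the positive side of `j` -/
noncomputable def GG {α : Type} (J : Finset α) (s : α → ℝ) (ε : α → ℤ) (j : α) : ℕ :=
  (J.filter fun l => 0 < (ε l : ℝ) * (s l - s j)).card

open Classical in
private theorem GG_insert {α : Type} {J : Finset α} {s : α → ℝ} {ε : α → ℤ} {a : α} (ha : a ∉ J)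
    (hmax : ∀ x ∈ J, s x < s a) (hε : ε a = 1 ∨ ε a = -1) {j : α} (hj : j ∈ J) :
    GG (insert a J) s ε j = GG J s ε j + if ε a = 1 then 1 else 0 := by
  unfold GG
  rw [Finset.filter_insert]
  have h1 := hmax j hj
  rcases hε with h | h
  · rw [if_pos, Finset.card_insert_of_notMem, if_pos h]
    · exact fun h' => ha (Finset.mem_filter.1 h').1
    · rw [h, Int.cast_one, one_mul]
      linarith
  · rw [if_neg, if_neg]
    · rfl
    · rw [h]
      norm_num
    · rw [h, Int.cast_neg, Int.cast_one]
      linarith

open Classical in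
private theorem GG_self {α : Type} {J : Finset α} {s : α → ℝ} {ε : α → ℤ} {a : α}
    (hmax : ∀ x ∈ J, s x < s a) (hε : ∀ j ∈ J, ε j = 1 ∨ ε j = -1) :
    GG (insert a J) s ε a = (J.filter fun j => ε j = -1).card := by
  unfold GG
  rw [Finset.filter_insert, if_neg (by simp)]
  congr 1
  apply Finset.filter_congr
  intro j hj
  have h1 := hmax j hj
  rcases hε j hj with h | h
  · rw [h, Int.cast_one, one_mul]
    constructor
    · intro h2
      linarith
    · intro h2
      exact absurd h2 (by norm_num)
  · rw [h, Int.cast_neg, Int.cast_one]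
    constructor
    · intro _
      rfl
    · intro _
      linarith

open Classical in
theorem walk {α : Type} (J : Finset α) (s : α → ℝ) (hs : Set.InjOn s (J : Set α)) (ε : α → ℤ)
    (hε : ∀ j ∈ J, ε j = 1 ∨ ε j = -1) (m : ℕ) :
    ∑ j ∈ J.filter (fun j => GG J s ε j = m), ε j =
      (if m < (J.filter fun j => ε j = 1).card then 1 else 0) -
      (if m < (J.filter fun j => ε j = -1).card then 1 else 0) := by
  induction J using Finset.induction_on_max_value s generalizing m with
  | empty => simp
  | insert a J ha hmax ih =>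
    have hmax' : ∀ x ∈ J, s x < s a := by
      intro x hx
      refine lt_of_le_of_ne (hmax x hx) fun h => ?_
      have h1 := hs (Finset.mem_coe.2 (Finset.mem_insert_of_mem hx))
        (Finset.mem_coe.2 (Finset.mem_insert_self a J)) h
      exact ha (h1 ▸ hx)
    have hε' : ∀ j ∈ J, ε j = 1 ∨ ε j = -1 := fun j hj => hε j (Finset.mem_insert_of_mem hj)
    have hεa := hε a (Finset.mem_insert_self a J)
    have ih' := ih (hs.mono fun x hx => Finset.mem_coe.2
      (Finset.mem_insert_of_mem (Finset.mem_coe.1 hx))) hε'
    rw [Finset.sum_filter, Finset.sum_insert ha, GG_self hmax' hε']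
    have h1 : ∑ x ∈ J, (if GG (insert a J) s ε x = m then ε x else 0) =
        ∑ x ∈ J, (if GG J s ε x + (if ε a = 1 then 1 else 0) = m then ε x else 0) :=
      Finset.sum_congr rfl fun x hx => by rw [GG_insert ha hmax' hεa hx]
    rw [h1, Finset.filter_insert, Finset.filter_insert]
    rcases hεa with h | h
    · have hn : ¬ ε a = -1 := by
        rw [h]
        norm_num
      rw [if_pos h, if_pos h, if_neg hn,
        Finset.card_insert_of_notMem (fun h' => ha (Finset.mem_filter.1 h').1), h]
      cases m with
      | zero =>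
        have h2 : ∑ x ∈ J, (if GG J s ε x + 1 = 0 then ε x else 0) = 0 :=
          Finset.sum_eq_zero fun x _ => if_neg (Nat.succ_ne_zero _)
        rw [h2]
        split_ifs <;> omega
      | succ m =>
        have h2 : ∑ x ∈ J, (if GG J s ε x + 1 = m + 1 then ε x else 0) =
            ∑ x ∈ J.filter (fun j => GG J s ε j = m), ε x := by
          rw [Finset.sum_filter]
          apply Finset.sum_congr rfl
          intro x _
          simp only [Nat.add_right_cancel_iff]
        rw [h2, ih' m]
        split_ifs <;> omega
    · have hn : ¬ ε a = 1 := by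
        rw [h]
        norm_num
      rw [if_neg hn, if_neg hn, if_pos h, Finset.card_insert_of_notMem (fun h' => ha (Finset.mem_filter.1 h').1), h]
      have h2 : ∑ x ∈ J, (if GG J s ε x + 0 = m then ε x else 0) =
          ∑ x ∈ J.filter (fun j => GG J s ε j = m), ε x := by
        rw [Finset.sum_filter]
        rfl
      rw [h2, ih' m]
      split_ifs <;> omega

open Classical in
theorem walk_window {α : Type} (J : Finset α) (s : α → ℝ) (hs : Set.InjOn s (J : Set α))
    (ε : α → ℤ) (hε : ∀ j ∈ J, ε j = 1 ∨ ε j = -1) (n c : ℕ) :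
    |∑ j ∈ J.filter (fun j => n ≤ 2 * (GG J s ε j + c) + 6 ∧ 2 * (GG J s ε j + c) ≤ n), ε j| ≤
      4 := by
  obtain ⟨t, ht⟩ : ∃ t, t = (Finset.range (n + 1)).filter
    (fun m => n ≤ 2 * (m + c) + 6 ∧ 2 * (m + c) ≤ n) := ⟨_, rfl⟩
  have h1 := Finset.sum_fiberwise_of_maps_to (s := J.filter (fun j =>
    n ≤ 2 * (GG J s ε j + c) + 6 ∧ 2 * (GG J s ε j + c) ≤ n)) (t := t) (g := GG J s ε) (fun j hj => by
      rw [Finset.mem_filter] at hj
      rw [ht, Finset.mem_filter, Finset.mem_range]
      exact ⟨by omega, hj.2⟩) ε
  rw [← h1]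
  refine (Finset.abs_sum_le_sum_abs _ _).trans ?_
  have h2 : ∀ m ∈ t, |∑ j ∈ (J.filter (fun j =>
      n ≤ 2 * (GG J s ε j + c) + 6 ∧ 2 * (GG J s ε j + c) ≤ n)).filter
        (fun j => GG J s ε j = m), ε j| ≤ 1 := by
    intro m hm
    rw [ht, Finset.mem_filter] at hm
    have h3 : (J.filter (fun j => n ≤ 2 * (GG J s ε j + c) + 6 ∧ 2 * (GG J s ε j + c) ≤ n)).filter
        (fun j => GG J s ε j = m) = J.filter (fun j => GG J s ε j = m) := by
      rw [Finset.filter_filter]
      apply Finset.filter_congr
      intro j _
      constructor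
      · exact fun h => h.2
      · intro h
        rw [h]
        exact ⟨hm.2, rfl⟩
    rw [h3, walk J s hs ε hε m]
    split_ifs <;> norm_num
  refine (Finset.sum_le_card_nsmul _ _ 1 h2).trans ?_
  have h3 : t ⊆ Finset.Icc (n / 2 - 3 - c) (n / 2 - c) := by
    intro m hm
    rw [ht, Finset.mem_filter] at hm
    rw [Finset.mem_Icc]
    omega
  have h4 := Finset.card_le_card h3
  rw [Nat.card_Icc] at h4
  rw [nsmul_eq_mul, mul_one]
  omega

end Pool.Agent.HP3
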